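import Pool.Agent.H.MP_f30f9b_al.ASSum

/-!
# Joint equidistribution of polynomials
-/

set_option autoImplicit false

namespace Pool.MP_f30f9b_al.AS

open Polynomial ComplexConjugate

theorem addChar_sum {A M κ : Type*} [AddCommMonoid A] [CommMonoid M] (e : AddChar A M)
    (s : Finset κ) (f : κ → A) : e (∑ i ∈ s, f i) = ∏ i ∈ s, e (f i) := by
  classical
  induction s using Finset.induction_on with
  | empty => rw [Finset.sum_empty, Finset.prod_empty, AddChar.map_zero_eq_one]
  | insert a s ha ih =>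
    rw [Finset.sum_insert ha, Finset.prod_insert ha, AddChar.map_add_eq_mul, ih]

section Indep

variable {K ι : Type*} [Field K] (p : ℕ) [Fact p.Prime] [CharP K p] [Fintype ι]
  (ψ : K →+ (ι → ZMod p)) (hsurj : Function.Surjective ψ)
  (hper : ∀ x : K, ∃ y : K, y ^ p = x) (hker : ∀ x : K, ψ (x ^ p - x) = 0)

include hsurj hper hker

theorem indep (b : ι → K) (h : ∀ x : K, ∑ i, ψ (b i * x) i = 0) : b = 0 := by
  classical
  have hp : p.Prime := Fact.out
  have : NeZero p := ⟨hp.ne_zero⟩
  choose r hr using hper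
  have hr0 : r 0 = 0 := by
    have := hr 0
    exact pow_eq_zero_iff hp.ne_zero |>.1 this
  have hr1 : r 1 = 1 := by
    have h1 := hr 1
    have h2 : frobenius K p (r 1) = frobenius K p 1 := by
      rw [frobenius_def, frobenius_def, h1, one_pow]
    exact frobenius_inj K p h2
  have main : ∀ (n : ℕ) (b : ι → K), (Finset.univ.filter fun i => b i ≠ 0).card = n →
      (∀ x : K, ∑ i, ψ (b i * x) i = 0) → b = 0 := by
    intro n
    induction n using Nat.strong_induction_on with
    | _ n ih =>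
    intro b hbn hb
    by_contra hne
    obtain ⟨i₀, hi₀⟩ : ∃ i, b i ≠ 0 := by
      by_contra hall
      push Not at hall
      exact hne (funext hall)
    let b₁ : ι → K := fun i => b i / b i₀
    have hb₁ : ∀ x : K, ∑ i, ψ (b₁ i * x) i = 0 := by
      intro x
      rw [← hb (x / b i₀)]
      refine Finset.sum_congr rfl fun i _ => ?_
      congr 2
      simp only [b₁]
      ring
    have hb₁1 : b₁ i₀ = 1 := div_self hi₀
    let b₂ : ι → K := fun i => r (b₁ i)
    have hb₂ : ∀ x : K, ∑ i, ψ (b₂ i * x) i = 0 := by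
      intro x
      rw [← hb₁ (x ^ p)]
      refine Finset.sum_congr rfl fun i _ => ?_
      have h1 : ψ (b₁ i * x ^ p) = ψ (b₂ i * x) := by
        have h2 := hker (b₂ i * x)
        rw [map_sub, sub_eq_zero, mul_pow] at h2
        simp only [b₂] at h2 ⊢
        rw [hr] at h2
        exact h2
      rw [h1]
    have hb₃ : (fun i => b₁ i - b₂ i) = 0 := by
      refine ih _ ?_ (fun i => b₁ i - b₂ i) rfl ?_
      · rw [← hbn]
        refine Finset.card_lt_card ?_
        rw [Finset.ssubset_iff_of_subset]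
        · refine ⟨i₀, Finset.mem_filter.2 ⟨Finset.mem_univ _, hi₀⟩, ?_⟩
          rw [Finset.mem_filter, not_and, not_not]
          intro _
          simp only [b₂]
          rw [hb₁1, hr1, sub_self]
        · intro i hi
          rw [Finset.mem_filter] at hi ⊢
          refine ⟨hi.1, fun h0 => hi.2 ?_⟩
          simp only [b₁, b₂, h0, zero_div, hr0, sub_zero]
      · intro x
        have h1 := hb₁ x
        have h2 := hb₂ x
        have h3 : ∑ i, ψ ((b₁ i - b₂ i) * x) i =
            ∑ i, ψ (b₁ i * x) i - ∑ i, ψ (b₂ i * x) i := by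
          rw [← Finset.sum_sub_distrib]
          refine Finset.sum_congr rfl fun i _ => ?_
          rw [sub_mul, map_sub, Pi.sub_apply]
        rw [h3, h1, h2, sub_self]
    have hfix : ∀ i, ∃ m : ZMod p, (m.val : K) = b₁ i := by
      intro i
      have h1 : b₁ i = b₂ i := sub_eq_zero.1 (congrFun hb₃ i)
      have h2 : b₁ i ^ p = b₁ i := by
        conv_lhs => rw [h1]
        exact hr _
      rw [← Subfield.mem_bot_iff_pow_eq_self, ← ZMod.fieldRange_castHom_eq_bot p] at h2
      obtain ⟨m, hm⟩ := h2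
      refine ⟨m, ?_⟩
      rw [← hm, ZMod.castHom_apply, ZMod.natCast_val]
    choose m hm using hfix
    have h1 : ∀ x : K, ∑ i, m i * ψ x i = 0 := by
      intro x
      rw [← hb₁ x]
      refine Finset.sum_congr rfl fun i _ => ?_
      rw [← hm i, ← nsmul_eq_mul, map_nsmul, Pi.smul_apply, nsmul_eq_mul, ZMod.natCast_zmod_val]
    obtain ⟨x, hx⟩ := hsurj (Pi.single i₀ 1)
    have h2 := h1 x
    rw [hx, Finset.sum_eq_single i₀] at h2
    · rw [Pi.single_eq_same, mul_one] at h2
      have h3 := hm i₀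
      rw [h2, ZMod.val_zero, Nat.cast_zero, hb₁1] at h3
      exact zero_ne_one h3
    · intro i _ hi
      rw [Pi.single_eq_of_ne hi, mul_zero]
    · intro h3
      exact absurd (Finset.mem_univ _) h3
  exact main _ b rfl h

end Indep

section Multi

variable {K ι : Type*} [Field K] [Infinite K] (p : ℕ) [Fact p.Prime] [CharP K p] [Fintype ι]
  (ψ : K →+ (ι → ZMod p)) (hsurj : Function.Surjective ψ)
  (hper : ∀ x : K, ∃ y : K, y ^ p = x) (hker : ∀ x : K, ψ (x ^ p - x) = 0)

theorem natDegree_diff_le {K : Type*} [Field K] (g : K[X]) (h : K) :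
    (taylor h g - g).natDegree ≤ g.natDegree - 1 := by
  by_cases h0 : g.natDegree = 0
  · rw [h0]
    refine (natDegree_sub_le _ _).trans ?_
    rw [natDegree_taylor, h0]
    simp
  · have h1 : (taylor h g - g).natDegree ≤ g.natDegree :=
      (natDegree_sub_le _ _).trans (max_le (natDegree_taylor g h).le le_rfl)
    have h2 : (taylor h g - g).natDegree ≠ g.natDegree := by
      intro h1
      have h2 : (taylor h g - g).coeff g.natDegree = 0 := by
        rw [coeff_sub, coeff_taylor_natDegree]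
        exact sub_self _
      rw [← h1] at h2
      have h3 := leadingCoeff_eq_zero.1 h2
      rw [h3, natDegree_zero] at h1
      exact h0 h1.symm
    omega

include hsurj hper hker

theorem small_of_NT_multi : ∀ (n : ℕ) (H : ι → K[X]), (∀ i, (H i).natDegree ≤ n) →
    (∃ i, NT p (H i)) →
    Small fun x => (haveI : NeZero p := ⟨(Fact.out : p.Prime).ne_zero⟩
      ZMod.stdAddChar (∑ i, ψ ((H i).eval x) i) : ℂ) := by
  classical
  have hp : p.Prime := Fact.out
  have : NeZero p := ⟨hp.ne_zero⟩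
  have hnorm : ∀ v : ZMod p, ‖(ZMod.stdAddChar v : ℂ)‖ = 1 := fun v => AddChar.norm_apply _ v
  intro n
  induction n using Nat.strong_induction_on with
  | _ n ih =>
  intro H hH hNT
  choose H' u hHu hdeg hH' using fun i => exists_reduced p hper _ (H i) le_rfl
  have heval : ∀ i x, ψ ((H i).eval x) = ψ ((H' i).eval x) := by
    intro i x
    conv_lhs => rw [hHu i]
    rw [eval_add, eval_sub, eval_pow, map_add, hker, add_zero]
  have hNT' : ∃ i, NT p (H' i) := by
    obtain ⟨i, hi⟩ := hNT
    refine ⟨i, fun u' c hu' => hi (u' + u i) c ?_⟩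
    rw [hHu i, hu', add_pow_char]
    ring
  have hNT0 : ∀ i, NT p (H' i) → (H' i).natDegree ≠ 0 := by
    intro i hi h0
    rw [natDegree_eq_zero] at h0
    obtain ⟨c, hc⟩ := h0
    apply hi 0 c
    rw [zero_pow hp.ne_zero, sub_zero, zero_add, hc]
  have hfun : (fun x => (ZMod.stdAddChar (∑ i, ψ ((H i).eval x) i) : ℂ)) =
      fun x => ZMod.stdAddChar (∑ i, ψ ((H' i).eval x) i) := by
    funext x
    congr 1
    exact Finset.sum_congr rfl fun i _ => by rw [heval]
  rw [hfun]
  by_cases h1 : ∀ i, (H' i).natDegree ≤ 1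
  · -- linear polynomials
    choose a b hab using fun i => exists_eq_X_add_C_of_natDegree_le_one (h1 i)
    have ha : a ≠ 0 := by
      rintro rfl
      obtain ⟨i, hi⟩ := hNT'
      apply hNT0 i hi
      rw [hab i]
      simp
    obtain ⟨z, hz⟩ : ∃ z, ∑ i, ψ (a i * z) i ≠ 0 := by
      by_contra hall
      push Not at hall
      exact ha (indep p ψ hsurj hper hker a hall)
    intro ε hε
    refine ⟨{z}, fun U _ hU x₀ => ?_⟩
    have hzU : z ∈ U := hU _ (Finset.mem_singleton_self _)
    have h2 : ∑ x : U, (ZMod.stdAddChar (∑ i, ψ ((H' i).eval (x₀ + x)) i) : ℂ) =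
        ZMod.stdAddChar (∑ i, ψ (a i * z) i) *
          ∑ x : U, ZMod.stdAddChar (∑ i, ψ ((H' i).eval (x₀ + x)) i) := by
      rw [Finset.mul_sum]
      symm
      refine Fintype.sum_equiv (Equiv.addRight (⟨z, hzU⟩ : U)) _ _ fun x => ?_
      rw [← AddChar.map_add_eq_mul, ← Finset.sum_add_distrib]
      congr 1
      refine Finset.sum_congr rfl fun i _ => ?_
      rw [← Pi.add_apply, ← map_add]
      congr 2
      rw [hab i]
      simp only [eval_add, eval_mul, eval_C, eval_X, Equiv.coe_addRight, AddSubgroup.coe_add]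
      ring
    have hne : (ZMod.stdAddChar (∑ i, ψ (a i * z) i) : ℂ) ≠ 1 := by
      rw [← (ZMod.stdAddChar (N := p)).map_zero_eq_one]
      exact fun h => hz (ZMod.injective_stdAddChar h)
    have h3 : ∑ x : U, (ZMod.stdAddChar (∑ i, ψ ((H' i).eval (x₀ + x)) i) : ℂ) = 0 := by
      have h4 : (1 - (ZMod.stdAddChar (∑ i, ψ (a i * z) i) : ℂ)) *
          ∑ x : U, ZMod.stdAddChar (∑ i, ψ ((H' i).eval (x₀ + x)) i) = 0 := by
        rw [sub_mul, one_mul, ← h2, sub_self]
      exact (mul_eq_zero.1 h4).resolve_left (sub_ne_zero.2 hne.symm)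
    rw [h3, norm_zero]
    positivity
  · push Not at h1
    obtain ⟨i₁, hi₁⟩ := h1
    obtain ⟨i₀, -, hi₀⟩ := Finset.exists_max_image Finset.univ (fun i => (H' i).natDegree)
      ⟨i₁, Finset.mem_univ _⟩
    have hm : 2 ≤ (H' i₀).natDegree := by
      have := hi₀ i₁ (Finset.mem_univ _)
      omega
    have hpd : ¬ p ∣ (H' i₀).natDegree := (hH' i₀).resolve_left (by omega)
    obtain ⟨Bad, hBad⟩ := step p (H' i₀) hm hpd
    obtain ⟨s, -, hs⟩ := exists_seq_of_forall_finset_exists (fun _ : K => True)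
      (fun x y => x - y ∉ Bad ∧ y - x ∉ Bad) (fun t _ => by
        obtain ⟨y, hy⟩ := Infinite.exists_notMem_finset
          ((t ×ˢ Bad).image (fun q => q.1 - q.2) ∪ (t ×ˢ Bad).image (fun q => q.1 + q.2))
        rw [Finset.mem_union, not_or] at hy
        refine ⟨y, trivial, fun x hx => ⟨fun h2 => hy.1 ?_, fun h2 => hy.2 ?_⟩⟩
        · exact Finset.mem_image.2 ⟨(x, x - y), Finset.mem_product.2 ⟨hx, h2⟩, by simp⟩
        · exact Finset.mem_image.2 ⟨(x, y - x), Finset.mem_product.2 ⟨hx, h2⟩, by simp⟩)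
    refine vdc _ (fun x => (hnorm _).le) fun N => ⟨fun i => s i, fun i j hij => ?_⟩
    have hb : s i - s j ∉ Bad := by
      rcases lt_or_gt_of_ne (fun h => hij (Fin.ext h) : (i : ℕ) ≠ j) with h | h
      · exact (hs i j h).1
      · exact (hs j i h).2
    obtain ⟨h2, -⟩ := hBad _ hb
    have hn : (H' i₀).natDegree - 1 < n := by
      have := (hdeg i₀).trans (hH i₀)
      omega
    have h4 := (ih _ hn (fun k => taylor (s i - s j) (H' k) - H' k)
      (fun k => (natDegree_diff_le _ _).trans (Nat.sub_le_sub_right (hi₀ k (Finset.mem_univ _)) 1))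
      ⟨i₀, h2⟩).translate (s j)
    refine cast (congrArg Small (funext fun x => ?_)) h4
    rw [← AddChar.map_neg_eq_conj, ← AddChar.map_add_eq_mul]
    congr 1
    rw [← Finset.sum_neg_distrib, ← Finset.sum_add_distrib]
    refine Finset.sum_congr rfl fun k _ => ?_
    rw [← Pi.neg_apply, ← Pi.add_apply, ← map_neg, ← map_add]
    congr 2
    rw [eval_sub, taylor_eval, ← sub_eq_add_neg]
    congr 2
    ring

/-- common zeros of finitely many polynomials -/
theorem exists_zero_multi {σ : Type*} [Fintype σ] (P : σ → K[X])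
    (hP : ∀ (m : σ → ℕ) (u : K[X]) (c : K), ∑ j, m j • P j = u ^ p - u + C c → ψ c = 0) :
    ∃ z : K, ∀ j, ψ ((P j).eval z) = 0 := by
  classical
  have hp : p.Prime := Fact.out
  have : NeZero p := ⟨hp.ne_zero⟩
  by_contra hno
  push Not at hno
  let H : (ι × σ → ZMod p) → ι → K[X] := fun m i => ∑ j, (m (i, j)).val • P j
  let f : (ι × σ → ZMod p) → K → ℂ := fun m x => ZMod.stdAddChar (∑ i, ψ ((H m i).eval x) i)
  have hf : ∀ m x, f m x = ∏ q : ι × σ, ZMod.stdAddChar (m q * ψ ((P q.2).eval x) q.1) := by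
    intro m x
    simp only [f]
    rw [Fintype.prod_prod_type]
    have h1 : ∀ i, ψ ((H m i).eval x) i = ∑ j, m (i, j) * ψ ((P j).eval x) i := by
      intro i
      simp only [H]
      rw [eval_finsetSum, map_sum, Finset.sum_apply]
      refine Finset.sum_congr rfl fun j _ => ?_
      rw [eval_smul, map_nsmul, Pi.smul_apply, nsmul_eq_mul, ZMod.natCast_zmod_val]
    rw [addChar_sum]
    refine Finset.prod_congr rfl fun i _ => ?_
    rw [h1, addChar_sum]
  have hsum : ∀ x, ∑ m, f m x = 0 := by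
    intro x
    have h1 : ∑ m : ι × σ → ZMod p, f m x =
        ∏ q : ι × σ, ∑ a : ZMod p, (ZMod.stdAddChar (a * ψ ((P q.2).eval x) q.1) : ℂ) := by
      rw [Finset.prod_univ_sum, Fintype.piFinset_univ]
      exact Finset.sum_congr rfl fun m _ => hf m x
    rw [h1]
    obtain ⟨j, hj⟩ := hno x
    obtain ⟨i, hi⟩ : ∃ i, ψ ((P j).eval x) i ≠ 0 := by
      by_contra hall
      push Not at hall
      exact hj (funext hall)
    refine Finset.prod_eq_zero (Finset.mem_univ (i, j)) ?_
    rw [AddChar.sum_mulShift _ (ZMod.isPrimitive_stdAddChar p), if_neg hi, Nat.cast_zero]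
  let T : Finset (ι × σ → ZMod p) := Finset.univ.filter fun m => ∃ i, NT p (H m i)
  have hT : ∀ m ∈ T, Small (f m) := by
    intro m hm
    obtain ⟨-, hm⟩ := Finset.mem_filter.1 hm
    exact small_of_NT_multi p ψ hsurj hper hker (∑ i, (H m i).natDegree) (H m)
      (fun i => Finset.single_le_sum (f := fun i => (H m i).natDegree)
        (fun _ _ => Nat.zero_le _) (Finset.mem_univ i)) hm
  have hT' : ∀ m ∉ T, ∀ x, f m x = 1 := by
    intro m hm x
    have h1 : ∀ i, ¬ NT p (H m i) := by
      intro i hi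
      exact hm (Finset.mem_filter.2 ⟨Finset.mem_univ _, i, hi⟩)
    have h2 : ∀ i, ψ ((H m i).eval x) = 0 := by
      intro i
      have h3 := h1 i
      unfold NT at h3
      push Not at h3
      obtain ⟨u, c, huc⟩ := h3
      have h4 := hP _ u c huc
      rw [huc, eval_add, eval_sub, eval_pow, eval_C, map_add, hker, h4, add_zero]
    simp only [f, h2, Pi.zero_apply, Finset.sum_const_zero, AddChar.map_zero_eq_one]
  set q : ℝ := (Fintype.card (ι × σ → ZMod p) : ℝ) with hq
  have hq0 : 0 < q := by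
    rw [hq]
    exact_mod_cast Fintype.card_pos
  choose! S hS using fun (m : ι × σ → ZMod p) (hm : m ∈ T) => hT m hm (1 / (2 * q)) (by positivity)
  let S' : Finset K := T.biUnion S
  let _ := ZMod.algebra K p
  let V := Submodule.span (ZMod p) (S' : Set K)
  have : Module.Finite (ZMod p) V := Module.Finite.span_of_finite _ S'.finite_toSet
  have : Finite V := Module.finite_of_finite (ZMod p)
  let U : AddSubgroup K := V.toAddSubgroup
  have : Finite U := this
  let _ : Fintype U := Fintype.ofFinite U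
  have hU : ∀ m ∈ T, ∀ s ∈ S m, s ∈ U := fun m hm s hs =>
    Submodule.subset_span (Finset.mem_coe.2 (Finset.mem_biUnion.2 ⟨m, hm, hs⟩))
  have h1 : ∑ u : U, ∑ m, f m (0 + u) = 0 := Finset.sum_eq_zero fun u _ => hsum _
  rw [Finset.sum_comm, ← Finset.sum_filter_add_sum_filter_not Finset.univ
    (fun m => ∃ i, NT p (H m i))] at h1
  have h2 : ∑ m ∈ Finset.univ.filter (fun m => ¬ ∃ i, NT p (H m i)), ∑ u : U, f m (0 + u) =
      (((Finset.univ.filter fun m => ¬ ∃ i, NT p (H m i)).card * Fintype.card U : ℕ) : ℂ) := by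
    rw [Finset.sum_congr rfl (g := fun _ => ((Fintype.card U : ℕ) : ℂ)), Finset.sum_const,
      nsmul_eq_mul]
    · push_cast
      ring
    · intro m hm
      rw [Finset.sum_congr rfl (g := fun _ => (1 : ℂ)), Finset.sum_const, Finset.card_univ,
        nsmul_eq_mul, mul_one]
      intro u _
      refine hT' m (fun hmT => ?_) _
      exact (Finset.mem_filter.1 hm).2 (Finset.mem_filter.1 hmT).2
  have h3 : ‖∑ m ∈ T, ∑ u : U, f m (0 + u)‖ ≤ q * (1 / (2 * q) * Fintype.card U) := by
    refine (norm_sum_le _ _).trans ?_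
    refine (Finset.sum_le_sum (g := fun _ => 1 / (2 * q) * (Fintype.card U : ℝ))
      fun m hm => hS m hm U (hU m hm) 0).trans ?_
    rw [Finset.sum_const, nsmul_eq_mul]
    refine mul_le_mul_of_nonneg_right ?_ (by positivity)
    rw [hq]
    exact_mod_cast Finset.card_le_univ _
  have h4 : ‖(((Finset.univ.filter fun m => ¬ ∃ i, NT p (H m i)).card *
      Fintype.card U : ℕ) : ℂ)‖ = ‖∑ m ∈ T, ∑ u : U, f m (0 + u)‖ := by
    rw [h2] at h1
    rw [← norm_neg]
    congr 1
    exact (eq_neg_of_add_eq_zero_left h1).symm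
  rw [← h4, Complex.norm_natCast] at h3
  have h5 : (0 : ℝ) < Fintype.card U := by exact_mod_cast Fintype.card_pos
  have h6 : q * (1 / (2 * q) * (Fintype.card U : ℝ)) = Fintype.card U / 2 := by
    field_simp
  rw [h6] at h3
  have h7 : 1 ≤ (Finset.univ.filter fun m => ¬ ∃ i, NT p (H m i)).card := by
    rw [Nat.one_le_iff_ne_zero, Finset.card_ne_zero]
    refine ⟨0, Finset.mem_filter.2 ⟨Finset.mem_univ _, ?_⟩⟩
    rintro ⟨i, hi⟩
    apply hi 0 0
    simp [H, hp.ne_zero]
  have h8 : (Fintype.card U : ℝ) ≤ (((Finset.univ.filter fun m => ¬ ∃ i, NT p (H m i)).card *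
      Fintype.card U : ℕ) : ℝ) := by
    exact_mod_cast Nat.le_mul_of_pos_left _ h7
  linarith

end Multi

end Pool.MP_f30f9b_al.AS
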