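import Pool.Agent.H.MP_f30f9b_al.ASSmall2
import Pool.Agent.H.MP_f30f9b_al.ASMulti

/-!
# Systems of Kummer and Artin-Schreier equations near infinity
-/

set_option autoImplicit false

namespace Pool.MP_f30f9b_al.AS

open Polynomial

/-- value at a small point -/
theorem eval_of_small' {K F : Type*} [Field K] [AddCommGroup F] (ψ : K →+ F) (f : K[X]) (M : ℕ)
    (hM : f.natDegree ≤ M) (y : K) (h : ∀ k < M, ψ (f.coeff (k + 1) * y ^ (k + 1)) = 0) :
    ψ (f.eval y) = ψ (f.coeff 0) := by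
  rw [eval_eq_sum_range' (Nat.lt_succ_of_le hM), Finset.sum_range_succ', map_add, map_sum,
    Finset.sum_eq_zero, zero_add, pow_zero, mul_one]
  intro k hk
  exact h k (Finset.mem_range.1 hk)

theorem infty_system {K ι : Type*} [Field K] [Infinite K] (p : ℕ) [Fact p.Prime] [CharP K p]
    [Fintype ι] (ψ : K →+ (ι → ZMod p)) (hsurj : Function.Surjective ψ)
    (hper : ∀ x : K, ∃ y : K, y ^ p = x) (hker : ∀ x : K, ψ (x ^ p - x) = 0)
    (hR : ∀ n : ℕ, 1 ≤ n → ∃ R : Finset K, (∀ c ∈ R, c ≠ 0) ∧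
      ∀ x : K, x ≠ 0 → ∃ c ∈ R, ∃ y : K, x = c * y ^ n)
    {σ τ : Type*} [Fintype σ] [Fintype τ] (e : τ → ℕ) (he : ∀ i, 1 ≤ e i) (f : τ → K[X])
    (hf : ∀ i, (f i).Splits) (c₀ : K) (hc₀ : c₀ ≠ 0)
    (hc : ∀ i, ∃ b : K, (f i).leadingCoeff * c₀ ^ (f i).natDegree = b ^ e i)
    (P : σ → K[X]) (A : Finset K) (Q : σ → K → K[X])
    (hP : ∀ (m : σ → ℕ) (u : K[X]) (c : K),
      ∑ j, m j • (P j + C (∑ a ∈ A, (Q j a).coeff 0)) = u ^ p - u + C c → ψ c = 0)
    (X₀ : Finset K) :
    ∃ x : K, x ∉ A ∧ x ∉ X₀ ∧ (∀ i, ∃ y : K, y ^ e i = (f i).eval x) ∧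
      ∀ j, ψ ((P j).eval x + ∑ a ∈ A, (Q j a).eval ((x - a)⁻¹)) = 0 := by
  classical
  have hp : p.Prime := Fact.out
  have : NeZero p := ⟨hp.ne_zero⟩
  obtain ⟨z, hz⟩ := exists_zero_multi p ψ hsurj hper hker
    (fun j => P j + C (∑ a ∈ A, (Q j a).coeff 0)) hP
  -- a common exponent
  let n : ℕ := ∏ i, e i
  have hn : 1 ≤ n := Finset.one_le_prod' fun i _ => he i
  obtain ⟨R, hR0, hR1⟩ := hR n hn
  let M : ℕ := ∑ j, ((P j).natDegree + ∑ a ∈ A, (Q j a).natDegree)
  have hMP : ∀ j, (taylor z (P j)).natDegree ≤ M := by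
    intro j
    rw [natDegree_taylor]
    exact (Nat.le_add_right _ _).trans (Finset.single_le_sum
      (f := fun j => (P j).natDegree + ∑ a ∈ A, (Q j a).natDegree)
      (fun _ _ => Nat.zero_le _) (Finset.mem_univ j))
  have hMQ : ∀ j, ∀ a ∈ A, (Q j a).natDegree ≤ M := by
    intro j a ha
    exact ((Finset.single_le_sum (f := fun a => (Q j a).natDegree) (fun _ _ => Nat.zero_le _)
      ha).trans (Nat.le_add_left _ _)).trans (Finset.single_le_sum
      (f := fun j => (P j).natDegree + ∑ a ∈ A, (Q j a).natDegree)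
      (fun _ _ => Nat.zero_le _) (Finset.mem_univ j))
  let A₁ : Finset K := A ∪ X₀ ∪ Finset.univ.biUnion fun i => (f i).roots.toFinset
  obtain ⟨x', hx', hx'0, ⟨y₀, hy₀⟩, hmul, h1, h2⟩ := exists_small' ψ n hn R hR0 hR1 c₀ hc₀
    (A₁.image fun a => a - z)
    (Finset.univ.biUnion fun j => (Finset.range M).image (fun k => (taylor z (P j)).coeff (k + 1)) ∪
      A.biUnion fun a => (Finset.range M).image fun k => (Q j a).coeff (k + 1)) M
  have hx : ∀ a ∈ A₁, z + x' ≠ a := by
    intro a ha h3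
    exact hx' (Finset.mem_image.2 ⟨a, ha, by rw [← h3]; ring⟩)
  refine ⟨z + x', fun h => hx _ (Finset.mem_union_left _ (Finset.mem_union_left _ h)) rfl,
    fun h => hx _ (Finset.mem_union_left _ (Finset.mem_union_right _ h)) rfl, ?_, ?_⟩
  · intro i
    -- Kummer conditions
    obtain ⟨b, hb⟩ := hc i
    obtain ⟨q, hq⟩ : e i ∣ n := Finset.dvd_prod_of_mem e (Finset.mem_univ i)
    have hroot : ∀ a ∈ (f i).roots, ∃ y : K, z + x' - a = x' * y ^ n := by
      intro a ha
      obtain ⟨y, hy⟩ := hmul (a - z) (Finset.mem_image.2 ⟨a, Finset.mem_union_right _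
        (Finset.mem_biUnion.2 ⟨i, Finset.mem_univ i, Multiset.mem_toFinset.2 ha⟩), rfl⟩)
      exact ⟨y, by rw [← hy]; ring⟩
    have hprod : ∀ s : Multiset K, (∀ a ∈ s, ∃ y : K, z + x' - a = x' * y ^ n) →
        ∃ y : K, (s.map fun a => z + x' - a).prod = x' ^ (Multiset.card s) * y ^ n := by
      intro s
      induction s using Multiset.induction_on with
      | empty => exact fun _ => ⟨1, by simp⟩
      | cons a s ih =>
        intro hs
        obtain ⟨y, hy⟩ := ih fun b hb => hs b (Multiset.mem_cons_of_mem hb)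
        obtain ⟨w, hw⟩ := hs a (Multiset.mem_cons_self a s)
        refine ⟨w * y, ?_⟩
        rw [Multiset.map_cons, Multiset.prod_cons, hy, hw, Multiset.card_cons]
        ring
    obtain ⟨y, hy⟩ := hprod _ hroot
    have hev : (f i).eval (z + x') = (f i).leadingCoeff *
        ((f i).roots.map fun a => z + x' - a).prod := by
      conv_lhs => rw [(hf i).eq_prod_roots]
      rw [eval_mul, eval_C, eval_multiset_prod, Multiset.map_map]
      congr 2
      refine Multiset.map_congr rfl fun a _ => ?_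
      simp
    have hcard : Multiset.card (f i).roots = (f i).natDegree := ((hf i).natDegree_eq_card_roots).symm
    refine ⟨b * (y₀ ^ (f i).natDegree * y) ^ q, ?_⟩
    rw [hev, hy, hcard, hy₀, mul_pow, ← hb, hq]
    ring
  · intro j
    have e1 : ψ ((P j).eval (z + x')) = ψ ((P j).eval z) := by
      have h3 := eval_of_small' ψ (taylor z (P j)) M (hMP j) x' fun k hk => h2 _
        (Finset.mem_biUnion.2 ⟨j, Finset.mem_univ j, Finset.mem_union_left _
          (Finset.mem_image.2 ⟨k, Finset.mem_range.2 hk, rfl⟩)⟩) k hk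
      rw [taylor_eval, taylor_coeff_zero, add_comm] at h3
      exact h3
    have e2 : ∀ a ∈ A, ψ ((Q j a).eval ((z + x' - a)⁻¹)) = ψ ((Q j a).coeff 0) := by
      intro a ha
      refine eval_of_small' ψ (Q j a) M (hMQ j a ha) _ fun k hk => ?_
      have h3 := h1 (a - z) (Finset.mem_image.2 ⟨a, Finset.mem_union_left _
        (Finset.mem_union_left _ ha), rfl⟩) ((Q j a).coeff (k + 1))
        (Finset.mem_biUnion.2 ⟨j, Finset.mem_univ j, Finset.mem_union_right _
          (Finset.mem_biUnion.2 ⟨a, ha, Finset.mem_image.2 ⟨k, Finset.mem_range.2 hk, rfl⟩⟩)⟩) k hk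
      rw [← h3]
      congr 4
      ring
    have h3 := hz j
    rw [eval_add, eval_C] at h3
    rw [map_add, map_sum, e1, Finset.sum_congr rfl e2, ← map_sum, ← map_add, h3]

end Pool.MP_f30f9b_al.AS
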