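import Mathlib

/-!
# Laurent series: orders and leading coefficients
-/

set_option autoImplicit false

namespace Pool.MP_f30f9b_al.AS

open Polynomial

universe v

theorem wt_add_pos {a b : WithTop ℤ} (ha : 0 ≤ a) (hb : 0 < b) : 0 < a + b := by
  induction a using WithTop.recTopCoe with
  | top => simp
  | coe a =>
    induction b using WithTop.recTopCoe with
    | top => simp
    | coe b =>
      norm_cast at ha hb ⊢
      omega

theorem wt_add_neg {a b : WithTop ℤ} (ha : a < 0) (hb : b ≤ 0) : a + b < 0 := by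
  induction a using WithTop.recTopCoe with
  | top => exact absurd ha (by simp)
  | coe a =>
    induction b using WithTop.recTopCoe with
    | top => exact absurd hb (by simp)
    | coe b =>
      norm_cast at ha hb ⊢
      omega

variable {K : Type v} [Field K]

theorem algMap (a : K) : algebraMap K (LaurentSeries K) a = HahnSeries.C a := by
  rw [HahnSeries.algebraMap_apply']
  simp

theorem orderTop_C_nonneg (a : K) : (0 : WithTop ℤ) ≤ (HahnSeries.C a : LaurentSeries K).orderTop :=
  HahnSeries.orderTop_single_le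

theorem pos_iff (φ : LaurentSeries K) : (0 : WithTop ℤ) < φ.orderTop ↔
    ∀ n : ℤ, n ≤ 0 → φ.coeff n = 0 := by
  constructor
  · intro h n hn
    refine HahnSeries.coeff_eq_zero_of_lt_orderTop (lt_of_le_of_lt ?_ h)
    exact_mod_cast hn
  · intro h
    by_contra hlt
    rw [not_lt] at hlt
    have hne : φ ≠ 0 := by
      rintro rfl
      rw [HahnSeries.orderTop_zero] at hlt
      exact absurd hlt (by simp)
    rw [← HahnSeries.order_eq_orderTop_of_ne_zero hne] at hlt
    have h1 : φ.order ≤ 0 := by exact_mod_cast hlt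
    exact hne (HahnSeries.coeff_order_eq_zero.1 (h _ h1))

theorem pos_add {φ φ' : LaurentSeries K} (h : (0 : WithTop ℤ) < φ.orderTop)
    (h' : (0 : WithTop ℤ) < φ'.orderTop) : (0 : WithTop ℤ) < (φ + φ').orderTop := by
  rw [pos_iff] at h h' ⊢
  intro n hn
  rw [HahnSeries.coeff_add, h n hn, h' n hn, add_zero]

theorem pos_sum {α : Type*} (s : Finset α) (φ : α → LaurentSeries K)
    (h : ∀ i ∈ s, (0 : WithTop ℤ) < (φ i).orderTop) :
    (0 : WithTop ℤ) < (∑ i ∈ s, φ i).orderTop := by
  classical
  induction s using Finset.induction_on with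
  | empty =>
    rw [Finset.sum_empty, HahnSeries.orderTop_zero]
    exact WithTop.coe_lt_top 0
  | insert a s ha ih =>
    rw [Finset.sum_insert ha]
    exact pos_add (h a (Finset.mem_insert_self a s))
      (ih fun i hi => h i (Finset.mem_insert_of_mem hi))

theorem pos_nsmul {φ : LaurentSeries K} (h : (0 : WithTop ℤ) < φ.orderTop) (m : ℕ) :
    (0 : WithTop ℤ) < (m • φ).orderTop := by
  rw [pos_iff] at h ⊢
  intro n hn
  rw [HahnSeries.coeff_smul, h n hn, smul_zero]

theorem nonneg_aeval (q : K[X]) (t : LaurentSeries K) (ht : (0 : WithTop ℤ) < t.orderTop) :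
    (0 : WithTop ℤ) ≤ (aeval t q).orderTop := by
  have hadd : ∀ y z : LaurentSeries K, (0 : WithTop ℤ) ≤ y.orderTop → (0 : WithTop ℤ) ≤ z.orderTop →
      (0 : WithTop ℤ) ≤ (y + z).orderTop := fun y z hy hz =>
    (le_min hy hz).trans HahnSeries.min_orderTop_le_orderTop_add
  have hmul : ∀ y z : LaurentSeries K, (0 : WithTop ℤ) ≤ y.orderTop → (0 : WithTop ℤ) ≤ z.orderTop →
      (0 : WithTop ℤ) ≤ (y * z).orderTop := by
    intro y z hy hz
    rw [HahnSeries.orderTop_mul]
    exact add_nonneg hy hz
  have hpow : ∀ n : ℕ, (0 : WithTop ℤ) ≤ (t ^ n).orderTop := by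
    intro n
    induction n with
    | zero =>
      rw [pow_zero, HahnSeries.orderTop_one]
    | succ n ih =>
      rw [pow_succ]
      exact hmul _ _ ih ht.le
  induction q using Polynomial.induction_on' with
  | add q r hq hr =>
    rw [map_add]
    exact hadd _ _ hq hr
  | monomial n a =>
    rw [aeval_monomial, algMap]
    exact hmul _ _ (orderTop_C_nonneg a) (hpow n)

theorem aeval_small (q : K[X]) (t : LaurentSeries K) (ht : (0 : WithTop ℤ) < t.orderTop) :
    ∃ φ : LaurentSeries K, (0 : WithTop ℤ) < φ.orderTop ∧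
      aeval t q = HahnSeries.C (q.coeff 0) + φ := by
  refine ⟨aeval t q.divX * t, ?_, ?_⟩
  · rw [HahnSeries.orderTop_mul]
    exact wt_add_pos (nonneg_aeval _ t ht) ht
  · conv_lhs => rw [← divX_mul_X_add q]
    rw [map_add, map_mul, aeval_X, aeval_C, add_comm, algMap]

/-- a constant which is `w ^ p - w` up to a series of positive order is already of this shape -/
theorem wp_const (p : ℕ) [Fact p.Prime] [CharP K p] (w φ : LaurentSeries K) (c : K)
    (hφ : (0 : WithTop ℤ) < φ.orderTop) (h : w ^ p - w = HahnSeries.C c + φ) :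
    ∃ w₀ : K, w₀ ^ p - w₀ = c := by
  have hp : p.Prime := Fact.out
  rw [pos_iff] at hφ
  by_cases hw : w = 0
  · refine ⟨0, ?_⟩
    rw [hw, zero_pow hp.ne_zero, sub_zero] at h
    have h1 := congrArg (fun y => HahnSeries.coeff y 0) h
    simp only [HahnSeries.coeff_zero, HahnSeries.coeff_add, hφ 0 le_rfl, add_zero,
      HahnSeries.C_apply, HahnSeries.coeff_single_same] at h1
    rw [zero_pow hp.ne_zero, sub_zero]
    exact h1
  by_cases ho : w.order < 0
  · exfalso
    have h1 : (w ^ p).order = p • w.order := HahnSeries.order_pow w p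
    have h2 : p • w.order < w.order := by
      rw [nsmul_eq_mul]
      have : (2 : ℤ) ≤ p := by exact_mod_cast hp.two_le
      nlinarith
    have h3 := congrArg (fun y => HahnSeries.coeff y (p • w.order)) h
    simp only [HahnSeries.coeff_sub, HahnSeries.coeff_add] at h3
    rw [HahnSeries.coeff_eq_zero_of_lt_order h2, sub_zero, hφ _ (h2.trans ho).le, add_zero,
      HahnSeries.C_apply, HahnSeries.coeff_single_of_ne (h2.trans ho).ne] at h3
    rw [← h1] at h3
    exact pow_ne_zero p hw (HahnSeries.coeff_order_eq_zero.1 h3)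
  · rw [not_lt] at ho
    have : CharP (LaurentSeries K) p := charP_of_injective_ringHom
      (HahnSeries.C_injective (Γ := ℤ) (R := K)) p
    have : ExpChar (LaurentSeries K) p := ExpChar.prime hp
    let w' : LaurentSeries K := w - HahnSeries.C (w.coeff 0)
    have hw' : (0 : WithTop ℤ) < w'.orderTop := by
      rw [pos_iff]
      intro n hn
      simp only [w', HahnSeries.coeff_sub, HahnSeries.C_apply]
      rcases hn.lt_or_eq with h1 | h1
      · rw [HahnSeries.coeff_eq_zero_of_lt_order (lt_of_lt_of_le h1 ho),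
          HahnSeries.coeff_single_of_ne h1.ne, sub_zero]
      · rw [h1, HahnSeries.coeff_single_same, sub_self]
    have hw'p : (0 : WithTop ℤ) < (w' ^ p).orderTop := by
      have h1 : ∀ n : ℕ, (0 : WithTop ℤ) < (w' ^ (n + 1)).orderTop := by
        intro n
        induction n with
        | zero => rwa [zero_add, pow_one]
        | succ n ih =>
          rw [pow_succ, HahnSeries.orderTop_mul]
          exact wt_add_pos ih.le hw'
      have h2 := h1 (p - 1)
      rwa [Nat.sub_add_cancel hp.one_le] at h2
    have hsum : w = HahnSeries.C (w.coeff 0) + w' := by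
      simp only [w']
      ring
    refine ⟨w.coeff 0, ?_⟩
    have h1 : (w ^ p - w).coeff 0 = (HahnSeries.C c + φ).coeff 0 := by rw [h]
    rw [HahnSeries.coeff_sub, HahnSeries.coeff_add, hφ 0 le_rfl, add_zero, HahnSeries.C_apply,
      HahnSeries.coeff_single_same] at h1
    have h2 : (w ^ p).coeff 0 = (w.coeff 0) ^ p := by
      conv_lhs => rw [hsum]
      rw [add_pow_char, HahnSeries.coeff_add, (pos_iff _).1 hw'p 0 le_rfl, add_zero, ← map_pow,
        HahnSeries.C_apply, HahnSeries.coeff_single_same]
    rw [h2] at h1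
    exact h1

section Pole

variable (x : LaurentSeries K) (hx : x.orderTop < (0 : WithTop ℤ))

include hx

theorem orderTop_sub_C (a : K) : (x - HahnSeries.C a).orderTop = x.orderTop :=
  HahnSeries.orderTop_sub (lt_of_lt_of_le hx (orderTop_C_nonneg a))

theorem leadingCoeff_sub_C (a : K) : (x - HahnSeries.C a).leadingCoeff = x.leadingCoeff :=
  HahnSeries.leadingCoeff_sub (lt_of_lt_of_le hx (orderTop_C_nonneg a))

theorem sub_C_ne_zero (a : K) : x - HahnSeries.C a ≠ 0 := by
  intro h
  have h1 := orderTop_sub_C x hx a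
  rw [h, HahnSeries.orderTop_zero] at h1
  rw [← h1] at hx
  exact absurd hx (by simp)

theorem pos_inv (a : K) : (0 : WithTop ℤ) < ((x - HahnSeries.C a)⁻¹).orderTop := by
  have h0 := sub_C_ne_zero x hx a
  have h1 : ((x - HahnSeries.C a) * (x - HahnSeries.C a)⁻¹).orderTop = 0 := by
    rw [mul_inv_cancel₀ h0, HahnSeries.orderTop_one]
  rw [HahnSeries.orderTop_mul, orderTop_sub_C x hx a] at h1
  by_contra h2
  rw [not_lt] at h2
  have h3 : x.orderTop + ((x - HahnSeries.C a)⁻¹).orderTop < 0 :=
    wt_add_neg hx h2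
  rw [h1] at h3
  exact lt_irrefl _ h3

theorem leadingCoeff_aeval (f : K[X]) (hf : f.Splits) :
    (aeval x f).leadingCoeff = f.leadingCoeff * x.leadingCoeff ^ f.natDegree := by
  have h1 : ∀ s : Multiset K, (aeval x ((s.map fun a => X - C a).prod)).leadingCoeff =
      x.leadingCoeff ^ (Multiset.card s) := by
    intro s
    induction s using Multiset.induction_on with
    | empty => simp
    | cons a s ih =>
      rw [Multiset.map_cons, Multiset.prod_cons, map_mul, HahnSeries.leadingCoeff_mul, ih,
        Multiset.card_cons, pow_succ', map_sub, aeval_X, aeval_C, algMap,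
        leadingCoeff_sub_C x hx a]
  conv_lhs => rw [hf.eq_prod_roots]
  rw [map_mul, HahnSeries.leadingCoeff_mul, h1, aeval_C, hf.natDegree_eq_card_roots, algMap]
  congr 1
  exact HahnSeries.leadingCoeff_of_single

end Pole

/-- the substitution `x = x₀ + 1 / s` -/
theorem flip_any (f : K[X]) (M : ℕ) (hM : f.natDegree ≤ M) (x₀ : K) :
    ∃ f' : K[X], ∀ (E : Type v) [Field E] [Algebra K E] (s : E), s ≠ 0 →
      aeval s f' = s ^ M * aeval (algebraMap K E x₀ + s⁻¹) f := by
  refine ⟨∑ k ∈ Finset.range (M + 1), C ((taylor x₀ f).coeff k) * X ^ (M - k),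
    fun E _ _ s hs => ?_⟩
  have h1 : aeval (algebraMap K E x₀ + s⁻¹) f = aeval s⁻¹ (taylor x₀ f) := by
    rw [taylor_apply, aeval_comp, map_add, aeval_X, aeval_C, add_comm]
  have h3 : aeval s⁻¹ (taylor x₀ f) =
      ∑ k ∈ Finset.range (M + 1), (taylor x₀ f).coeff k • s⁻¹ ^ k :=
    aeval_eq_sum_range' (by rw [natDegree_taylor]; omega) _
  rw [h1, h3, map_sum, Finset.mul_sum]
  refine Finset.sum_congr rfl fun k hk => ?_
  rw [map_mul, aeval_C, map_pow, aeval_X, Algebra.smul_def]
  have h2 : s ^ M = s ^ (M - k) * s ^ k := by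
    rw [← pow_add]
    congr 1
    have := Finset.mem_range.1 hk
    omega
  rw [h2, inv_pow]
  field_simp

theorem flip_splits (f : K[X]) (hf0 : f ≠ 0) (hf : f.Splits) (M : ℕ) (hM : f.natDegree ≤ M)
    (x₀ : K) :
    ∃ f' : K[X], f' ≠ 0 ∧ f'.Splits ∧ ∀ (E : Type v) [Field E] [Algebra K E] (s : E), s ≠ 0 →
      aeval s f' = s ^ M * aeval (algebraMap K E x₀ + s⁻¹) f := by
  have hlin : ∀ b : K, (C b * X + 1 : K[X]) ≠ 0 := by
    intro b h
    have := congrArg (fun q => q.coeff 0) h
    simp at this
  have hlin' : ∀ b : K, (C b * X + 1 : K[X]).natDegree ≤ 1 := by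
    intro b
    compute_degree
  refine ⟨C f.leadingCoeff * (f.roots.map fun a => C (x₀ - a) * X + 1).prod *
    X ^ (M - f.natDegree), ?_, ?_, fun E _ _ s hs => ?_⟩
  · refine mul_ne_zero (mul_ne_zero (C_ne_zero.2 (leadingCoeff_ne_zero.2 hf0)) ?_)
      (pow_ne_zero _ X_ne_zero)
    refine Multiset.prod_ne_zero fun h => ?_
    obtain ⟨a, -, ha⟩ := Multiset.mem_map.1 h
    exact hlin _ ha
  · refine ((Splits.C _).mul ?_).mul (Splits.X_pow _)
    refine Splits.multisetProd ?_
    intro q hq
    obtain ⟨a, -, rfl⟩ := Multiset.mem_map.1 hq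
    exact Splits.of_natDegree_le_one (hlin' _)
  · have h1 : ∀ R : Multiset K, s ^ (Multiset.card R) *
        aeval (algebraMap K E x₀ + s⁻¹) ((R.map fun a => X - C a).prod) =
        aeval s ((R.map fun a => C (x₀ - a) * X + 1).prod) := by
      intro R
      induction R using Multiset.induction_on with
      | empty => simp
      | cons a R ih =>
        rw [Multiset.map_cons, Multiset.map_cons, Multiset.prod_cons, Multiset.prod_cons, map_mul,
          map_mul, ← ih, Multiset.card_cons, pow_succ]
        simp only [map_sub, map_add, map_mul, aeval_X, aeval_C, map_one]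
        field_simp
        ring
    conv_rhs => rw [hf.eq_prod_roots]
    rw [map_mul, map_mul, map_mul, aeval_C, aeval_C, map_pow, aeval_X, ← h1,
      ← hf.natDegree_eq_card_roots]
    have h2 : s ^ M = s ^ (M - f.natDegree) * s ^ f.natDegree := by
      rw [← pow_add]
      congr 1
      omega
    rw [h2]
    ring

end Pool.MP_f30f9b_al.AS
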