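import Pool.Agent.H.MP_f30f9b_al.ASFrac
import Pool.Agent.H.MP_f30f9b_al.ASInf
import Pool.Agent.H.MP_f30f9b_al.ASLaurent

/-!
# Systems of Kummer and Artin-Schreier equations with a point over the Laurent series
-/

set_option autoImplicit false

namespace Pool.MP_f30f9b_al.AS

open Polynomial

universe v

theorem leadingCoeff_pow' {K : Type*} [Field K] (x : LaurentSeries K) (n : ℕ) :
    (x ^ n).leadingCoeff = x.leadingCoeff ^ n := by
  induction n with
  | zero => simp
  | succ n ih => rw [pow_succ, pow_succ, HahnSeries.leadingCoeff_mul, ih]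

/-- partial fractions with a common set of poles -/
theorem pf' {K : Type v} [Field K] (N D : K[X]) (hD : D ≠ 0) (hs : D.Splits) (A : Finset K)
    (hA : ∀ a, D.IsRoot a → a ∈ A) :
    ∃ (P : K[X]) (Q : K → K[X]), ∀ (E : Type v) [Field E] (φ : K[X] →+* E),
      (∀ a ∈ A, φ (X - C a) ≠ 0) → φ N / φ D = φ P +
        ∑ a ∈ A, (Q a).eval₂ (φ.comp C) ((φ (X - C a))⁻¹) := by
  classical
  have hDp : D = C D.leadingCoeff * ∏ a ∈ A, (X - C a) ^ D.roots.count a := by
    conv_lhs => rw [hs.eq_prod_roots]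
    rw [Finset.prod_multiset_map_count]
    congr 1
    refine Finset.prod_subset ?_ ?_
    · intro a ha
      rw [Multiset.mem_toFinset, mem_roots hD] at ha
      exact hA a ha
    · intro a _ ha
      rw [Multiset.mem_toFinset] at ha
      rw [Multiset.count_eq_zero_of_notMem ha, pow_zero]
  have hlc : D.leadingCoeff ≠ 0 := leadingCoeff_ne_zero.2 hD
  obtain ⟨P, Q, hPQ⟩ := pf (C (D.leadingCoeff⁻¹) * N) A fun a => D.roots.count a
  refine ⟨P, Q, fun E _ φ hφ => ?_⟩
  rw [← hPQ E φ hφ, map_mul]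
  conv_lhs => rw [hDp]
  rw [map_mul, map_prod, Finset.prod_congr rfl fun a _ => map_pow φ _ _]
  have h1 : φ (C D.leadingCoeff) * φ (C D.leadingCoeff⁻¹) = 1 := by
    rw [← map_mul, ← C_mul, mul_inv_cancel₀ hlc, C_1, map_one]
  have h2 : φ (C D.leadingCoeff⁻¹) = (φ (C D.leadingCoeff))⁻¹ :=
    eq_inv_of_mul_eq_one_right h1
  rw [h2, inv_mul_eq_div, div_div]

section

variable {K : Type v} {ι : Type*} [Field K] [Infinite K] (p : ℕ) [Fact p.Prime] [CharP K p]
    [Fintype ι] (ψ : K →+ (ι → ZMod p)) (hsurj : Function.Surjective ψ)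
    (hper : ∀ x : K, ∃ y : K, y ^ p = x) (hker : ∀ x : K, ψ (x ^ p - x) = 0)
    (hR : ∀ n : ℕ, 1 ≤ n → ∃ R : Finset K, (∀ c ∈ R, c ≠ 0) ∧
      ∀ x : K, x ≠ 0 → ∃ c ∈ R, ∃ y : K, x = c * y ^ n)
    {σ τ : Type*} [Fintype σ] [Fintype τ]

include hsurj hper hker hR

theorem sys_infty (e : τ → ℕ) (he : ∀ i, 1 ≤ e i) (f : τ → K[X])
    (hf : ∀ i, (f i).Splits) (N D : σ → K[X]) (hD0 : ∀ j, D j ≠ 0) (hD : ∀ j, (D j).Splits)
    (x : LaurentSeries K) (hx : x.orderTop < (0 : WithTop ℤ))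
    (hy : ∀ i, ∃ y : LaurentSeries K, y ^ e i = aeval x (f i))
    (hz : ∀ j, ∃ z : LaurentSeries K, z ^ p - z = aeval x (N j) / aeval x (D j))
    (X₀ : Finset K) :
    ∃ x' : K, x' ∉ X₀ ∧ (∀ i, ∃ y : K, y ^ e i = (f i).eval x') ∧
      ∀ j, (D j).eval x' ≠ 0 ∧ ψ ((N j).eval x' / (D j).eval x') = 0 := by
  classical
  have hp : p.Prime := Fact.out
  let A : Finset K := Finset.univ.biUnion fun j => (D j).roots.toFinset
  have hA : ∀ j a, (D j).IsRoot a → a ∈ A := by
    intro j a ha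
    refine Finset.mem_biUnion.2 ⟨j, Finset.mem_univ j, ?_⟩
    rw [Multiset.mem_toFinset, mem_roots (hD0 j)]
    exact ha
  choose P Q hPQ using fun j => pf' (N j) (D j) (hD0 j) (hD j) A (hA j)
  have hx0 : x ≠ 0 := by
    rintro rfl
    rw [HahnSeries.orderTop_zero] at hx
    exact absurd hx (by simp)
  have hchar : CharP (LaurentSeries K) p := charP_of_injective_ringHom
    (HahnSeries.C_injective (Γ := ℤ) (R := K)) p
  have hexp : ExpChar (LaurentSeries K) p := ExpChar.prime hp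
  -- the decomposition of the right-hand sides
  have hdec : ∀ j, ∃ φ : LaurentSeries K, (0 : WithTop ℤ) < φ.orderTop ∧
      aeval x (N j) / aeval x (D j) =
        aeval x (P j + C (∑ a ∈ A, (Q j a).coeff 0)) + φ := by
    intro j
    have h1 := hPQ j (LaurentSeries K) (aeval x).toRingHom (by
      intro a _
      change aeval x (X - C a) ≠ 0
      rw [map_sub, aeval_X, aeval_C, algMap]
      exact sub_C_ne_zero x hx a)
    have h2 : ∀ a ∈ A, ∃ φ : LaurentSeries K, (0 : WithTop ℤ) < φ.orderTop ∧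
        (Q j a).eval₂ ((aeval x).toRingHom.comp C) (((aeval x).toRingHom (X - C a))⁻¹) =
          HahnSeries.C ((Q j a).coeff 0) + φ := by
      intro a _
      obtain ⟨φ, h3, h4⟩ := aeval_small (Q j a) ((x - HahnSeries.C a)⁻¹) (pos_inv x hx a)
      refine ⟨φ, h3, ?_⟩
      rw [← h4, aeval_def]
      have h5 : ((aeval x).toRingHom.comp C : K →+* LaurentSeries K) =
          algebraMap K (LaurentSeries K) := by
        ext1 b
        exact aeval_C x b
      have h6 : (aeval x).toRingHom (X - C a) = x - HahnSeries.C a := by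
        change aeval x (X - C a) = _
        rw [map_sub, aeval_X, aeval_C, algMap]
      rw [h5, h6]
    choose! φ hφ1 hφ2 using h2
    refine ⟨∑ a ∈ A, φ a, pos_sum A φ hφ1, ?_⟩
    change aeval x (N j) / aeval x (D j) = aeval x (P j) + _ at h1
    rw [h1, Finset.sum_congr rfl hφ2, Finset.sum_add_distrib, map_add, aeval_C, algMap, map_sum]
    ring
  choose φ hφ1 hφ2 using hdec
  choose z hz using hz
  -- the hypothesis on the polynomial parts
  have hP : ∀ (m : σ → ℕ) (u : K[X]) (c : K),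
      ∑ j, m j • (P j + C (∑ a ∈ A, (Q j a).coeff 0)) = u ^ p - u + C c → ψ c = 0 := by
    intro m u c h
    have h1 : ∀ j, (m j • z j) ^ p - m j • z j = m j • (z j ^ p - z j) := by
      intro j
      have h2 : (m j • z j) ^ p = m j • z j ^ p := by
        have := map_nsmul (frobenius (LaurentSeries K) p) (m j) (z j)
        simpa only [frobenius_def] using this
      rw [h2, smul_sub]
    have h3 : (∑ j, m j • z j) ^ p - ∑ j, m j • z j = ∑ j, m j • (z j ^ p - z j) := by
      rw [sum_pow_char p, ← Finset.sum_sub_distrib]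
      exact Finset.sum_congr rfl fun j _ => h1 j
    have h4 : ∑ j, m j • (z j ^ p - z j) =
        aeval x (∑ j, m j • (P j + C (∑ a ∈ A, (Q j a).coeff 0))) + ∑ j, m j • φ j := by
      rw [map_sum, ← Finset.sum_add_distrib]
      refine Finset.sum_congr rfl fun j _ => ?_
      rw [hz, hφ2, smul_add, map_nsmul]
    rw [h, map_add, map_sub, map_pow, aeval_C, algMap] at h4
    obtain ⟨w₀, hw₀⟩ := wp_const p (∑ j, m j • z j - aeval x u) (∑ j, m j • φ j) c
      (pos_sum _ _ fun j _ => pos_nsmul (hφ1 j) _) (by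
        rw [sub_pow_char, ← sub_eq_zero]
        have h5 := h3.trans h4
        rw [← sub_eq_zero] at h5
        rw [← h5]
        ring)
    rw [← hw₀]
    exact hker w₀
  have hc : ∀ i, ∃ b : K, (f i).leadingCoeff * x.leadingCoeff ^ (f i).natDegree = b ^ e i := by
    intro i
    obtain ⟨y, hy⟩ := hy i
    refine ⟨y.leadingCoeff, ?_⟩
    rw [← leadingCoeff_aeval x hx (f i) (hf i), ← hy, leadingCoeff_pow']
  obtain ⟨x', hxA, hxX, h1, h2⟩ := infty_system p ψ hsurj hper hker hR e he f hf x.leadingCoeff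
    (HahnSeries.leadingCoeff_ne_zero.2 hx0) hc P A Q hP X₀
  refine ⟨x', hxX, h1, fun j => ⟨fun h0 => hxA (hA j x' h0), ?_⟩⟩
  rw [← h2 j]
  congr 1
  have hφ : ∀ a ∈ A, evalRingHom x' (X - C a) ≠ 0 := by
    intro a ha h1
    apply hxA
    simp only [coe_evalRingHom, eval_sub, eval_X, eval_C] at h1
    rw [sub_eq_zero.1 h1]
    exact ha
  have h3 := hPQ j K (evalRingHom x') hφ
  rw [coe_evalRingHom] at h3
  rw [h3]
  congr 1
  refine Finset.sum_congr rfl fun a _ => ?_
  have h4 : (evalRingHom x').comp C = RingHom.id K := by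
    ext y
    simp
  rw [h4, eval_sub, eval_X, eval_C]
  rfl

theorem sys_any (e : τ → ℕ) (he : ∀ i, 1 ≤ e i) (f : τ → K[X]) (hf0 : ∀ i, f i ≠ 0)
    (hf : ∀ i, (f i).Splits) (N D : σ → K[X]) (hD0 : ∀ j, D j ≠ 0) (hD : ∀ j, (D j).Splits)
    (x : LaurentSeries K) (hx : x ∉ (algebraMap K (LaurentSeries K)).range)
    (hy : ∀ i, ∃ y : LaurentSeries K, y ^ e i = aeval x (f i))
    (hz : ∀ j, ∃ z : LaurentSeries K, z ^ p - z = aeval x (N j) / aeval x (D j))
    (X₀ : Finset K) :
    ∃ x' : K, x' ∉ X₀ ∧ (∀ i, ∃ y : K, y ^ e i = (f i).eval x') ∧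
      ∀ j, (D j).eval x' ≠ 0 ∧ ψ ((N j).eval x' / (D j).eval x') = 0 := by
  classical
  by_cases hx' : x.orderTop < (0 : WithTop ℤ)
  · exact sys_infty p ψ hsurj hper hker hR e he f hf N D hD0 hD x hx' hy hz X₀
  rw [not_lt] at hx'
  let x₀ : K := x.coeff 0
  let t : LaurentSeries K := x - HahnSeries.C x₀
  have ht0 : t ≠ 0 := by
    intro h
    apply hx
    refine ⟨x₀, ?_⟩
    rw [algMap]
    exact (sub_eq_zero.1 h).symm
  have ht : (0 : WithTop ℤ) < t.orderTop := by
    rw [pos_iff]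
    intro n hn
    simp only [t, HahnSeries.coeff_sub, HahnSeries.C_apply]
    rcases hn.lt_or_eq with h1 | h1
    · have h2 : ((n : ℤ) : WithTop ℤ) < x.orderTop :=
        lt_of_lt_of_le (by exact_mod_cast h1) hx'
      rw [HahnSeries.coeff_eq_zero_of_lt_orderTop h2, HahnSeries.coeff_single_of_ne h1.ne,
        sub_zero]
    · rw [h1, HahnSeries.coeff_single_same, sub_self]
  let s : LaurentSeries K := t⁻¹
  have hs0 : s ≠ 0 := inv_ne_zero ht0
  have hs : s.orderTop < (0 : WithTop ℤ) := by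
    have h1 : (s * t).orderTop = 0 := by
      simp only [s]
      rw [inv_mul_cancel₀ ht0, HahnSeries.orderTop_one]
    rw [HahnSeries.orderTop_mul] at h1
    by_contra h2
    rw [not_lt] at h2
    have h3 := wt_add_pos h2 ht
    rw [h1] at h3
    exact lt_irrefl _ h3
  have hxs : x = algebraMap K (LaurentSeries K) x₀ + s⁻¹ := by
    simp only [s, t]
    rw [inv_inv, algMap]
    ring
  choose f' hf'0 hf' hff' using fun i => flip_splits (f i) (hf0 i) (hf i)
    (e i * (f i).natDegree) (Nat.le_mul_of_pos_left _ (he i)) x₀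
  choose N' hNN' using fun j => flip_any (N j) (max (N j).natDegree (D j).natDegree)
    (le_max_left _ _) x₀
  choose D' hD'0 hD' hDD' using fun j => flip_splits (D j) (hD0 j) (hD j)
    (max (N j).natDegree (D j).natDegree) (le_max_right _ _) x₀
  have hval : ∀ (E : Type v) [Field E] [Algebra K E] (s : E), s ≠ 0 → ∀ j,
      aeval s (N' j) / aeval s (D' j) =
        aeval (algebraMap K E x₀ + s⁻¹) (N j) / aeval (algebraMap K E x₀ + s⁻¹) (D j) := by
    intro E _ _ s hs j
    rw [hNN' j E s hs, hDD' j E s hs, mul_div_mul_left _ _ (pow_ne_zero _ hs)]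
  obtain ⟨s', hs'X, h1, h2⟩ := sys_infty p ψ hsurj hper hker hR e he f' hf' N' D' hD'0 hD' s hs
    (fun i => by
      obtain ⟨y, hy⟩ := hy i
      refine ⟨s ^ (f i).natDegree * y, ?_⟩
      rw [hff' i (LaurentSeries K) s hs0, ← hxs, mul_pow, hy, ← pow_mul, mul_comm (e i)])
    (fun j => by
      obtain ⟨z, hz⟩ := hz j
      refine ⟨z, ?_⟩
      rw [hval (LaurentSeries K) s hs0 j, ← hxs, hz])
    (insert 0 (X₀.image fun x => (x - x₀)⁻¹))
  have hs'0 : s' ≠ 0 := by
    rintro rfl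
    exact hs'X (Finset.mem_insert_self _ _)
  refine ⟨x₀ + s'⁻¹, ?_, fun i => ?_, fun j => ?_⟩
  · intro h
    apply hs'X
    refine Finset.mem_insert_of_mem (Finset.mem_image.2 ⟨_, h, ?_⟩)
    rw [add_sub_cancel_left, inv_inv]
  · obtain ⟨y, hy⟩ := h1 i
    have h3 := hff' i K s' hs'0
    rw [coe_aeval_eq_eval, coe_aeval_eq_eval, Algebra.algebraMap_self, RingHom.id_apply,
      ← hy] at h3
    refine ⟨y / s' ^ (f i).natDegree, ?_⟩
    rw [div_pow, h3, ← pow_mul, mul_comm (e i), mul_div_assoc, mul_comm]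
    exact div_mul_cancel₀ _ (pow_ne_zero _ hs'0)
  · obtain ⟨h3, h4⟩ := h2 j
    have h5 := hDD' j K s' hs'0
    have h6 := hval K s' hs'0 j
    simp only [coe_aeval_eq_eval, Algebra.algebraMap_self, RingHom.id_apply] at h5 h6
    refine ⟨fun h0 => h3 ?_, ?_⟩
    · rw [h5, h0, mul_zero]
    · rw [← h6]
      exact h4

end

end Pool.MP_f30f9b_al.AS
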