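import Mathlib

/-!
# Towers of additive equations over the affine line (Chevalley-Warning)
-/

set_option autoImplicit false

namespace Pool.MP_f30f9b_al.AS

open MvPolynomial

/-- degree of a composite -/
theorem totalDegree_aeval_le' {R σ τ : Type*} [CommRing R] (V : τ → MvPolynomial σ R) (D : ℕ)
    (hV : ∀ j, (V j).totalDegree ≤ D) (g : MvPolynomial τ R) :
    (aeval V g).totalDegree ≤ g.totalDegree * D := by
  classical
  rw [aeval_def, eval₂_eq]
  refine (totalDegree_finsetSum _ _).trans (Finset.sup_le fun d hd => ?_)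
  refine (totalDegree_mul _ _).trans ?_
  rw [algebraMap_eq, totalDegree_C, zero_add]
  refine (totalDegree_finsetProd _ _).trans ?_
  calc ∑ i ∈ d.support, (V i ^ d i).totalDegree ≤ ∑ i ∈ d.support, d i * D :=
        Finset.sum_le_sum fun i _ => (totalDegree_pow _ _).trans (Nat.mul_le_mul_left _ (hV i))
    _ = (d.sum fun _ e => e) * D := by rw [Finsupp.sum, Finset.sum_mul]
    _ ≤ g.totalDegree * D := Nat.mul_le_mul_right _ (le_totalDegree hd)

section

variable {K : Type*} [Field K] (p : ℕ) [Fact p.Prime] [CharP K p]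

/-- the embedding of the prime field -/
noncomputable abbrev cst : ZMod p →+* K := ZMod.castHom (dvd_refl p) K

theorem map_cst_mul (L : K →+ K) (m : ZMod p) (x : K) :
    L (cst p m * x) = cst p m * L x := by
  have h : (cst p m : K) = (m.val : K) := by
    rw [ZMod.castHom_apply, ZMod.natCast_val]
  rw [h, ← nsmul_eq_mul, ← nsmul_eq_mul, map_nsmul]

theorem step_poly {σ : Type*} (L : K →+ K) (S : Finset K)
    (hS : ∀ x : K, ∃ s ∈ S, ∃ y : K, x = s + L y) (G : MvPolynomial σ K) (y₀ : K)
    (hy₀ : L y₀ = eval 0 G) :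
    ∃ (Y : MvPolynomial σ K) (q : S → MvPolynomial σ (ZMod p)),
      eval 0 Y = y₀ ∧ Y.totalDegree ≤ G.totalDegree ∧
      (∀ s, (q s).totalDegree ≤ G.totalDegree ∧ eval 0 (q s) = 0) ∧
      ∀ n : σ → ZMod p, (∀ s, eval n (q s) = 0) →
        L (eval (fun i => cst p (n i)) Y) = eval (fun i => cst p (n i)) G := by
  classical
  choose s hs w hw using hS
  let T := G.support.erase 0
  have hT : ∀ α ∈ T, α ≠ 0 ∧ α ∈ G.support := fun α hα => Finset.mem_erase.1 hα
  have hprod0 : ∀ α : σ →₀ ℕ, α ≠ 0 → (α.prod fun i e => (0 : K) ^ e) = 0 := by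
    intro α hα
    obtain ⟨i, hi⟩ := Finsupp.ne_iff.1 hα
    rw [Finsupp.coe_zero, Pi.zero_apply] at hi
    exact Finset.prod_eq_zero (Finsupp.mem_support_iff.2 hi) (zero_pow hi)
  have hprod0' : ∀ α : σ →₀ ℕ, α ≠ 0 → (α.prod fun i e => (0 : ZMod p) ^ e) = 0 := by
    intro α hα
    obtain ⟨i, hi⟩ := Finsupp.ne_iff.1 hα
    rw [Finsupp.coe_zero, Pi.zero_apply] at hi
    exact Finset.prod_eq_zero (Finsupp.mem_support_iff.2 hi) (zero_pow hi)
  refine ⟨C y₀ + ∑ α ∈ T, monomial α (w (G.coeff α)),
    fun t => ∑ α ∈ T.filter (fun α => s (G.coeff α) = t), monomial α 1, ?_, ?_, fun t => ⟨?_, ?_⟩,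
    fun n hn => ?_⟩
  · rw [map_add, eval_C, map_sum, Finset.sum_eq_zero, add_zero]
    intro α hα
    rw [eval_monomial]
    have h1 := hprod0 α (hT α hα).1
    simp only [Pi.zero_apply]
    rw [h1, mul_zero]
  · refine (totalDegree_add _ _).trans (max_le ?_ ?_)
    · rw [totalDegree_C]
      exact Nat.zero_le _
    · refine (totalDegree_finsetSum _ _).trans (Finset.sup_le fun α hα => ?_)
      exact (totalDegree_monomial_le _ _).trans (le_totalDegree (hT α hα).2)
  · refine (totalDegree_finsetSum _ _).trans (Finset.sup_le fun α hα => ?_)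
    exact (totalDegree_monomial_le _ _).trans
      (le_totalDegree (hT α (Finset.mem_filter.1 hα).1).2)
  · rw [map_sum, Finset.sum_eq_zero]
    intro α hα
    rw [eval_monomial]
    have h1 := hprod0' α (hT α (Finset.mem_filter.1 hα).1).1
    simp only [Pi.zero_apply]
    rw [h1, mul_zero]
  · let m : (σ →₀ ℕ) → ZMod p := fun α => α.prod fun i e => n i ^ e
    have hm : ∀ α, (α.prod fun i e => cst p (n i) ^ e) = (cst p (m α) : K) := by
      intro α
      simp only [m, Finsupp.prod, map_prod, map_pow]
    have hG : eval (fun i => cst p (n i)) G =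
        eval 0 G + ∑ α ∈ T, G.coeff α * cst p (m α) := by
      have h1 : eval (fun i => (cst p (n i) : K)) G =
          ∑ α ∈ insert 0 T, G.coeff α * cst p (m α) := by
        conv_lhs => rw [G.as_sum, map_sum]
        rw [Finset.sum_congr rfl fun α _ => by rw [eval_monomial, hm α]]
        refine Finset.sum_subset ?_ ?_
        · intro α hα
          by_cases h0 : α = 0
          · rw [h0]
            exact Finset.mem_insert_self _ _
          · exact Finset.mem_insert_of_mem (Finset.mem_erase.2 ⟨h0, hα⟩)
        · intro α _ hα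
          rw [notMem_support_iff.1 hα, zero_mul]
      rw [h1, Finset.sum_insert (Finset.notMem_erase _ _)]
      congr 1
      have h2 : m 0 = 1 := by simp [m]
      rw [h2, map_one, mul_one, eval_zero, constantCoeff_eq]
    have hY : L (eval (fun i => cst p (n i)) (C y₀ + ∑ α ∈ T, monomial α (w (G.coeff α)))) =
        eval 0 G + ∑ α ∈ T, (G.coeff α - s (G.coeff α)) * cst p (m α) := by
      rw [map_add, eval_C, map_add, hy₀, map_sum, map_sum]
      congr 1
      refine Finset.sum_congr rfl fun α _ => ?_
      rw [eval_monomial, hm, mul_comm, map_cst_mul, mul_comm]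
      congr 1
      have := hw (G.coeff α)
      rw [eq_sub_iff_add_eq, add_comm]
      exact this.symm
    have hz : ∑ α ∈ T, s (G.coeff α) * (cst p (m α) : K) = 0 := by
      rw [← Finset.sum_fiberwise_of_maps_to (s := T) (t := S) (g := fun α => s (G.coeff α))
        fun α _ => hs _]
      refine Finset.sum_eq_zero fun t ht => ?_
      have h1 := hn ⟨t, ht⟩
      rw [map_sum] at h1
      have h2 : ∑ α ∈ T.filter (fun α => s (G.coeff α) = t), s (G.coeff α) * (cst p (m α) : K) =
          t * cst p (∑ α ∈ T.filter (fun α => s (G.coeff α) = t), m α) := by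
        rw [map_sum, Finset.mul_sum]
        refine Finset.sum_congr rfl fun α hα => ?_
        rw [(Finset.mem_filter.1 hα).2]
      rw [h2]
      have h3 : ∑ α ∈ T.filter (fun α => s (G.coeff α) = t), m α = 0 := by
        rw [← h1]
        refine Finset.sum_congr rfl fun α _ => ?_
        rw [eval_monomial, one_mul]
      rw [h3, map_zero, mul_zero]
    rw [hY, hG]
    congr 1
    rw [← sub_eq_zero, ← Finset.sum_sub_distrib, ← neg_eq_zero, ← hz, ← Finset.sum_neg_distrib]
    refine Finset.sum_congr rfl fun α _ => ?_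
    ring

theorem tower_polys {k : ℕ} (L : Fin k → (K →+ K)) (S : Finset K)
    (hS : ∀ (i : Fin k) (x : K), ∃ s ∈ S, ∃ y : K, x = s + L i y)
    (g : Fin k → MvPolynomial (Fin (k + 1)) K) (hg : ∀ i, ∀ j ∈ (g i).vars, j ≤ i.castSucc)
    (v₀ : Fin (k + 1) → K) (hv₀ : ∀ i, L i (v₀ i.succ) = eval v₀ (g i)) :
    ∃ D : ℕ, ∀ (N : ℕ) (b : Fin N → K), ∃ (q : Fin k × S → MvPolynomial (Fin N) (ZMod p))
      (V : Fin (k + 1) → MvPolynomial (Fin N) K),
      (∀ t, (q t).totalDegree ≤ D ∧ eval 0 (q t) = 0) ∧
      V 0 = C (v₀ 0) + ∑ i, C (b i) * X i ∧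
      ∀ n : Fin N → ZMod p, (∀ t, eval n (q t) = 0) → ∀ i : Fin k,
        L i (eval (fun r => cst p (n r)) (V i.succ)) =
          eval (fun j => eval (fun r => cst p (n r)) (V j)) (g i) := by
  classical
  have key : ∀ m : ℕ, m ≤ k → ∃ D : ℕ, ∀ (N : ℕ) (b : Fin N → K),
      ∃ (q : Fin k × S → MvPolynomial (Fin N) (ZMod p))
      (V : Fin (k + 1) → MvPolynomial (Fin N) K),
      (∀ j, (V j).totalDegree ≤ D ∧ eval 0 (V j) = v₀ j) ∧
      (∀ t, (q t).totalDegree ≤ D ∧ eval 0 (q t) = 0) ∧
      V 0 = C (v₀ 0) + ∑ i, C (b i) * X i ∧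
      ∀ n : Fin N → ZMod p, (∀ t, (t.1 : ℕ) < m → eval n (q t) = 0) → ∀ i : Fin k, (i : ℕ) < m →
        L i (eval (fun r => cst p (n r)) (V i.succ)) =
          eval (fun j => eval (fun r => cst p (n r)) (V j)) (g i) := by
    intro m
    induction m with
    | zero =>
      intro _
      refine ⟨1, fun N b => ⟨fun _ => 0, fun j => if j = 0 then
        C (v₀ 0) + ∑ i, C (b i) * X i else C (v₀ j), fun j => ⟨?_, ?_⟩, fun t => ⟨?_, ?_⟩, ?_, ?_⟩⟩
      · dsimp only
        split_ifs
        · refine (totalDegree_add _ _).trans (max_le ?_ ?_)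
          · rw [totalDegree_C]
            exact Nat.zero_le _
          · refine (totalDegree_finsetSum _ _).trans (Finset.sup_le fun i _ => ?_)
            refine (totalDegree_mul _ _).trans ?_
            rw [totalDegree_C, totalDegree_X]
        · rw [totalDegree_C]
          exact Nat.zero_le _
      · dsimp only
        split_ifs with h
        · simp [h]
        · simp
      · rw [totalDegree_zero]
        exact Nat.zero_le _
      · simp
      · simp
      · intro n _ i hi
        omega
    | succ m ih =>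
      intro hm
      obtain ⟨D, hD⟩ := ih (by omega)
      let i₀ : Fin k := ⟨m, by omega⟩
      refine ⟨D + (g i₀).totalDegree * D, fun N b => ?_⟩
      obtain ⟨q, V, hV, hq, hV0, hn⟩ := hD N b
      have hG0 : eval 0 (aeval V (g i₀)) = eval v₀ (g i₀) := by
        have h1 : (eval (0 : Fin N → K)) (aeval V (g i₀)) =
            eval (fun j => eval (0 : Fin N → K) (V j)) (g i₀) := by
          rw [aeval_def, eval₂_eq, map_sum, eval_eq]
          refine Finset.sum_congr rfl fun d _ => ?_
          rw [map_mul, map_prod, algebraMap_eq, eval_C]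
          congr 1
          refine Finset.prod_congr rfl fun i _ => ?_
          rw [map_pow]
        rw [h1]
        congr 2
        funext j
        exact (hV j).2
      obtain ⟨Y, q', hY0, hYd, hq', hn'⟩ := step_poly p (L i₀) S (hS i₀) (aeval V (g i₀))
        (v₀ i₀.succ) (by rw [hG0, hv₀])
      have hdeg : (aeval V (g i₀)).totalDegree ≤ (g i₀).totalDegree * D :=
        totalDegree_aeval_le' V D (fun j => (hV j).1) (g i₀)
      refine ⟨fun t => if t.1 = i₀ then q' t.2 else q t, Function.update V i₀.succ Y,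
        fun j => ?_, fun t => ?_, ?_, fun n hz i hi => ?_⟩
      · by_cases hj : j = i₀.succ
        · subst hj
          rw [Function.update_self]
          exact ⟨by omega, hY0⟩
        · rw [Function.update_of_ne hj]
          have := (hV j).1
          exact ⟨by omega, (hV j).2⟩
      · dsimp only
        split_ifs
        · have := (hq' t.2).1
          exact ⟨by omega, (hq' t.2).2⟩
        · have := (hq t).1
          exact ⟨by omega, (hq t).2⟩
      · rw [Function.update_of_ne (Fin.succ_ne_zero i₀).symm]
        exact hV0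
      · have hcong : ∀ i' : Fin k, (i' : ℕ) ≤ m →
            eval (fun j => eval (fun r => (cst p (n r) : K)) (Function.update V i₀.succ Y j)) (g i') =
            eval (fun j => eval (fun r => (cst p (n r) : K)) (V j)) (g i') := by
          intro i' hi'
          refine eval₂Hom_congr' rfl ?_ rfl
          intro j hj _
          have h1 := hg i' j hj
          have h2 : j ≠ i₀.succ := by
            intro h3
            rw [h3, Fin.le_def] at h1
            simp only [Fin.val_succ, Fin.val_castSucc, i₀] at h1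
            omega
          rw [Function.update_of_ne h2]
        rw [hcong i (by omega)]
        by_cases hi' : i = i₀
        · subst hi'
          rw [Function.update_self, hn' n fun s => ?_]
          · rw [aeval_def, eval₂_eq, map_sum, eval_eq]
            refine Finset.sum_congr rfl fun d _ => ?_
            rw [map_mul, map_prod, algebraMap_eq, eval_C]
            congr 1
            refine Finset.prod_congr rfl fun i _ => ?_
            rw [map_pow]
          · have := hz (i₀, s) (Nat.lt_succ_self m)
            simpa using this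
        · have hne : i.succ ≠ i₀.succ := fun h => hi' (Fin.succ_injective _ h)
          rw [Function.update_of_ne hne]
          have hlt : (i : ℕ) < m := by
            have : (i : ℕ) ≠ m := fun h => hi' (Fin.ext h)
            omega
          refine hn n (fun t ht => ?_) i hlt
          have h1 := hz t (by omega)
          have h2 : t.1 ≠ i₀ := fun h => by
            rw [h] at ht
            exact lt_irrefl _ ht
          simp only [if_neg h2] at h1
          exact h1
  obtain ⟨D, hD⟩ := key k le_rfl
  refine ⟨D, fun N b => ?_⟩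
  obtain ⟨q, V, -, hq, hV0, hn⟩ := hD N b
  exact ⟨q, V, hq, hV0, fun n hz i => hn n (fun t _ => hz t) i i.2⟩

/-- directions avoiding a finite set -/
theorem exists_directions [Infinite K] : ∀ (N : ℕ) (A : Finset K), ∃ b : Fin N → K,
    ∀ n : Fin N → ZMod p, n ≠ 0 → ∑ i, (cst p (n i) : K) * b i ∉ A := by
  classical
  have : NeZero p := ⟨(Fact.out : p.Prime).ne_zero⟩
  intro N
  induction N with
  | zero =>
    intro A
    exact ⟨0, fun n hn => absurd (Subsingleton.elim n 0) hn⟩
  | succ N ih =>
    intro A
    obtain ⟨b, hb⟩ := ih A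
    let T : Finset K := (A ×ˢ (Finset.univ : Finset ((Fin N → ZMod p) × ZMod p))).image
      fun s => (cst p s.2.2 : K)⁻¹ * (s.1 - ∑ i, (cst p (s.2.1 i) : K) * b i)
    obtain ⟨c, hc⟩ := Infinite.exists_notMem_finset T
    refine ⟨Fin.snoc b c, fun n hn hA => ?_⟩
    rw [Fin.sum_univ_castSucc] at hA
    simp only [Fin.snoc_castSucc, Fin.snoc_last] at hA
    by_cases h0 : n (Fin.last N) = 0
    · rw [h0, map_zero, zero_mul, add_zero] at hA
      refine hb (fun i => n i.castSucc) (fun h1 => hn ?_) hA
      funext i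
      refine Fin.lastCases ?_ (fun i => ?_) i
      · exact h0
      · exact congrFun h1 i
    · have h1 : (cst p (n (Fin.last N)) : K) ≠ 0 := by
        rw [Ne, map_eq_zero_iff _ (RingHom.injective _)]
        exact h0
      apply hc
      refine Finset.mem_image.2 ⟨(_, (fun i => n i.castSucc, n (Fin.last N))),
        Finset.mem_product.2 ⟨hA, Finset.mem_univ _⟩, ?_⟩
      simp only
      rw [add_sub_cancel_left, inv_mul_cancel_left₀ h1]

include p in
/-- towers of additive equations over the affine line -/
theorem tower_infinite [Infinite K] {k : ℕ} (L : Fin k → (K →+ K)) (S : Finset K)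
    (hS : ∀ (i : Fin k) (x : K), ∃ s ∈ S, ∃ y : K, x = s + L i y)
    (g : Fin k → MvPolynomial (Fin (k + 1)) K) (hg : ∀ i, ∀ j ∈ (g i).vars, j ≤ i.castSucc)
    (hne : {v : Fin (k + 1) → K | ∀ i, L i (v i.succ) = eval v (g i)}.Nonempty) :
    {v : Fin (k + 1) → K | ∀ i, L i (v i.succ) = eval v (g i)}.Infinite := by
  classical
  have hp : p.Prime := Fact.out
  have : NeZero p := ⟨hp.ne_zero⟩
  obtain ⟨v₀, hv₀⟩ := hne
  obtain ⟨D, hD⟩ := tower_polys p L S hS g hg v₀ hv₀
  intro hfin
  let N : ℕ := Fintype.card (Fin k × S) * D + 1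
  obtain ⟨b, hb⟩ := exists_directions (K := K) p N
    (hfin.toFinset.image fun v => v 0 - v₀ 0)
  obtain ⟨q, V, hq, hV0, hn⟩ := hD N b
  have hcard : ∑ t, (q t).totalDegree < Fintype.card (Fin N) := by
    calc ∑ t, (q t).totalDegree ≤ ∑ _t : Fin k × S, D := Finset.sum_le_sum fun t _ => (hq t).1
      _ = Fintype.card (Fin k × S) * D := by
        rw [Finset.sum_const, Finset.card_univ, smul_eq_mul]
      _ < Fintype.card (Fin N) := by
        rw [Fintype.card_fin]
        exact Nat.lt_succ_self _
  have hdvd := char_dvd_card_solutions_of_fintype_sum_lt p hcard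
  obtain ⟨n, hn0, hnz⟩ : ∃ n : Fin N → ZMod p, n ≠ 0 ∧ ∀ t, eval n (q t) = 0 := by
    by_contra hno
    push Not at hno
    have h1 : Fintype.card {x : Fin N → ZMod p // ∀ t, eval x (q t) = 0} = 1 := by
      rw [Fintype.card_eq_one_iff]
      refine ⟨⟨0, fun t => (hq t).2⟩, ?_⟩
      rintro ⟨y, hy⟩
      refine Subtype.ext ?_
      by_contra h2
      obtain ⟨t, ht⟩ := hno y h2
      exact ht (hy t)
    rw [h1] at hdvd
    exact hp.one_lt.ne' (Nat.dvd_one.1 hdvd)
  apply hb n hn0
  refine Finset.mem_image.2 ⟨fun j => eval (fun r => cst p (n r)) (V j), ?_, ?_⟩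
  · rw [Set.Finite.mem_toFinset]
    exact hn n hnz
  · simp only
    rw [hV0, map_add, eval_C, map_sum, add_sub_cancel_left]
    refine Finset.sum_congr rfl fun i _ => ?_
    rw [map_mul, eval_C, eval_X, mul_comm]

end

end Pool.MP_f30f9b_al.AS
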