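import Pool.Agent.H.MP_f30f9b_al.ASMain
import Pool.Agent.H.MP_f30f9b_al.ASSys
import Pool.Agent.H.MP_f30f9b_al.ASTower

/-!
# Abelian covers of the line with rational branch points over almost radically closed fields
-/

set_option autoImplicit false

namespace Pool.MP_f30f9b_al.AS

open Polynomial

universe v

/-- representatives modulo powers -/
theorem exists_reps {K : Type*} [Field K] (n : ℕ)
    (h : (powMonoidHom n : Kˣ →* Kˣ).range.index ≠ 0) :
    ∃ R : Finset K, (∀ c ∈ R, c ≠ 0) ∧ ∀ x : K, x ≠ 0 → ∃ c ∈ R, ∃ y : K, x = c * y ^ n := by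
  classical
  have hfi : (powMonoidHom n : Kˣ →* Kˣ).range.FiniteIndex := ⟨h⟩
  have hfin : Finite (Kˣ ⧸ (powMonoidHom n : Kˣ →* Kˣ).range) :=
    Subgroup.finite_quotient_of_finiteIndex
  have := Fintype.ofFinite (Kˣ ⧸ (powMonoidHom n : Kˣ →* Kˣ).range)
  refine ⟨Finset.univ.image fun q : Kˣ ⧸ (powMonoidHom n : Kˣ →* Kˣ).range =>
    ((q.out : Kˣ) : K), ?_, fun x hx => ?_⟩
  · intro c hc
    obtain ⟨q, -, rfl⟩ := Finset.mem_image.1 hc
    exact q.out.ne_zero
  · let u : Kˣ := Units.mk0 x hx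
    let q : Kˣ ⧸ (powMonoidHom n : Kˣ →* Kˣ).range := QuotientGroup.mk u
    have h1 : (QuotientGroup.mk q.out : Kˣ ⧸ (powMonoidHom n : Kˣ →* Kˣ).range) =
        QuotientGroup.mk u := QuotientGroup.out_eq' q
    rw [QuotientGroup.eq] at h1
    obtain ⟨y, hy⟩ := h1
    refine ⟨_, Finset.mem_image_of_mem _ (Finset.mem_univ q), y, ?_⟩
    have h2 : u = q.out * y ^ n := by
      rw [← powMonoidHom_apply, hy, mul_inv_cancel_left]
    have h3 := congrArg (fun w : Kˣ => (w : K)) h2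
    simpa [u] using h3

/-- almost radically closed infinite fields are perfect -/
theorem perfect_of_index {K : Type*} [Field K] [Infinite K] (p : ℕ) [Fact p.Prime] [CharP K p]
    (h : (powMonoidHom p : Kˣ →* Kˣ).range.index ≠ 0) (a : K) : ∃ y : K, y ^ p = a := by
  classical
  have hp : p.Prime := Fact.out
  by_contra hno
  push Not at hno
  obtain ⟨R, hR0, hR⟩ := exists_reps p h
  have hne : ∀ l : K, a + l ^ p ≠ 0 := by
    intro l h0
    apply hno (-l)
    have h2 : (-l) ^ p = -(l ^ p) := by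
      have := map_neg (frobenius K p) l
      simpa only [frobenius_def] using this
    rw [h2]
    linear_combination -h0
  choose c hc y hy using fun l : K => hR (a + l ^ p) (hne l)
  obtain ⟨r, hr⟩ : ∃ r : R, Infinite ((fun l : K => (⟨c l, hc l⟩ : R)) ⁻¹' {r}) :=
    Finite.exists_infinite_fiber _
  obtain ⟨⟨l, hl⟩, ⟨m, hm⟩, hlm⟩ := exists_pair_ne ((fun l : K => (⟨c l, hc l⟩ : R)) ⁻¹' {r})
  have hlm' : l ≠ m := fun h => hlm (Subtype.ext h)
  have hcl : c l = r := congrArg Subtype.val hl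
  have hcm : c m = r := congrArg Subtype.val hm
  have h1 := hy l
  have h2 := hy m
  rw [hcl] at h1
  rw [hcm] at h2
  have hym : y m ≠ 0 := by
    intro h0
    rw [h0, zero_pow hp.ne_zero, mul_zero] at h2
    exact hne m h2
  -- a + l ^ p = z ^ p * (a + m ^ p)
  let z : K := y l / y m
  have h3 : a + l ^ p = z ^ p * (a + m ^ p) := by
    simp only [z]
    rw [h1, h2, div_pow]
    have := pow_ne_zero p hym
    field_simp
  by_cases hz : z ^ p = 1
  · rw [hz, one_mul, add_right_inj] at h3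
    apply hlm'
    exact frobenius_inj K p h3
  · have h4 : (1 - z) ^ p = 1 - z ^ p := by rw [sub_pow_char, one_pow]
    have h5 : (z * m - l) ^ p = z ^ p * m ^ p - l ^ p := by rw [sub_pow_char, mul_pow]
    have h6 : a * (1 - z ^ p) = z ^ p * m ^ p - l ^ p := by linear_combination h3
    apply hno ((z * m - l) / (1 - z))
    have h7 : 1 - z ^ p ≠ 0 := sub_ne_zero.2 (Ne.symm hz)
    rw [div_pow, h4, h5, ← h6, mul_div_assoc, div_self h7, mul_one]

theorem exists_coord (G : Type*) [AddCommGroup G] [Finite G] (p : ℕ) [Fact p.Prime]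
    (hk : ∀ q : G, p • q = 0) : ∃ d : ℕ, Nonempty (G ≃+ (Fin d → ZMod p)) := by
  have key : ∀ [Module (ZMod p) G], ∃ d : ℕ, Nonempty (G ≃+ (Fin d → ZMod p)) := by
    intro _
    exact ⟨_, ⟨(Module.finBasis (ZMod p) G).equivFun.toAddEquiv⟩⟩
  exact @key (AddCommGroup.zmodModule hk)

/-- the Artin-Schreier quotient as a vector space -/
theorem exists_psi {K : Type*} [Field K] (p : ℕ) [Fact p.Prime] [CharP K p]
    (hAS : ∃ S : Set K, S.Finite ∧ ∀ x : K, ∃ s ∈ S, ∃ y : K, x = s + (y ^ p - y)) :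
    ∃ (d : ℕ) (ψ : K →+ (Fin d → ZMod p)), Function.Surjective ψ ∧
      ∀ x : K, ψ x = 0 ↔ ∃ y : K, y ^ p - y = x := by
  classical
  have hfin := finite_quotient p hAS
  have hk : ∀ q : K ⧸ (wp K p).range, p • q = 0 := by
    intro q
    obtain ⟨x, rfl⟩ := QuotientAddGroup.mk_surjective q
    rw [← QuotientAddGroup.mk_nsmul, nsmul_eq_mul, CharP.cast_eq_zero, zero_mul]
    rfl
  obtain ⟨d, ⟨b⟩⟩ := exists_coord (K ⧸ (wp K p).range) p hk
  refine ⟨d, b.toAddMonoidHom.comp (QuotientAddGroup.mk' _), ?_, ?_⟩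
  · exact b.surjective.comp (QuotientAddGroup.mk'_surjective _)
  · intro x
    have h1 : b.toAddMonoidHom.comp (QuotientAddGroup.mk' (wp K p).range) x = 0 ↔
        (QuotientAddGroup.mk' (wp K p).range) x = 0 := by
      exact b.map_eq_zero_iff
    rw [h1, QuotientAddGroup.mk'_apply, QuotientAddGroup.eq_zero_iff]
    rfl

/-- systems of Kummer and Artin-Schreier equations with rational branch points -/
theorem infinite_systems {K : Type v} [Field K] [Infinite K] (p : ℕ) [Fact p.Prime] [CharP K p]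
    (hrad : ∀ n : ℕ, 1 ≤ n → (powMonoidHom n : Kˣ →* Kˣ).range.index ≠ 0)
    (hAS : ∃ S : Set K, S.Finite ∧ ∀ x : K, ∃ s ∈ S, ∃ y : K, x = s + (y ^ p - y))
    {σ τ : Type*} [Finite σ] [Finite τ] (e : τ → ℕ) (he : ∀ i, 1 ≤ e i) (f : τ → K[X])
    (hf0 : ∀ i, f i ≠ 0) (hf : ∀ i, (f i).Splits) (N D : σ → K[X]) (hD0 : ∀ j, D j ≠ 0)
    (hD : ∀ j, (D j).Splits)
    (hx : ∃ x : LaurentSeries K, x ∉ (algebraMap K (LaurentSeries K)).range ∧
      (∀ i, ∃ y : LaurentSeries K, y ^ e i = aeval x (f i)) ∧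
      ∀ j, ∃ z : LaurentSeries K, z ^ p - z = aeval x (N j) / aeval x (D j)) :
    {x : K | (∀ i, ∃ y : K, y ^ e i = (f i).eval x) ∧
      ∀ j, (D j).eval x ≠ 0 ∧ ∃ z : K, z ^ p - z = (N j).eval x / (D j).eval x}.Infinite := by
  classical
  cases nonempty_fintype σ
  cases nonempty_fintype τ
  obtain ⟨d, ψ, hsurj, hψ⟩ := exists_psi p hAS
  obtain ⟨x, hx0, hy, hz⟩ := hx
  intro hfin
  obtain ⟨x', hx', h1, h2⟩ := sys_any p ψ hsurj
    (perfect_of_index p (hrad p (Fact.out : p.Prime).one_lt.le)) (fun x => (hψ _).2 ⟨x, rfl⟩)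
    (fun n hn => exists_reps n (hrad n hn)) e he f hf0 hf N D hD0 hD x hx0 hy hz hfin.toFinset
  apply hx'
  rw [Set.Finite.mem_toFinset]
  exact ⟨h1, fun j => ⟨(h2 j).1, (hψ _).1 (h2 j).2⟩⟩

/-- representatives modulo a subgroup of finite index -/
theorem exists_reps_add {K : Type*} [AddCommGroup K] (H : AddSubgroup K) (h : H.index ≠ 0) :
    ∃ S : Finset K, ∀ x : K, ∃ s ∈ S, x - s ∈ H := by
  classical
  have hfi : H.FiniteIndex := ⟨h⟩
  have hfin : Finite (K ⧸ H) := AddSubgroup.finite_quotient_of_finiteIndex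
  have := Fintype.ofFinite (K ⧸ H)
  refine ⟨Finset.univ.image fun q : K ⧸ H => (q.out : K), fun x => ?_⟩
  refine ⟨_, Finset.mem_image_of_mem _ (Finset.mem_univ (QuotientAddGroup.mk x)), ?_⟩
  have h1 : (QuotientAddGroup.mk (QuotientAddGroup.mk x : K ⧸ H).out : K ⧸ H) =
      QuotientAddGroup.mk x := QuotientAddGroup.out_eq' _
  rw [QuotientAddGroup.eq] at h1
  rw [sub_eq_neg_add]
  exact h1

/-- towers of additive equations over the affine line -/
theorem infinite_towers {K : Type*} [Field K] [Infinite K] (p : ℕ) [Fact p.Prime] [CharP K p]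
    {k : ℕ} (L : Fin k → (K →+ K)) (hL : ∀ i, (L i).range.index ≠ 0)
    (g : Fin k → MvPolynomial (Fin (k + 1)) K) (hg : ∀ i, ∀ j ∈ (g i).vars, j ≤ i.castSucc)
    (hne : {v : Fin (k + 1) → K | ∀ i, L i (v i.succ) = MvPolynomial.eval v (g i)}.Nonempty) :
    {v : Fin (k + 1) → K | ∀ i, L i (v i.succ) = MvPolynomial.eval v (g i)}.Infinite := by
  classical
  choose S hS using fun i => exists_reps_add (L i).range (hL i)
  refine tower_infinite p L (Finset.univ.biUnion S) (fun i x => ?_) g hg hne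
  obtain ⟨s, hs, y, hy⟩ := hS i x
  exact ⟨s, Finset.mem_biUnion.2 ⟨i, Finset.mem_univ i, hs⟩, y, by rw [hy]; abel⟩

end Pool.MP_f30f9b_al.AS
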