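import Pool.Agent.H.MP_f30f9b_al.ASPole

/-!
# Artin-Schreier curves with rational branch points
-/

set_option autoImplicit false

namespace Pool.MP_f30f9b_al.AS

open Polynomial

universe v

/-- fractions with rational poles -/
theorem pf {K : Type v} [Field K] (f : K[X]) (A : Finset K) (n : K → ℕ) :
    ∃ (P : K[X]) (Q : K → K[X]), ∀ (E : Type v) [Field E] (φ : K[X] →+* E),
      (∀ a ∈ A, φ (X - C a) ≠ 0) → φ f / ∏ a ∈ A, φ (X - C a) ^ n a =
        φ P + ∑ a ∈ A, (Q a).eval₂ (φ.comp C) ((φ (X - C a))⁻¹) := by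
  classical
  obtain ⟨q, r, hr, hf⟩ := eq_quo_mul_prod_pow_add_sum_rem_mul_prod_pow f
    (s := A) (g := fun a => X - C a) (fun a _ => monic_X_sub_C a)
    (fun a _ b _ hab => isCoprime_X_sub_C_of_isUnit_sub
      (IsUnit.mk0 _ (sub_ne_zero.2 hab))) n
  refine ⟨q, fun a => ∑ j : Fin (n a), C ((r a j).coeff 0) * X ^ (n a - j), fun E _ φ hφ => ?_⟩
  have hprod : ∏ a ∈ A, φ (X - C a) ^ n a ≠ 0 :=
    Finset.prod_ne_zero_iff.2 fun a ha => pow_ne_zero _ (hφ a ha)
  rw [hf, map_add, map_mul, map_prod, add_div, Finset.prod_congr rfl fun a _ => map_pow φ _ _,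
    mul_div_assoc, div_self hprod, mul_one]
  congr 1
  rw [map_sum, Finset.sum_div]
  refine Finset.sum_congr rfl fun a ha => ?_
  rw [map_sum, Finset.sum_div, eval₂_finsetSum]
  refine Finset.sum_congr rfl fun j _ => ?_
  have h1 : r a j = C ((r a j).coeff 0) := by
    refine eq_C_of_degree_le_zero ?_
    have h2 := hr a ha j
    rw [degree_X_sub_C] at h2
    exact Nat.WithBot.lt_one_iff_le_zero.1 h2
  rw [eval₂_mul, eval₂_C, eval₂_pow, eval₂_X, map_mul, map_mul, map_pow, map_prod,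
    Finset.prod_congr rfl fun a _ => map_pow φ _ _, ← Finset.mul_prod_erase A _ ha]
  have h3 : ∏ x ∈ A.erase a, φ (X - C x) ^ n x ≠ 0 :=
    Finset.prod_ne_zero_iff.2 fun b hb => pow_ne_zero _ (hφ b (Finset.mem_of_mem_erase hb))
  rw [mul_div_mul_right _ _ h3, mul_div_assoc]
  congr 1
  · rw [RingHom.comp_apply, ← h1]
  · have h4 := hφ a ha
    have h5 : φ (X - C a) ^ n a = φ (X - C a) ^ (j : ℕ) * φ (X - C a) ^ (n a - j) := by
      rw [← pow_add]
      congr 1
      omega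
    rw [h5, inv_pow]
    field_simp

variable {K F : Type v} [Field K] [Infinite K] (p : ℕ) [Fact p.Prime] [CharP K p]
  [AddCommGroup F] [Finite F] (ψ : K →+ F) (hsurj : Function.Surjective ψ)
  (hper : ∀ x : K, ∃ y : K, y ^ p = x) (hker : ∀ x : K, ψ (x ^ p - x) = 0)

include hsurj hper hker

theorem exists_value (N D : K[X]) (hD : D ≠ 0) (hs : D.Splits)
    (hg : ∀ (u : RatFunc K) (c : K), algebraMap K[X] (RatFunc K) N /
      algebraMap K[X] (RatFunc K) D ≠ u ^ p - u + algebraMap K (RatFunc K) c) (X₀ : Finset K) :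
    ∃ x : K, x ∉ X₀ ∧ D.eval x ≠ 0 ∧ ψ (N.eval x / D.eval x) = 0 := by
  classical
  have hDp : D = C D.leadingCoeff * ∏ a ∈ D.roots.toFinset, (X - C a) ^ D.roots.count a := by
    conv_lhs => rw [hs.eq_prod_roots]
    rw [Finset.prod_multiset_map_count]
  set A : Finset K := D.roots.toFinset with hA
  set n : K → ℕ := fun a => D.roots.count a with hn
  have hlc : D.leadingCoeff ≠ 0 := leadingCoeff_ne_zero.2 hD
  obtain ⟨P, Q, hPQ⟩ := pf (C (D.leadingCoeff⁻¹) * N) A n
  have hval : ∀ (E : Type v) [Field E] (φ : K[X] →+* E), (∀ a ∈ A, φ (X - C a) ≠ 0) →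
      φ N / φ D = φ P + ∑ a ∈ A, (Q a).eval₂ (φ.comp C) ((φ (X - C a))⁻¹) := by
    intro E _ φ hφ
    rw [← hPQ E φ hφ, map_mul]
    conv_lhs => rw [hDp]
    rw [map_mul, map_prod, Finset.prod_congr rfl fun a _ => map_pow φ _ _]
    have h1 : φ (C D.leadingCoeff) * φ (C D.leadingCoeff⁻¹) = 1 := by
      rw [← map_mul, ← C_mul, mul_inv_cancel₀ hlc, C_1, map_one]
    have h2 : φ (C D.leadingCoeff⁻¹) = (φ (C D.leadingCoeff))⁻¹ :=
      eq_inv_of_mul_eq_one_right h1
    rw [h2, inv_mul_eq_div, div_div]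
  have hNT : NT p P ∨ ∃ a ∈ A, NT p (Q a) := by
    by_contra hno
    push Not at hno
    obtain ⟨h1, h2⟩ := hno
    unfold NT at h1 h2
    push Not at h1 h2
    obtain ⟨u₀, c₀, h1⟩ := h1
    choose! u c h2 using h2
    let φ : K[X] →+* RatFunc K := algebraMap K[X] (RatFunc K)
    have hφ : ∀ a ∈ A, φ (X - C a) ≠ 0 := by
      intro a _
      rw [Ne, map_eq_zero_iff φ (RatFunc.algebraMap_injective K)]
      exact X_sub_C_ne_zero a
    have : CharP (RatFunc K) p := charP_of_injective_algebraMap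
      (algebraMap K (RatFunc K)).injective p
    have : ExpChar (RatFunc K) p := ExpChar.prime (Fact.out : p.Prime)
    let w : K → RatFunc K := fun a => (u a).eval₂ (φ.comp C) ((φ (X - C a))⁻¹)
    apply hg (φ u₀ + ∑ a ∈ A, w a) (c₀ + ∑ a ∈ A, c a)
    have h3 := hval (RatFunc K) φ hφ
    have h4 : ∀ x : K, φ (C x) = algebraMap K (RatFunc K) x := fun x => rfl
    have h5 : ∑ a ∈ A, (Q a).eval₂ (φ.comp C) ((φ (X - C a))⁻¹) =
        (∑ a ∈ A, w a) ^ p - ∑ a ∈ A, w a + algebraMap K (RatFunc K) (∑ a ∈ A, c a) := by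
      rw [sum_pow_char p, ← Finset.sum_sub_distrib, map_sum, ← Finset.sum_add_distrib]
      refine Finset.sum_congr rfl fun a ha => ?_
      rw [h2 a ha, eval₂_add, eval₂_sub, eval₂_pow, eval₂_C, RingHom.comp_apply, h4]
    rw [h5, h1, map_add, map_sub, map_pow, h4] at h3
    rw [h3, add_pow_char, map_add]
    ring
  obtain ⟨x, hxA, hxX, hx⟩ := pole_any p ψ hsurj hper hker P A Q hNT X₀
  have hφ : ∀ a ∈ A, evalRingHom x (X - C a) ≠ 0 := by
    intro a ha h1
    apply hxA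
    simp only [coe_evalRingHom, eval_sub, eval_X, eval_C] at h1
    rw [sub_eq_zero.1 h1]
    exact ha
  refine ⟨x, hxX, ?_, ?_⟩
  · intro h0
    apply hxA
    rw [hA, Multiset.mem_toFinset, mem_roots hD]
    exact h0
  · rw [← hx]
    congr 1
    have h3 := hval K (evalRingHom x) hφ
    rw [coe_evalRingHom] at h3
    rw [h3]
    congr 1
    refine Finset.sum_congr rfl fun a _ => ?_
    have h4 : (evalRingHom x).comp C = RingHom.id K := by
      ext y
      simp
    rw [h4, eval_sub, eval_X, eval_C]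
    rfl

end Pool.MP_f30f9b_al.AS
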