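import Mathlib

/-!
# Hales-Jewett with flags, for additive colours

`K` is an infinite field and `ψ : K →+ F` a homomorphism to a finite group. For all finite sets
`A, B` in `K` and every `M` there is `x ∉ A` with `ψ (b / (x - a) ^ k) = 0` and `ψ (b * x ^ k) = 0`
for all `a ∈ A`, `b ∈ B`, `1 ≤ k ≤ M`.
-/

set_option autoImplicit false

namespace Pool.MP_f30f9b_al.AS

open Combinatorics

section Alt

variable {K F : Type*} [Field K] [AddCommGroup F] (ψ : K →+ F)

theorem alt_zero (d : K) (n : ℕ → K) (k : ℕ) : ∀ C : K,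
    (∀ f : ℕ → Bool, ψ (C * ∏ i ∈ Finset.range k, (n i + if f i then d else 0)) = 0) →
    ψ (C * d ^ k) = 0 := by
  induction k with
  | zero =>
    intro C h
    simpa using h fun _ => true
  | succ k ih =>
    intro C h
    have h1 : ∀ f : ℕ → Bool,
        ψ (C * d * ∏ i ∈ Finset.range k, (n i + if f i then d else 0)) = 0 := by
      intro f
      have h2 := h (Function.update f k true)
      have h3 := h (Function.update f k false)
      have h4 : ∀ b : Bool, ∏ i ∈ Finset.range k,
          (n i + if Function.update f k b i then d else 0) =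
          ∏ i ∈ Finset.range k, (n i + if f i then d else 0) := by
        intro b
        refine Finset.prod_congr rfl fun i hi => ?_
        have : i ≠ k := (Finset.mem_range.1 hi).ne
        rw [Function.update_of_ne this]
      rw [Finset.prod_range_succ, h4, Function.update_self] at h2 h3
      have h5 := congrArg₂ (fun a b => a - b) h2 h3
      simp only [if_true, sub_zero] at h5
      rw [← map_sub] at h5
      rw [← h5]
      congr 1
      simp
      ring
    have h2 := ih (C * d) h1
    rw [← h2]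
    congr 1
    ring

theorem alt_const (d : K) (n : ℕ → K) (k : ℕ) (C : K)
    (h : ∀ f g : ℕ → Bool, ψ (C * ∏ i ∈ Finset.range (k + 1), (n i + if f i then d else 0)) =
      ψ (C * ∏ i ∈ Finset.range (k + 1), (n i + if g i then d else 0))) :
    ψ (C * d ^ (k + 1)) = 0 := by
  have h1 : ∀ f : ℕ → Bool,
      ψ (C * d * ∏ i ∈ Finset.range k, (n i + if f i then d else 0)) = 0 := by
    intro f
    have h2 := h (Function.update f k true) (Function.update f k false)
    have h4 : ∀ b : Bool, ∏ i ∈ Finset.range k,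
        (n i + if Function.update f k b i then d else 0) =
        ∏ i ∈ Finset.range k, (n i + if f i then d else 0) := by
      intro b
      refine Finset.prod_congr rfl fun i hi => ?_
      have : i ≠ k := (Finset.mem_range.1 hi).ne
      rw [Function.update_of_ne this]
    rw [Finset.prod_range_succ, Finset.prod_range_succ, h4, h4, Function.update_self,
      Function.update_self] at h2
    have h5 := sub_eq_zero.2 h2
    rw [← map_sub] at h5
    rw [← h5]
    congr 1
    simp
    ring
  have h2 := alt_zero ψ d n k (C * d) h1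
  rw [← h2]
  congr 1
  ring

end Alt

/-- Weights: no nonempty subset sum vanishes, no word has value `-1`. -/
theorem exists_weights (K : Type*) [Field K] [Infinite K] (ι : Type*) [Finite ι] (α : Type*)
    [Finite α] (v : α → K) :
    ∃ w : ι → K, (∀ S : Finset ι, S.Nonempty → ∑ i ∈ S, w i ≠ 0) ∧
      ∀ (S : Finset ι) (u : ι → α), 1 + ∑ i ∈ S, v (u i) * w i ≠ 0 := by
  classical
  cases nonempty_fintype ι
  cases nonempty_fintype α
  let e := Fintype.equivFin ι
  let P₁ : Finset ι → Polynomial K := fun S => ∑ i ∈ S, Polynomial.X ^ ((e i : ℕ) + 1)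
  let P₂ : Finset ι × (ι → α) → Polynomial K := fun s =>
    1 + ∑ i ∈ s.1, Polynomial.C (v (s.2 i)) * Polynomial.X ^ ((e i : ℕ) + 1)
  have h1 : ∀ S : Finset ι, S.Nonempty → P₁ S ≠ 0 := by
    intro S hS h0
    obtain ⟨i, hi⟩ := hS
    have h2 := congrArg (fun q => Polynomial.coeff q ((e i : ℕ) + 1)) h0
    simp only [P₁, Polynomial.finsetSum_coeff, Polynomial.coeff_X_pow, Polynomial.coeff_zero] at h2
    rw [Finset.sum_eq_single i] at h2
    · simp at h2
    · intro j _ hj
      rw [if_neg]
      intro h3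
      apply hj
      have h4 : (e i : ℕ) = (e j : ℕ) := by omega
      exact (e.injective (Fin.ext h4)).symm
    · intro h3
      exact absurd hi h3
  have h2 : ∀ s, P₂ s ≠ 0 := by
    intro s h0
    have h3 := congrArg (fun q => Polynomial.coeff q 0) h0
    simp only [P₂, Polynomial.coeff_add, Polynomial.finsetSum_coeff, Polynomial.coeff_zero,
      Polynomial.coeff_one_zero] at h3
    rw [Finset.sum_eq_zero] at h3
    · simp at h3
    · intro i _
      rw [Polynomial.coeff_C_mul, Polynomial.coeff_X_pow, if_neg (by omega), mul_zero]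
  let Q : Polynomial K := (∏ S ∈ Finset.univ.filter (fun S : Finset ι => S.Nonempty), P₁ S) *
    ∏ s : Finset ι × (ι → α), P₂ s
  have hQ : Q ≠ 0 := by
    refine mul_ne_zero ?_ ?_
    · exact Finset.prod_ne_zero_iff.2 fun S hS => h1 S (Finset.mem_filter.1 hS).2
    · exact Finset.prod_ne_zero_iff.2 fun s _ => h2 s
  obtain ⟨T, hT⟩ := Infinite.exists_notMem_finset Q.roots.toFinset
  have hT' : Q.eval T ≠ 0 := by
    intro h0
    apply hT
    rw [Multiset.mem_toFinset, Polynomial.mem_roots hQ]
    exact h0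
  rw [Polynomial.eval_mul, Polynomial.eval_prod, Polynomial.eval_prod] at hT'
  have hT1 := left_ne_zero_of_mul hT'
  have hT2 := right_ne_zero_of_mul hT'
  rw [Finset.prod_ne_zero_iff] at hT1 hT2
  refine ⟨fun i => T ^ ((e i : ℕ) + 1), fun S hS => ?_, fun S u => ?_⟩
  · have := hT1 S (Finset.mem_filter.2 ⟨Finset.mem_univ S, hS⟩)
    simpa [P₁, Polynomial.eval_finsetSum] using this
  · have := hT2 (S, u) (Finset.mem_univ _)
    simpa [P₂, Polynomial.eval_finsetSum] using this

/-- The core: Hales-Jewett for the alphabet `α × (Fin M → Bool)`. The finite set `Λ` of possible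
values of `d` does not depend on the coefficient functions `C` and the colouring `χ`. -/
theorem core' {K F : Type*} [Field K] [Infinite K] [AddCommGroup F] [Finite F] (ψ : K →+ F)
    (α : Type*) [Finite α] (v : α → K) (J : Type*) [Finite J] (M : ℕ) (κ : Type*) [Finite κ] :
    ∃ Λ : Finset K, (∀ d ∈ Λ, d ≠ 0) ∧ ∀ (C : J → ℕ → K → K) (χ : K → κ), ∃ t : K, ∃ d ∈ Λ,
      (∀ a, t + v a * d ≠ 0) ∧ (∃ g, ∀ a, χ (t + v a * d) = g) ∧
      ∀ (a : α) (j : J) (k : ℕ), k < M → ψ (C j k (t + v a * d) * d ^ (k + 1)) = 0 := by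
  classical
  obtain ⟨ι, hι, hmono⟩ := Line.exists_mono_in_high_dimension (α × (Fin M → Bool))
    ((J × Fin M → F) × κ)
  obtain ⟨w, hw1, hw2⟩ := exists_weights K ι α v
  refine ⟨(Finset.univ.filter fun S : Finset ι => S.Nonempty).image fun S => ∑ i ∈ S, w i,
    ?_, fun C χ => ?_⟩
  · intro d hd
    obtain ⟨S, hS, rfl⟩ := Finset.mem_image.1 hd
    exact hw1 S (Finset.mem_filter.1 hS).2
  let fl : (Fin M → Bool) → ℕ → Bool := fun g i => if h : i < M then g ⟨i, h⟩ else false
  let ℓ : (ι → α × (Fin M → Bool)) → K := fun W => 1 + ∑ i, v (W i).1 * w i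
  let nn : (ι → α × (Fin M → Bool)) → ℕ → K := fun W r =>
    ∑ i, if fl (W i).2 r then w i else 0
  obtain ⟨l, c, hc⟩ := hmono fun W => (fun jk =>
    ψ (C jk.1 jk.2 (ℓ W) * ∏ r ∈ Finset.range (jk.2 + 1), nn W r), χ (ℓ W))
  let S : Finset ι := Finset.univ.filter fun i => l.idxFun i = none
  have hS : S.Nonempty := by
    obtain ⟨i, hi⟩ := l.proper
    exact ⟨i, Finset.mem_filter.2 ⟨Finset.mem_univ i, hi⟩⟩
  let S' : Finset ι := Finset.univ.filter fun i => ¬ l.idxFun i = none
  let t : K := 1 + ∑ i ∈ S', (((l.idxFun i).map fun b => v b.1).getD 0) * w i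
  let d : K := ∑ i ∈ S, w i
  let n₀ : ℕ → K := fun r => ∑ i ∈ S', if ((l.idxFun i).map fun b => fl b.2 r).getD false
    then w i else 0
  have hℓ : ∀ x : α × (Fin M → Bool), ℓ (l x) = t + v x.1 * d := by
    intro x
    simp only [ℓ, t, d]
    rw [← Finset.sum_filter_add_sum_filter_not Finset.univ (fun i => l.idxFun i = none), add_assoc]
    congr 1
    rw [add_comm, Finset.mul_sum]
    congr 1
    · refine Finset.sum_congr rfl fun i hi => ?_
      obtain ⟨b, hb⟩ := Option.ne_none_iff_exists'.1 (Finset.mem_filter.1 hi).2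
      rw [Line.apply_some hb, hb]
      rfl
    · refine Finset.sum_congr rfl fun i hi => ?_
      rw [Line.apply_none l x i (Finset.mem_filter.1 hi).2]
  have hnn : ∀ (x : α × (Fin M → Bool)) (r : ℕ), nn (l x) r =
      n₀ r + if fl x.2 r then d else 0 := by
    intro x r
    simp only [nn, n₀, d]
    rw [← Finset.sum_filter_add_sum_filter_not Finset.univ (fun i => l.idxFun i = none), add_comm]
    congr 1
    · refine Finset.sum_congr rfl fun i hi => ?_
      obtain ⟨b, hb⟩ := Option.ne_none_iff_exists'.1 (Finset.mem_filter.1 hi).2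
      rw [Line.apply_some hb, hb]
      rfl
    · rw [Finset.sum_congr rfl (g := fun i => if fl x.2 r then w i else 0)]
      · split_ifs
        · rfl
        · simp
      · intro i hi
        rw [Line.apply_none l x i (Finset.mem_filter.1 hi).2]
  refine ⟨t, d, ?_, ?_, ⟨c.2, ?_⟩, ?_⟩
  · exact Finset.mem_image.2 ⟨S, Finset.mem_filter.2 ⟨Finset.mem_univ S, hS⟩, rfl⟩
  · intro a
    rw [← hℓ (a, fun _ => false)]
    exact hw2 Finset.univ fun i => (l (a, fun _ => false) i).1
  · intro a
    have h1 := congrArg Prod.snd (hc (a, fun _ => false))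
    rw [← h1]
    simp only [hℓ]
  · intro a j k hk
    refine alt_const ψ d n₀ k (C j k (t + v a * d)) fun f g => ?_
    have key : ∀ f : ℕ → Bool, ψ (C j k (t + v a * d) *
        ∏ i ∈ Finset.range (k + 1), (n₀ i + if f i then d else 0)) = c.1 (j, ⟨k, hk⟩) := by
      intro f
      have h1 := congrFun (congrArg Prod.fst (hc (a, fun i => f i))) (j, ⟨k, hk⟩)
      rw [← h1]
      simp only [hℓ]
      congr 2
      refine Finset.prod_congr rfl fun i hi => ?_
      have hi' : i < M := by
        have := Finset.mem_range.1 hi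
        omega
      rw [hnn]
      simp only [fl, hi', dite_true]
    rw [key f, key g]

theorem core {K F : Type*} [Field K] [Infinite K] [AddCommGroup F] [Finite F] (ψ : K →+ F)
    (α : Type*) [Finite α] (v : α → K) (J : Type*) [Finite J] (M : ℕ) :
    ∃ Λ : Finset K, (∀ d ∈ Λ, d ≠ 0) ∧ ∀ C : J → ℕ → K → K, ∃ t : K, ∃ d ∈ Λ,
      (∀ a, t + v a * d ≠ 0) ∧
      ∀ (a : α) (j : J) (k : ℕ), k < M → ψ (C j k (t + v a * d) * d ^ (k + 1)) = 0 := by
  obtain ⟨Λ, h0, h1⟩ := core' ψ α v J M Unit
  refine ⟨Λ, h0, fun C => ?_⟩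
  obtain ⟨t, d, hd, h2, -, h3⟩ := h1 C fun _ => ()
  exact ⟨t, d, hd, h2, h3⟩

end Pool.MP_f30f9b_al.AS
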