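import Pool.Agent.H.MP_f30f9b_al.ASFrac

/-!
# Artin-Schreier curves: the main statements
-/

set_option autoImplicit false

namespace Pool.MP_f30f9b_al.AS

open Polynomial

universe v

/-- the homomorphism `y ↦ y ^ p - y` -/
def wp (K : Type*) [Field K] (p : ℕ) [Fact p.Prime] [CharP K p] : K →+ K :=
  (frobenius K p).toAddMonoidHom - AddMonoidHom.id K

theorem wp_apply {K : Type*} [Field K] (p : ℕ) [Fact p.Prime] [CharP K p] (y : K) :
    wp K p y = y ^ p - y := rfl

theorem finite_quotient {K : Type*} [Field K] (p : ℕ) [Fact p.Prime] [CharP K p]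
    (hAS : ∃ S : Set K, S.Finite ∧ ∀ x : K, ∃ s ∈ S, ∃ y : K, x = s + (y ^ p - y)) :
    Finite (K ⧸ (wp K p).range) := by
  obtain ⟨S, hS, h⟩ := hAS
  have := hS.to_subtype
  refine Finite.of_surjective (fun s : S => (QuotientAddGroup.mk (s : K) : K ⧸ (wp K p).range)) ?_
  intro q
  obtain ⟨x, rfl⟩ := QuotientAddGroup.mk_surjective q
  obtain ⟨s, hs, y, hy⟩ := h x
  refine ⟨⟨s, hs⟩, ?_⟩
  rw [QuotientAddGroup.eq]
  refine ⟨y, ?_⟩
  rw [wp_apply, hy]
  ring

/-- Artin-Schreier curves with rational branch points -/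
theorem infinite_artin_schreier {K : Type v} [Field K] [Infinite K] (p : ℕ) [Fact p.Prime]
    [CharP K p] (hper : ∀ x : K, ∃ y : K, y ^ p = x)
    (hAS : ∃ S : Set K, S.Finite ∧ ∀ x : K, ∃ s ∈ S, ∃ y : K, x = s + (y ^ p - y))
    (N D : K[X]) (hD : D ≠ 0) (hs : D.Splits)
    (hg : ∀ (u : RatFunc K) (c : K), algebraMap K[X] (RatFunc K) N /
      algebraMap K[X] (RatFunc K) D ≠ u ^ p - u + algebraMap K (RatFunc K) c) :
    {P : K × K | D.eval P.1 ≠ 0 ∧ P.2 ^ p - P.2 = N.eval P.1 / D.eval P.1}.Infinite := by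
  classical
  have := finite_quotient p hAS
  let ψ : K →+ K ⧸ (wp K p).range := QuotientAddGroup.mk' _
  have hsurj : Function.Surjective ψ := QuotientAddGroup.mk'_surjective _
  have hzero : ∀ x : K, ψ x = 0 ↔ ∃ y : K, y ^ p - y = x := by
    intro x
    rw [QuotientAddGroup.mk'_apply, QuotientAddGroup.eq_zero_iff]
    rfl
  have hker : ∀ x : K, ψ (x ^ p - x) = 0 := fun x => (hzero _).2 ⟨x, rfl⟩
  intro hfin
  obtain ⟨x, hx, hDx, hψ⟩ := exists_value p ψ hsurj hper hker N D hD hs hg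
    (hfin.image Prod.fst).toFinset
  obtain ⟨y, hy⟩ := (hzero _).1 hψ
  apply hx
  rw [Set.Finite.mem_toFinset]
  exact ⟨(x, y), ⟨hDx, hy⟩, rfl⟩

/-- elliptic curves in characteristic two -/
theorem infinite_elliptic {K : Type v} [Field K] [Infinite K] [CharP K 2]
    (hper : ∀ x : K, ∃ y : K, y ^ 2 = x)
    (hAS : ∃ S : Set K, S.Finite ∧ ∀ x : K, ∃ s ∈ S, ∃ y : K, x = s + (y ^ 2 - y))
    (W : WeierstrassCurve K) (hW : W.Δ ≠ 0) :
    {P : K × K | W.toAffine.Equation P.1 P.2}.Infinite := by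
  classical
  haveI : Fact (Nat.Prime 2) := ⟨Nat.prime_two⟩
  have h2 : (2 : K) = 0 := by
    have := CharP.cast_eq_zero K 2
    exact_mod_cast this
  have := finite_quotient 2 hAS
  let ψ : K →+ K ⧸ (wp K 2).range := QuotientAddGroup.mk' _
  have hsurj : Function.Surjective ψ := QuotientAddGroup.mk'_surjective _
  have hzero : ∀ x : K, ψ x = 0 ↔ ∃ y : K, y ^ 2 - y = x := by
    intro x
    rw [QuotientAddGroup.mk'_apply, QuotientAddGroup.eq_zero_iff]
    rfl
  have hker : ∀ x : K, ψ (x ^ 2 - x) = 0 := fun x => (hzero _).2 ⟨x, rfl⟩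
  -- polynomials of odd degree are not of the shape u ^ 2 - u + c
  have hodd : ∀ g : K[X], ¬ 2 ∣ g.natDegree → NT 2 g := by
    intro g hg u c hu
    apply hg
    rw [hu, natDegree_add_C]
    by_cases h0 : u.natDegree = 0
    · rw [natDegree_eq_zero] at h0
      obtain ⟨d, rfl⟩ := h0
      rw [← C_pow, ← C_sub, natDegree_C]
      exact dvd_zero 2
    · rw [natDegree_sub_eq_left_of_natDegree_lt, natDegree_pow]
      · exact Dvd.intro _ rfl
      · rw [natDegree_pow]
        omega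
  have key : ∃ (P : K[X]) (A : Finset K) (Q : K → K[X]), NT 2 P ∧ ∀ x ∉ A, ∀ y : K,
      y ^ 2 - y = P.eval x + ∑ a ∈ A, (Q a).eval ((x - a)⁻¹) →
      W.toAffine.Equation x ((W.a₁ * x + W.a₃) * y) := by
    by_cases h1 : W.a₁ = 0
    · have h3 : W.a₃ ≠ 0 := by
        intro h3
        apply hW
        simp only [WeierstrassCurve.Δ, WeierstrassCurve.b₂, WeierstrassCurve.b₄,
          WeierstrassCurve.b₆, WeierstrassCurve.b₈, h1, h3]
        linear_combination (-8 * W.a₂ ^ 2 * (4 * W.a₂ * W.a₆ - W.a₄ ^ 2) - 32 * W.a₄ ^ 3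
          - 216 * W.a₆ ^ 2 + 144 * W.a₂ * W.a₄ * W.a₆) * h2
      refine ⟨C ((W.a₃ ^ 2)⁻¹) * (X ^ 3 + C W.a₂ * X ^ 2 + C W.a₄ * X + C W.a₆), ∅, 0, ?_, ?_⟩
      · apply hodd
        have hne : (W.a₃ ^ 2)⁻¹ ≠ 0 := inv_ne_zero (pow_ne_zero 2 h3)
        rw [natDegree_C_mul hne]
        have : (X ^ 3 + C W.a₂ * X ^ 2 + C W.a₄ * X + C W.a₆ : K[X]).natDegree = 3 := by
          compute_degree!
        rw [this]
        norm_num
      · intro x _ y hy
        rw [Finset.sum_empty, add_zero] at hy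
        simp only [eval_mul, eval_C, eval_add, eval_pow, eval_X] at hy
        rw [WeierstrassCurve.Affine.equation_iff, h1]
        field_simp at hy
        linear_combination hy + W.a₃ ^ 2 * y * h2
    · set x₀ : K := - W.a₃ / W.a₁ with hx₀
      have ha : ∀ x : K, W.a₁ * x + W.a₃ = W.a₁ * (x - x₀) := by
        intro x
        rw [hx₀]
        field_simp
        ring
      -- Taylor coefficients of the cubic at x₀
      let c₂ : K := 3 * x₀ + W.a₂
      let c₁ : K := 3 * x₀ ^ 2 + 2 * W.a₂ * x₀ + W.a₄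
      let c₀ : K := x₀ ^ 3 + W.a₂ * x₀ ^ 2 + W.a₄ * x₀ + W.a₆
      refine ⟨C ((W.a₁ ^ 2)⁻¹) * (X - C x₀ + C c₂), {x₀},
        fun _ => C ((W.a₁ ^ 2)⁻¹) * (C c₁ * X + C c₀ * X ^ 2), ?_, ?_⟩
      · apply hodd
        have hne : (W.a₁ ^ 2)⁻¹ ≠ 0 := inv_ne_zero (pow_ne_zero 2 h1)
        rw [natDegree_C_mul hne]
        have : (X - C x₀ + C c₂ : K[X]).natDegree = 1 := by
          compute_degree!
        rw [this]
        norm_num
      · intro x hx y hy
        have hx' : x - x₀ ≠ 0 := sub_ne_zero.2 fun h => hx (Finset.mem_singleton.2 h)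
        rw [Finset.sum_singleton] at hy
        simp only [eval_mul, eval_C, eval_add, eval_sub, eval_pow, eval_X] at hy
        rw [WeierstrassCurve.Affine.equation_iff, ha x]
        have h5 : W.a₁ * x = W.a₁ * (x - x₀) - W.a₃ := by
          rw [← ha]
          ring
        field_simp at hy
        have h6 : x ^ 3 + W.a₂ * x ^ 2 + W.a₄ * x + W.a₆ =
            (x - x₀) ^ 3 + c₂ * (x - x₀) ^ 2 + c₁ * (x - x₀) + c₀ := by
          simp only [c₂, c₁, c₀]
          ring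
        rw [h6]
        have h7 : W.a₁ * x * (W.a₁ * (x - x₀) * y) + W.a₃ * (W.a₁ * (x - x₀) * y) =
            (W.a₁ * (x - x₀)) ^ 2 * y := by
          rw [h5]
          ring
        linear_combination h7 + hy + (W.a₁ * (x - x₀)) ^ 2 * y * h2
  obtain ⟨P, A, Q, hP, hE⟩ := key
  intro hfin
  obtain ⟨x, hxA, hxX, hx⟩ := pole_infty 2 ψ hsurj hper hker P hP A Q
    (hfin.image Prod.fst).toFinset
  obtain ⟨y, hy⟩ := (hzero _).1 hx
  apply hxX
  rw [Set.Finite.mem_toFinset]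
  exact ⟨(x, (W.a₁ * x + W.a₃) * y), hE x hxA y hy, rfl⟩

end Pool.MP_f30f9b_al.AS
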