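import Pool.Agent.H.MP_f30f9b_al.ASPoly

/-!
# Character sums of polynomials over finite subgroups
-/

set_option autoImplicit false

namespace Pool.MP_f30f9b_al.AS

open Polynomial ComplexConjugate

/-- sums over large finite subgroups (and their cosets) are small -/
def Small {K : Type*} [AddCommGroup K] (f : K → ℂ) : Prop :=
  ∀ ε : ℝ, 0 < ε → ∃ S₀ : Finset K, ∀ (U : AddSubgroup K) [Fintype U], (∀ s ∈ S₀, s ∈ U) →
    ∀ x₀ : K, ‖∑ u : U, f (x₀ + u)‖ ≤ ε * Fintype.card U

theorem Small.translate {K : Type*} [AddCommGroup K] {f : K → ℂ} (hf : Small f) (h : K) :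
    Small fun x => f (x + h) := by
  intro ε hε
  obtain ⟨S₀, hS₀⟩ := hf ε hε
  refine ⟨S₀, fun U _ hU x₀ => ?_⟩
  have h1 := hS₀ U hU (x₀ + h)
  have h2 : ∑ u : U, f (x₀ + u + h) = ∑ u : U, f (x₀ + h + u) :=
    Finset.sum_congr rfl fun u _ => by rw [add_right_comm]
  rw [h2]
  exact h1

/-- van der Corput -/
theorem vdc {K : Type*} [AddCommGroup K] (f : K → ℂ) (hf : ∀ x, ‖f x‖ ≤ 1)
    (H : ∀ N : ℕ, ∃ h : Fin N → K, ∀ i j, i ≠ j →
      Small fun x => f (x + h i) * conj (f (x + h j))) : Small f := by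
  classical
  intro ε hε
  obtain ⟨N, hN⟩ := exists_nat_gt (2 / ε ^ 2)
  have hε2 : 0 < ε ^ 2 := by positivity
  have hN0 : (0 : ℝ) < N := lt_trans (by positivity) hN
  have hN1 : 1 / (N : ℝ) ≤ ε ^ 2 / 2 := by
    rw [div_le_div_iff₀ hN0 two_pos]
    rw [div_lt_iff₀ hε2] at hN
    linarith
  obtain ⟨h, hh⟩ := H N
  choose S hS using fun (i j : Fin N) (hij : i ≠ j) => hh i j hij (ε ^ 2 / 2) (by positivity)
  refine ⟨Finset.univ.image h ∪ Finset.univ.biUnion fun i => Finset.univ.biUnion fun j =>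
    if hij : i ≠ j then S i j hij else ∅, fun U _ hU x₀ => ?_⟩
  have hhU : ∀ i, h i ∈ U := fun i => hU _ (Finset.mem_union_left _
    (Finset.mem_image_of_mem h (Finset.mem_univ i)))
  have hSU : ∀ i j (hij : i ≠ j), ∀ s ∈ S i j hij, s ∈ U := by
    intro i j hij s hs
    refine hU s (Finset.mem_union_right _ ?_)
    refine Finset.mem_biUnion.2 ⟨i, Finset.mem_univ i, Finset.mem_biUnion.2
      ⟨j, Finset.mem_univ j, ?_⟩⟩
    rw [dif_pos hij]
    exact hs
  set n : ℝ := (Fintype.card U : ℝ) with hn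
  have hn0 : 0 < n := by
    rw [hn]
    exact_mod_cast Fintype.card_pos
  set Z : ℂ := ∑ u : U, f (x₀ + u) with hZ
  have hshift : ∀ i, ∑ u : U, f (x₀ + u + h i) = Z := by
    intro i
    rw [hZ]
    refine Fintype.sum_equiv (Equiv.addRight (⟨h i, hhU i⟩ : U)) _ _ fun u => ?_
    simp [add_assoc]
  let b : U → ℂ := fun u => ∑ i, f (x₀ + u + h i)
  have hb : ∑ u, b u = N * Z := by
    simp only [b]
    rw [Finset.sum_comm, Finset.sum_congr rfl fun i _ => hshift i]
    simp
  -- the sum of the squares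
  let R : ℝ := ∑ u, ‖b u‖ ^ 2
  have hR : (R : ℂ) = ∑ i, ∑ j, ∑ u : U, f (x₀ + u + h i) * conj (f (x₀ + u + h j)) := by
    simp only [R, Complex.ofReal_sum, Complex.ofReal_pow]
    rw [Finset.sum_comm_cycle]
    refine Finset.sum_congr rfl fun u _ => ?_
    rw [← Complex.mul_conj', ]
    simp only [b, map_sum]
    rw [Finset.sum_mul_sum]
  have hR1 : R ≤ N * n + N ^ 2 * (ε ^ 2 / 2) * n := by
    have h1 : R = ‖(R : ℂ)‖ := by
      rw [Complex.norm_real, Real.norm_of_nonneg]
      exact Finset.sum_nonneg fun u _ => by positivity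
    rw [h1, hR]
    refine (norm_sum_le _ _).trans ?_
    have h2 : ∀ i : Fin N, ‖∑ j, ∑ u : U, f (x₀ + u + h i) * conj (f (x₀ + u + h j))‖ ≤
        n + N * ((ε ^ 2 / 2) * n) := by
      intro i
      refine (norm_sum_le _ _).trans ?_
      have h3 : ∀ j : Fin N, ‖∑ u : U, f (x₀ + u + h i) * conj (f (x₀ + u + h j))‖ ≤
          (if i = j then n else 0) + (ε ^ 2 / 2) * n := by
        intro j
        by_cases hij : i = j
        · rw [if_pos hij]
          refine (norm_sum_le _ _).trans ?_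
          have h4 : ∀ u : U, ‖f (x₀ + u + h i) * conj (f (x₀ + u + h j))‖ ≤ 1 := by
            intro u
            rw [norm_mul, RCLike.norm_conj]
            exact mul_le_one₀ (hf _) (norm_nonneg _) (hf _)
          refine (Finset.sum_le_sum fun u _ => h4 u).trans ?_
          rw [Finset.sum_const, Finset.card_univ, nsmul_eq_mul, mul_one, ← hn]
          have : 0 < ε ^ 2 / 2 * n := by positivity
          linarith
        · rw [if_neg hij, zero_add]
          exact hS i j hij U (hSU i j hij) x₀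
      refine (Finset.sum_le_sum fun j _ => h3 j).trans ?_
      rw [Finset.sum_add_distrib, Finset.sum_ite_eq, if_pos (Finset.mem_univ i)]
      simp
    refine (Finset.sum_le_sum fun i _ => h2 i).trans ?_
    simp only [Finset.sum_const, Finset.card_univ, Fintype.card_fin, nsmul_eq_mul]
    nlinarith
  have h1 : ‖(N : ℂ) * Z‖ ^ 2 ≤ n * R := by
    rw [← hb]
    have h2 := norm_sum_le (Finset.univ : Finset U) b
    have h3 : ‖∑ u, b u‖ ^ 2 ≤ (∑ u, ‖b u‖) ^ 2 := by
      gcongr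
    refine h3.trans ?_
    have h4 := sq_sum_le_card_mul_sum_sq (s := (Finset.univ : Finset U)) (f := fun u => ‖b u‖)
    rw [Finset.card_univ] at h4
    exact h4
  rw [norm_mul, Complex.norm_natCast, mul_pow] at h1
  have h2 : (N : ℝ) ^ 2 * ‖Z‖ ^ 2 ≤ n * (N * n + N ^ 2 * (ε ^ 2 / 2) * n) :=
    h1.trans (mul_le_mul_of_nonneg_left hR1 hn0.le)
  have h3 : ‖Z‖ ^ 2 ≤ (ε * n) ^ 2 := by
    have h4 : (N : ℝ) ^ 2 * ‖Z‖ ^ 2 ≤ (N : ℝ) ^ 2 * (ε * n) ^ 2 := by
      refine h2.trans ?_
      have h5 : n * (N * n + N ^ 2 * (ε ^ 2 / 2) * n) = N ^ 2 * n ^ 2 * (1 / N + ε ^ 2 / 2) := by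
        field_simp
      rw [h5]
      have h6 : N ^ 2 * n ^ 2 * (1 / N + ε ^ 2 / 2) ≤ N ^ 2 * n ^ 2 * (ε ^ 2 / 2 + ε ^ 2 / 2) := by
        gcongr
      refine h6.trans (le_of_eq ?_)
      ring
    exact le_of_mul_le_mul_left h4 (by positivity)
  exact le_of_sq_le_sq h3 (by positivity)

section Poly

variable {K F : Type*} [Field K] [Infinite K] (p : ℕ) [Fact p.Prime] [CharP K p]
  [AddCommGroup F] [Finite F] (ψ : K →+ F) (hsurj : Function.Surjective ψ)
  (hper : ∀ x : K, ∃ y : K, y ^ p = x) (hker : ∀ x : K, ψ (x ^ p - x) = 0)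

include hsurj hper hker

theorem small_of_NT (χ : AddChar F ℂ) (hχ : χ ≠ 0) : ∀ (n : ℕ) (g : K[X]), g.natDegree ≤ n →
    NT p g → Small fun x => χ (ψ (g.eval x)) := by
  classical
  have hnorm : ∀ v : F, ‖χ v‖ = 1 := fun v => χ.norm_apply v
  intro n
  induction n using Nat.strong_induction_on with
  | _ n ih =>
  intro g hg hNT
  obtain ⟨g', u, hgu, hdeg, hg'⟩ := exists_reduced p hper _ g le_rfl
  have heq : (fun x => χ (ψ (g.eval x))) = fun x => χ (ψ (g'.eval x)) := by
    funext x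
    rw [hgu, eval_add, eval_sub, eval_pow, map_add, hker, add_zero]
  have hNT' : NT p g' := by
    intro u' c hu'
    apply hNT (u' + u) c
    rw [hgu, hu', add_pow_char]
    ring
  rw [heq]
  have h0 : g'.natDegree ≠ 0 := by
    intro h0
    rw [natDegree_eq_zero] at h0
    obtain ⟨c, hc⟩ := h0
    apply hNT' 0 c
    rw [zero_pow (Fact.out : p.Prime).ne_zero, sub_zero, zero_add, hc]
  have hpd : ¬ p ∣ g'.natDegree := hg'.resolve_left h0
  by_cases h1 : g'.natDegree = 1
  · -- degree one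
    obtain ⟨a, b, hab⟩ := exists_eq_X_add_C_of_natDegree_le_one h1.le
    have ha : a ≠ 0 := by
      rintro rfl
      rw [hab, C_0, zero_mul, zero_add, natDegree_C] at h1
      exact zero_ne_one h1
    obtain ⟨v, hv⟩ : ∃ v, χ v ≠ 1 := AddChar.ne_one_iff.1 hχ
    obtain ⟨z, rfl⟩ := hsurj v
    intro ε hε
    refine ⟨{z / a}, fun U _ hU x₀ => ?_⟩
    have hz : z / a ∈ U := hU _ (Finset.mem_singleton_self _)
    have h2 : ∑ x : U, χ (ψ (g'.eval (x₀ + x))) =
        χ (ψ z) * ∑ x : U, χ (ψ (g'.eval (x₀ + x))) := by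
      rw [Finset.mul_sum]
      symm
      refine Fintype.sum_equiv (Equiv.addRight (⟨z / a, hz⟩ : U)) _ _ fun x => ?_
      rw [← AddChar.map_add_eq_mul, ← map_add]
      congr 2
      rw [hab]
      simp only [eval_add, eval_mul, eval_C, eval_X, Equiv.coe_addRight, AddSubgroup.coe_add]
      field_simp
      ring
    have h3 : ∑ x : U, χ (ψ (g'.eval (x₀ + x))) = 0 := by
      have h4 : (1 - χ (ψ z)) * ∑ x : U, χ (ψ (g'.eval (x₀ + x))) = 0 := by
        rw [sub_mul, one_mul, ← h2, sub_self]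
      exact (mul_eq_zero.1 h4).resolve_left (sub_ne_zero.2 hv.symm)
    rw [h3, norm_zero]
    positivity
  · have hm : 2 ≤ g'.natDegree := by omega
    obtain ⟨Bad, hBad⟩ := step p g' hm hpd
    obtain ⟨s, -, hs⟩ := exists_seq_of_forall_finset_exists (fun _ : K => True)
      (fun x y => x - y ∉ Bad ∧ y - x ∉ Bad) (fun t _ => by
        obtain ⟨y, hy⟩ := Infinite.exists_notMem_finset
          ((t ×ˢ Bad).image (fun q => q.1 - q.2) ∪ (t ×ˢ Bad).image (fun q => q.1 + q.2))
        rw [Finset.mem_union, not_or] at hy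
        refine ⟨y, trivial, fun x hx => ⟨fun h2 => hy.1 ?_, fun h2 => hy.2 ?_⟩⟩
        · exact Finset.mem_image.2 ⟨(x, x - y), Finset.mem_product.2 ⟨hx, h2⟩, by simp⟩
        · exact Finset.mem_image.2 ⟨(x, y - x), Finset.mem_product.2 ⟨hx, h2⟩, by simp⟩)
    refine vdc _ (fun x => (hnorm _).le) fun N => ⟨fun i => s i, fun i j hij => ?_⟩
    have hb : s i - s j ∉ Bad := by
      rcases lt_or_gt_of_ne (fun h => hij (Fin.ext h) : (i : ℕ) ≠ j) with h | h
      · exact (hs i j h).1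
      · exact (hs j i h).2
    obtain ⟨h2, h3⟩ := hBad _ hb
    have h4 := (ih _ (lt_of_lt_of_le h3 (hdeg.trans hg)) _ le_rfl h2).translate (s j)
    refine cast (congrArg Small (funext fun x => ?_)) h4
    rw [eval_sub, taylor_eval, ← AddChar.map_neg_eq_conj, ← AddChar.map_add_eq_mul, ← map_neg,
      ← map_add]
    congr 3
    rw [← sub_eq_add_neg]
    congr 2
    ring

/-- a nontrivial polynomial takes values in the kernel of `ψ` -/
theorem exists_zero (g : K[X]) (hg : NT p g) : ∃ z : K, ψ (g.eval z) = 0 := by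
  classical
  by_contra hno
  push Not at hno
  cases nonempty_fintype F
  set q : ℝ := (Fintype.card F : ℝ) with hq
  have hq0 : 0 < q := by
    rw [hq]
    exact_mod_cast Fintype.card_pos
  choose S hS using fun (χ : AddChar F ℂ) (hχ : χ ≠ 0) =>
    small_of_NT p ψ hsurj hper hker χ hχ _ g le_rfl hg (1 / (2 * q)) (by positivity)
  let S' : Finset K := Finset.univ.biUnion fun χ : AddChar F ℂ =>
    if hχ : χ ≠ 0 then S χ hχ else ∅
  let _ := ZMod.algebra K p
  let V := Submodule.span (ZMod p) (S' : Set K)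
  have : Module.Finite (ZMod p) V := Module.Finite.span_of_finite _ S'.finite_toSet
  have : Finite V := Module.finite_of_finite (ZMod p)
  let U : AddSubgroup K := V.toAddSubgroup
  have : Finite U := this
  let _ : Fintype U := Fintype.ofFinite U
  have hU : ∀ s ∈ S', s ∈ U := fun s hs => Submodule.subset_span hs
  have hU' : ∀ (χ : AddChar F ℂ) (hχ : χ ≠ 0), ∀ s ∈ S χ hχ, s ∈ U := by
    intro χ hχ s hs
    refine hU s (Finset.mem_biUnion.2 ⟨χ, Finset.mem_univ χ, ?_⟩)
    rw [dif_pos hχ]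
    exact hs
  have h1 : ∑ u : U, ∑ χ : AddChar F ℂ, χ (ψ (g.eval (0 + u))) = 0 := by
    refine Finset.sum_eq_zero fun u _ => ?_
    rw [AddChar.sum_apply_eq_ite, if_neg (hno _)]
  rw [Finset.sum_comm, ← Finset.add_sum_erase _ _ (Finset.mem_univ (0 : AddChar F ℂ))] at h1
  have h2 : ∑ u : U, (0 : AddChar F ℂ) (ψ (g.eval (0 + u))) = Fintype.card U := by
    simp
  rw [h2] at h1
  have h3 : ‖∑ χ ∈ Finset.univ.erase (0 : AddChar F ℂ), ∑ u : U, χ (ψ (g.eval (0 + u)))‖ ≤
      q * (1 / (2 * q) * Fintype.card U) := by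
    refine (norm_sum_le _ _).trans ?_
    refine (Finset.sum_le_sum (g := fun _ => 1 / (2 * q) * (Fintype.card U : ℝ))
      fun χ hχ => hS χ (Finset.ne_of_mem_erase hχ) U (hU' χ _) 0).trans ?_
    rw [Finset.sum_const, nsmul_eq_mul]
    refine mul_le_mul_of_nonneg_right ?_ (by positivity)
    rw [hq, ← AddChar.card_eq (α := F)]
    exact_mod_cast Finset.card_le_univ _
  have h4 : ‖((Fintype.card U : ℕ) : ℂ)‖ = ‖∑ χ ∈ Finset.univ.erase (0 : AddChar F ℂ),
      ∑ u : U, χ (ψ (g.eval (0 + u)))‖ := by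
    rw [← norm_neg]
    congr 1
    exact neg_eq_of_add_eq_zero_right h1
  rw [← h4, Complex.norm_natCast] at h3
  have h5 : (0 : ℝ) < Fintype.card U := by exact_mod_cast Fintype.card_pos
  have h6 : q * (1 / (2 * q) * (Fintype.card U : ℝ)) = Fintype.card U / 2 := by
    field_simp
  rw [h6] at h3
  linarith

end Poly

end Pool.MP_f30f9b_al.AS
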