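import Pool.Agent.H.MP_f30f9b_al.ASSmall
import Pool.Agent.H.MP_f30f9b_al.ASSum

/-!
# Partial fractions with rational poles
-/

set_option autoImplicit false

namespace Pool.MP_f30f9b_al.AS

open Polynomial

variable {K F : Type*} [Field K] [Infinite K] (p : ℕ) [Fact p.Prime] [CharP K p]
  [AddCommGroup F] [Finite F] (ψ : K →+ F) (hsurj : Function.Surjective ψ)
  (hper : ∀ x : K, ∃ y : K, y ^ p = x) (hker : ∀ x : K, ψ (x ^ p - x) = 0)

omit [Infinite K] [Finite F] in
theorem eval_of_small (f : K[X]) (M : ℕ) (hM : f.natDegree ≤ M) (y : K)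
    (h : ∀ k < M, ψ (f.coeff (k + 1) * y ^ (k + 1)) = 0) : ψ (f.eval y) = ψ (f.coeff 0) := by
  rw [eval_eq_sum_range' (Nat.lt_succ_of_le hM), Finset.sum_range_succ', map_add, map_sum,
    Finset.sum_eq_zero, zero_add, pow_zero, mul_one]
  intro k hk
  exact h k (Finset.mem_range.1 hk)

omit [Infinite K] [Fact p.Prime] [CharP K p] in
theorem NT.add_C {p : ℕ} {g : K[X]} (h : NT p g) (c : K) : NT p (g + C c) := by
  intro u c' hu
  apply h u (c' - c)
  rw [C_sub]
  linear_combination hu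

include hsurj hper hker

theorem pole_infty (P : K[X]) (hP : NT p P) (A : Finset K) (Q : K → K[X]) (X₀ : Finset K) :
    ∃ x : K, x ∉ A ∧ x ∉ X₀ ∧ ψ (P.eval x + ∑ a ∈ A, (Q a).eval ((x - a)⁻¹)) = 0 := by
  classical
  obtain ⟨z, hz⟩ := exists_zero p ψ hsurj hper hker (P + C (∑ a ∈ A, (Q a).coeff 0))
    (hP.add_C _)
  let M : ℕ := P.natDegree + ∑ a ∈ A, (Q a).natDegree
  have hMP : (taylor z P).natDegree ≤ M := by
    rw [natDegree_taylor]
    exact Nat.le_add_right _ _
  have hMQ : ∀ a ∈ A, (Q a).natDegree ≤ M := fun a ha =>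
    (Finset.single_le_sum (f := fun a => (Q a).natDegree) (fun _ _ => Nat.zero_le _) ha).trans
      (Nat.le_add_left _ _)
  obtain ⟨x', hx', h1, h2⟩ := exists_small ψ ((A ∪ X₀).image fun a => a - z)
    ((Finset.range M).image (fun k => (taylor z P).coeff (k + 1)) ∪
      A.biUnion fun a => (Finset.range M).image fun k => (Q a).coeff (k + 1)) M
  have hx : ∀ a ∈ A ∪ X₀, z + x' ≠ a := by
    intro a ha h3
    exact hx' (Finset.mem_image.2 ⟨a, ha, by rw [← h3]; ring⟩)
  refine ⟨z + x', fun h => hx _ (Finset.mem_union_left _ h) rfl,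
    fun h => hx _ (Finset.mem_union_right _ h) rfl, ?_⟩
  have e1 : ψ (P.eval (z + x')) = ψ (P.eval z) := by
    have h3 := eval_of_small ψ (taylor z P) M hMP x' fun k hk => h2 _
      (Finset.mem_union_left _ (Finset.mem_image.2 ⟨k, Finset.mem_range.2 hk, rfl⟩)) k hk
    rw [taylor_eval, taylor_coeff_zero, add_comm] at h3
    exact h3
  have e2 : ∀ a ∈ A, ψ ((Q a).eval ((z + x' - a)⁻¹)) = ψ ((Q a).coeff 0) := by
    intro a ha
    refine eval_of_small ψ (Q a) M (hMQ a ha) _ fun k hk => ?_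
    have h3 := h1 (a - z) (Finset.mem_image.2 ⟨a, Finset.mem_union_left _ ha, rfl⟩)
      ((Q a).coeff (k + 1)) (Finset.mem_union_right _ (Finset.mem_biUnion.2
        ⟨a, ha, Finset.mem_image.2 ⟨k, Finset.mem_range.2 hk, rfl⟩⟩)) k hk
    rw [← h3]
    congr 4
    ring
  rw [map_add, map_sum, e1, Finset.sum_congr rfl e2, ← map_sum, ← map_add, ← hz, eval_add, eval_C]

/-- Partial fractions whose poles are all rational: infinitely many values in the kernel. -/
theorem pole_any (P : K[X]) (A : Finset K) (Q : K → K[X])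
    (hPQ : NT p P ∨ ∃ a ∈ A, NT p (Q a)) (X₀ : Finset K) :
    ∃ x : K, x ∉ A ∧ x ∉ X₀ ∧ ψ (P.eval x + ∑ a ∈ A, (Q a).eval ((x - a)⁻¹)) = 0 := by
  classical
  rcases hPQ with hP | ⟨a₀, ha₀, hQ⟩
  · exact pole_infty p ψ hsurj hper hker P hP A Q X₀
  let A' : Finset K := (A.erase a₀).image fun b => (b - a₀)⁻¹
  have hA'0 : (0 : K) ∉ A' := by
    intro h0
    obtain ⟨b, hb, hb0⟩ := Finset.mem_image.1 h0
    rw [inv_eq_zero, sub_eq_zero] at hb0
    exact Finset.ne_of_mem_erase hb hb0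
  let Q' : K → K[X] := fun e => if e = 0 then P.comp (X + C a₀) else
    (Q (a₀ + e⁻¹)).comp (C (-e) - C (e ^ 2) * X)
  obtain ⟨s, hsA, hsX, hs⟩ := pole_infty p ψ hsurj hper hker (Q a₀) hQ (insert 0 A') Q'
    (X₀.image fun b => (b - a₀)⁻¹)
  rw [Finset.mem_insert, not_or] at hsA
  have hs0 : s ≠ 0 := hsA.1
  have hinv : ∀ b : K, a₀ + s⁻¹ = b → s = (b - a₀)⁻¹ := by
    intro b hb
    rw [← hb]
    simp
  have hxA : a₀ + s⁻¹ ∉ A := by
    intro hx
    refine hsA.2 (Finset.mem_image.2 ⟨a₀ + s⁻¹, Finset.mem_erase.2 ⟨?_, hx⟩, ?_⟩)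
    · intro h1
      apply hs0
      have : s⁻¹ = 0 := by linear_combination h1
      exact inv_eq_zero.1 this
    · exact (hinv _ rfl).symm
  refine ⟨a₀ + s⁻¹, hxA, ?_, ?_⟩
  · intro hx
    exact hsX (Finset.mem_image.2 ⟨a₀ + s⁻¹, hx, (hinv _ rfl).symm⟩)
  · rw [← hs]
    congr 1
    rw [Finset.sum_insert hA'0, ← Finset.add_sum_erase A _ ha₀]
    have e1 : (Q a₀).eval ((a₀ + s⁻¹ - a₀)⁻¹) = (Q a₀).eval s := by
      congr 1
      simp
    have e2 : (Q' 0).eval ((s - 0)⁻¹) = P.eval (a₀ + s⁻¹) := by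
      simp only [Q', if_true, eval_comp, eval_add, eval_X, eval_C, sub_zero]
      rw [add_comm]
    have e3 : ∑ e ∈ A', (Q' e).eval ((s - e)⁻¹) =
        ∑ a ∈ A.erase a₀, (Q a).eval ((a₀ + s⁻¹ - a)⁻¹) := by
      rw [Finset.sum_image]
      · refine Finset.sum_congr rfl fun b hb => ?_
        have hb0 : b - a₀ ≠ 0 := sub_ne_zero.2 (Finset.ne_of_mem_erase hb)
        have hsb : s - (b - a₀)⁻¹ ≠ 0 := by
          intro h1
          exact hsA.2 (Finset.mem_image.2 ⟨b, hb, (sub_eq_zero.1 h1).symm⟩)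
        have hxb : a₀ + s⁻¹ - b ≠ 0 := by
          intro h1
          apply hxA
          rw [sub_eq_zero.1 h1]
          exact Finset.mem_of_mem_erase hb
        simp only [Q', inv_eq_zero, hb0, if_false, eval_comp, eval_sub, eval_mul, eval_C, eval_X,
          inv_inv]
        rw [show a₀ + (b - a₀) = b by ring]
        congr 1
        have h2 : a₀ + s⁻¹ - b = (1 - (b - a₀) * s) / s := by
          field_simp
          ring
        have h3 : s - (b - a₀)⁻¹ = -(1 - (b - a₀) * s) / (b - a₀) := by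
          field_simp
          ring
        have h4 : 1 - (b - a₀) * s ≠ 0 := by
          intro h5
          rw [h2, h5, zero_div] at hxb
          exact hxb rfl
        rw [h2, h3]
        field_simp
        ring
      · intro b hb b' hb' h1
        have h2 := inv_injective h1
        linear_combination h2
    rw [e1, e2, e3]
    ring

end Pool.MP_f30f9b_al.AS
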