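import Mathlib

/-!
# Polynomials modulo `u ^ p - u`
-/

set_option autoImplicit false

namespace Pool.MP_f30f9b_al.AS

open Polynomial

/-- `g` is not of the shape `u ^ p - u + c` -/
def NT {K : Type*} [Field K] (p : ℕ) (g : K[X]) : Prop :=
  ∀ (u : K[X]) (c : K), g ≠ u ^ p - u + C c

variable {K : Type*} [Field K] (p : ℕ) [Fact p.Prime] [CharP K p]

include p in
theorem coeff_pow_char (u : K[X]) (n : ℕ) :
    (u ^ p).coeff n = if p ∣ n then (u.coeff (n / p)) ^ p else 0 := by
  have hp : 0 < p := (Fact.out : p.Prime).pos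
  rw [← map_frobenius_expand, coeff_map, coeff_expand hp]
  split_ifs
  · rfl
  · exact map_zero _

/-- reduction of the degree to a number prime to `p` -/
theorem exists_reduced (hper : ∀ x : K, ∃ y : K, y ^ p = x) : ∀ (n : ℕ) (g : K[X]),
    g.natDegree ≤ n → ∃ g' u : K[X], g = g' + (u ^ p - u) ∧ g'.natDegree ≤ g.natDegree ∧
      (g'.natDegree = 0 ∨ ¬ p ∣ g'.natDegree) := by
  have hp : p.Prime := Fact.out
  intro n
  induction n with
  | zero =>
    intro g hg
    refine ⟨g, 0, ?_, le_rfl, Or.inl (Nat.le_zero.1 hg)⟩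
    rw [zero_pow hp.ne_zero, sub_zero, add_zero]
  | succ n ih =>
    intro g hg
    by_cases hn : g.natDegree ≤ n
    · exact ih g hn
    have hgn : g.natDegree = n + 1 := by omega
    by_cases hd : p ∣ g.natDegree
    · obtain ⟨q, hq⟩ := hd
      have hq1 : 1 ≤ q := by
        rcases Nat.eq_zero_or_pos q with h | h
        · rw [h, mul_zero] at hq
          omega
        · exact h
      have hqn : q ≤ n := by
        have h2 : 2 * q ≤ p * q := Nat.mul_le_mul_right q hp.two_le
        omega
      obtain ⟨y, hy⟩ := hper g.leadingCoeff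
      have hv : (C y * X ^ q) ^ p = C g.leadingCoeff * X ^ g.natDegree := by
        rw [mul_pow, ← C_pow, hy, ← pow_mul, hq, mul_comm q p]
      have hg1 : g - ((C y * X ^ q) ^ p - C y * X ^ q) = g.eraseLead + C y * X ^ q := by
        rw [hv]
        have := g.eraseLead_add_C_mul_X_pow
        linear_combination -this
      obtain ⟨g', u, h1, h2, h3⟩ := ih (g.eraseLead + C y * X ^ q) (by
        refine (natDegree_add_le _ _).trans (max_le ?_ ?_)
        · refine (eraseLead_natDegree_le g).trans ?_
          omega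
        · exact (natDegree_C_mul_X_pow_le y q).trans hqn)
      refine ⟨g', u + C y * X ^ q, ?_, ?_, h3⟩
      · rw [add_pow_char]
        rw [← hg1] at h1
        linear_combination h1
      · refine h2.trans ?_
        refine (natDegree_add_le _ _).trans (max_le ?_ ?_)
        · exact (eraseLead_natDegree_le g).trans (Nat.sub_le _ _)
        · refine (natDegree_C_mul_X_pow_le y q).trans ?_
          omega
    · refine ⟨g, 0, ?_, le_rfl, Or.inr hd⟩
      rw [zero_pow hp.ne_zero, sub_zero, add_zero]

/-- differences of a polynomial of degree prime to `p` are again nontrivial -/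
theorem step (g : K[X]) (hm : 2 ≤ g.natDegree) (hpm : ¬ p ∣ g.natDegree) :
    ∃ Bad : Finset K, ∀ h ∉ Bad, NT p (taylor h g - g) ∧
      (taylor h g - g).natDegree < g.natDegree := by
  classical
  have hp : p.Prime := Fact.out
  obtain ⟨a, m', hpm', hm'⟩ := Nat.exists_eq_pow_mul_and_not_dvd
    (n := g.natDegree - 1) (by omega) p hp.ne_one
  have hm'0 : m' ≠ 0 := by
    rintro rfl
    exact hpm' (dvd_zero p)
  let D : ℕ → K[X] := fun j => hasseDeriv (p ^ j * m') g - C (g.coeff (p ^ j * m'))
  let T : ℕ → K[X] := fun j => Nat.rec (D 0) (fun j t => t ^ p + D (j + 1)) j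
  have hT0 : T 0 = D 0 := rfl
  have hTs : ∀ j, T (j + 1) = T j ^ p + D (j + 1) := fun j => rfl
  have hTa : (T a).coeff 1 = (D a).coeff 1 := by
    rcases a with _ | a
    · rfl
    · rw [hTs, coeff_add, coeff_pow_char p, if_neg, zero_add]
      intro h1
      exact hp.one_lt.ne' (Nat.dvd_one.1 h1)
  have hDa : (D a).coeff 1 = (g.natDegree : K) * g.leadingCoeff := by
    simp only [D]
    rw [← hm', coeff_sub, coeff_C, if_neg one_ne_zero, sub_zero, hasseDeriv_coeff]
    have h1 : 1 + (g.natDegree - 1) = g.natDegree := by omega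
    rw [h1, Nat.choose_symm_of_eq_add (by omega : g.natDegree = (g.natDegree - 1) + 1),
      Nat.choose_one_right]
    rfl
  have hg0 : g ≠ 0 := by
    rintro rfl
    simp at hm
  have hT : T a ≠ 0 := by
    intro h0
    rw [h0, coeff_zero, hDa] at hTa
    rcases mul_eq_zero.1 hTa.symm with h1 | h1
    · exact hpm ((CharP.cast_eq_zero_iff K p _).1 h1)
    · exact hg0 (leadingCoeff_eq_zero.1 h1)
  refine ⟨(T a).roots.toFinset, fun h hh => ?_⟩
  have hTh : (T a).eval h ≠ 0 := by
    intro h0
    apply hh
    rw [Multiset.mem_toFinset, mem_roots hT]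
    exact h0
  have hdeg : (taylor h g - g).natDegree < g.natDegree := by
    refine lt_of_le_of_ne ?_ ?_
    · exact (natDegree_sub_le _ _).trans (max_le (natDegree_taylor g h).le le_rfl)
    · intro h1
      have h2 : (taylor h g - g).coeff g.natDegree = 0 := by
        rw [coeff_sub, coeff_taylor_natDegree]
        exact sub_self _
      rw [← h1] at h2
      have h3 := leadingCoeff_eq_zero.1 h2
      rw [h3, natDegree_zero] at h1
      omega
  refine ⟨fun u c hu => ?_, hdeg⟩
  have key : ∀ j, (T j).eval h = - u.coeff (p ^ j * m') := by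
    intro j
    have hD : ∀ j, (D j).eval h = (u ^ p).coeff (p ^ j * m') - u.coeff (p ^ j * m') := by
      intro j
      have h1 := congrArg (fun q => q.coeff (p ^ j * m')) hu
      simp only [coeff_sub, coeff_add] at h1
      rw [taylor_coeff, coeff_C, if_neg (mul_ne_zero (pow_ne_zero _ hp.ne_zero) hm'0),
        add_zero] at h1
      simp only [D, eval_sub, eval_C]
      exact h1
    induction j with
    | zero =>
      rw [hT0, hD, coeff_pow_char p, pow_zero, one_mul, if_neg hpm', zero_sub]
    | succ j ih =>
      rw [hTs, eval_add, eval_pow, ih, hD, coeff_pow_char p]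
      have h1 : p ^ (j + 1) * m' = p * (p ^ j * m') := by ring
      rw [h1, if_pos (Dvd.intro _ rfl), Nat.mul_div_cancel_left _ hp.pos]
      have h2 : (- u.coeff (p ^ j * m')) ^ p = - (u.coeff (p ^ j * m')) ^ p :=
        map_neg (frobenius K p) (u.coeff (p ^ j * m'))
      rw [h2]
      ring
  have hu0 : u.coeff (g.natDegree - 1) = 0 := by
    by_contra hne
    have h1 : g.natDegree - 1 ≤ u.natDegree := le_natDegree_of_ne_zero hne
    have h2 : (u ^ p - u + C c).natDegree = p * u.natDegree := by
      rw [natDegree_add_C, natDegree_sub_eq_left_of_natDegree_lt, natDegree_pow]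
      rw [natDegree_pow]
      have : 2 * u.natDegree ≤ p * u.natDegree := Nat.mul_le_mul_right _ hp.two_le
      omega
    rw [← hu] at h2
    have h3 : 2 * u.natDegree ≤ p * u.natDegree := Nat.mul_le_mul_right _ hp.two_le
    omega
  have h1 := key a
  rw [← hm', hu0, neg_zero] at h1
  exact hTh h1

end Pool.MP_f30f9b_al.AS
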