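import Pool.Agent.H.MP_f30f9b_al.ASHJ

/-!
# Points close to infinity for an additive colouring
-/

set_option autoImplicit false

namespace Pool.MP_f30f9b_al.AS

/-- `K` infinite, `ψ : K →+ F` with `F` finite: there is `x ∉ A` such that `ψ` kills
`b / (x - a) ^ k` and `b * x ^ k` for `a ∈ A`, `b ∈ B`, `1 ≤ k ≤ M`. -/
theorem exists_small {K F : Type*} [Field K] [Infinite K] [AddCommGroup F] [Finite F]
    (ψ : K →+ F) (A B : Finset K) (M : ℕ) :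
    ∃ x : K, x ∉ A ∧ (∀ a ∈ A, ∀ b ∈ B, ∀ k < M, ψ (b * ((x - a)⁻¹) ^ (k + 1)) = 0) ∧
      ∀ b ∈ B, ∀ k < M, ψ (b * x ^ (k + 1)) = 0 := by
  classical
  obtain ⟨Λ, hΛ0, hΛ⟩ := core ψ Unit (fun _ => 0) B M
  obtain ⟨Λ', hΛ0', hΛ'⟩ := core ψ (A × Λ) (fun s => (s.1 : K) / (s.2 : K)) (B × Λ) M
  obtain ⟨t, d, hd, ht, h1⟩ := hΛ' fun j k ℓ =>
    (-1) ^ (k + 1) * (j.1 : K) * ((j.2 : K)⁻¹) ^ (k + 1) / ℓ ^ (k + 1)
  have hd0 := hΛ0' d hd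
  obtain ⟨-, l, hl, -, h2⟩ := hΛ fun b k _ => (b : K) * (-t / d) ^ (k + 1)
  have hl0 := hΛ0 l hl
  have hx : ∀ a : K, l * (-t / d) - a = -(l * (t + a / l * d)) / d := by
    intro a
    field_simp
    ring
  refine ⟨l * (-t / d), ?_, ?_, ?_⟩
  · intro hA
    have h3 := ht (⟨_, hA⟩, ⟨l, hl⟩)
    have h4 := hx (l * (-t / d))
    rw [sub_self] at h4
    have h5 := (div_eq_zero_iff.1 h4.symm).resolve_right hd0
    rw [neg_eq_zero] at h5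
    exact mul_ne_zero hl0 h3 h5
  · intro a ha b hb k hk
    have h3 := h1 (⟨a, ha⟩, ⟨l, hl⟩) (⟨b, hb⟩, ⟨l, hl⟩) k hk
    have h4 := ht (⟨a, ha⟩, ⟨l, hl⟩)
    rw [← h3]
    congr 1
    simp only at h4 ⊢
    rw [hx a, inv_div, div_pow, neg_pow, mul_pow, inv_pow, ← mul_pow]
    have h5 : ((-1 : K) ^ (k + 1)) ^ 2 = 1 := by
      rw [← pow_mul, mul_comm, pow_mul]
      simp
    have h6 : (-1 : K) ^ (k + 1) ≠ 0 := pow_ne_zero _ (neg_ne_zero.2 one_ne_zero)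
    rw [mul_pow]
    field_simp
    rw [h5, mul_one]
  · intro b hb k hk
    have h3 := h2 () ⟨b, hb⟩ k hk
    rw [← h3]
    congr 1
    rw [mul_pow]
    ring

end Pool.MP_f30f9b_al.AS
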