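import Pool.Agent.H.MP_f30f9b_al.ASHJ

/-!
# Points close to infinity, additive and multiplicative colourings
-/

set_option autoImplicit false

namespace Pool.MP_f30f9b_al.AS

/-- `K` infinite, `ψ : K →+ F` with `F` finite, `C` a finite set of representatives modulo `n`-th
powers. There is `x ∉ A` in the class of `c₀` modulo `n`-th powers such that `(x - a) / x` is an
`n`-th power for `a ∈ A` and `ψ` kills `b / (x - a) ^ k` and `b * x ^ k` for `a ∈ A`, `b ∈ B`,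
`1 ≤ k ≤ M`. -/
theorem exists_small' {K F : Type*} [Field K] [Infinite K] [AddCommGroup F] [Finite F]
    (ψ : K →+ F) (n : ℕ) (hn : 0 < n) (R : Finset K) (hR0 : ∀ c ∈ R, c ≠ 0)
    (hR : ∀ x : K, x ≠ 0 → ∃ c ∈ R, ∃ y : K, x = c * y ^ n) (c₀ : K) (hc₀ : c₀ ≠ 0)
    (A B : Finset K) (M : ℕ) :
    ∃ x : K, x ∉ A ∧ x ≠ 0 ∧ (∃ y : K, x = c₀ * y ^ n) ∧ (∀ a ∈ A, ∃ y : K, x - a = x * y ^ n) ∧
      (∀ a ∈ A, ∀ b ∈ B, ∀ k < M, ψ (b * ((x - a)⁻¹) ^ (k + 1)) = 0) ∧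
      ∀ b ∈ B, ∀ k < M, ψ (b * x ^ (k + 1)) = 0 := by
  classical
  -- colouring by representatives
  choose! rep hrepR yv hyv using hR
  let χ : K → Option R := fun x => if h : x ≠ 0 then some ⟨rep x, hrepR x h⟩ else none
  have hχ : ∀ x (g : R), χ x = some g → ∃ y : K, x = g * y ^ n := by
    intro x g hx
    by_cases h : x = 0
    · simp [χ, h] at hx
    · refine ⟨yv x, ?_⟩
      have h2 : (⟨rep x, hrepR x h⟩ : R) = g := by
        have := hx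
        simp only [χ, ne_eq, h, not_false_eq_true, dite_true, Option.some.injEq] at this
        exact this
      rw [← h2]
      exact hyv x h
  have hχ0 : ∀ x, χ x = none → x = 0 := by
    intro x hx
    by_contra h
    simp [χ, h] at hx
  obtain ⟨Λ, hΛ0, hΛ⟩ := core ψ Unit (fun _ => 0) B (n * M)
  obtain ⟨Λ', hΛ0', hΛ'⟩ := core' ψ ((insert 0 A : Finset K) × Λ × R)
    (fun s => (s.1 : K) / (s.2.1 : K) ^ n * (s.2.2 : K)) (B × Λ × R) M (Option R)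
  obtain ⟨t, d, hd, ht, ⟨g, hg⟩, h1⟩ := hΛ' (fun j k ℓ =>
    (j.1 : K) * (-(j.2.2 : K) / (j.2.1 : K) ^ n) ^ (k + 1) / ℓ ^ (k + 1)) χ
  have hd0 := hΛ0' d hd
  -- Λ and R are not empty
  obtain ⟨-, l₀, hl₀, -, -⟩ := hΛ fun _ _ _ => 0
  have hne : ∀ c (hc : c ∈ R) (l : K) (hl : l ∈ Λ) (a : K) (ha : a ∈ insert 0 A),
      t + a / l ^ n * c * d ≠ 0 ∧ χ (t + a / l ^ n * c * d) = g := by
    intro c hc l hl a ha
    exact ⟨ht (⟨a, ha⟩, ⟨l, hl⟩, ⟨c, hc⟩), hg (⟨a, ha⟩, ⟨l, hl⟩, ⟨c, hc⟩)⟩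
  have h1R : rep 1 ∈ R := hrepR 1 one_ne_zero
  have ht0 : t ≠ 0 ∧ χ t = g := by
    have := hne _ h1R l₀ hl₀ 0 (Finset.mem_insert_self _ _)
    rw [zero_div, zero_mul, zero_mul, add_zero] at this
    exact this
  obtain ⟨g, rfl⟩ : ∃ g' : R, g = some g' := by
    rcases g with _ | g
    · exact absurd (hχ0 _ ht0.2) ht0.1
    · exact ⟨g, rfl⟩
  have hg0 : (g : K) ≠ 0 := hR0 g g.2
  obtain ⟨y₀, hy₀⟩ := hχ t g ht0.2
  have hy₀0 : y₀ ≠ 0 := by
    rintro rfl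
    rw [zero_pow hn.ne', mul_zero] at hy₀
    exact ht0.1 hy₀
  -- the representative which produces the class of c₀
  obtain ⟨c, hc, z, hz⟩ : ∃ c ∈ R, ∃ z : K, -(g : K) / (d * c₀) = c * z ^ n :=
    ⟨rep _, hrepR _ (div_ne_zero (neg_ne_zero.2 hg0) (mul_ne_zero hd0 hc₀)), _,
      hyv _ (div_ne_zero (neg_ne_zero.2 hg0) (mul_ne_zero hd0 hc₀))⟩
  have hc0 := hR0 c hc
  obtain ⟨-, l, hl, -, h2⟩ := hΛ fun b k _ => (b : K) * (-t / (c * d)) ^ ((k + 1) / n)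
  have hl0 := hΛ0 l hl
  have hln : l ^ n ≠ 0 := pow_ne_zero _ hl0
  have hx : ∀ a : K, l ^ n * (-t / (c * d)) - a = -(l ^ n * (t + a / l ^ n * c * d)) / (c * d) := by
    intro a
    field_simp
    ring
  have hx0 : l ^ n * (-t / (c * d)) ≠ 0 :=
    mul_ne_zero hln (div_ne_zero (neg_ne_zero.2 ht0.1) (mul_ne_zero hc0 hd0))
  refine ⟨l ^ n * (-t / (c * d)), ?_, hx0, ⟨l * z * y₀, ?_⟩, ?_, ?_, ?_⟩
  · intro hA
    have h3 := (hne c hc l hl _ (Finset.mem_insert_of_mem hA)).1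
    have h4 := hx (l ^ n * (-t / (c * d)))
    rw [sub_self] at h4
    have h5 := (div_eq_zero_iff.1 h4.symm).resolve_right (mul_ne_zero hc0 hd0)
    rw [neg_eq_zero] at h5
    exact mul_ne_zero hln h3 h5
  · rw [mul_pow, mul_pow, hy₀]
    field_simp at hz ⊢
    linear_combination hz
  · intro a ha
    obtain ⟨h3, h4⟩ := hne c hc l hl a (Finset.mem_insert_of_mem ha)
    obtain ⟨y, hy⟩ := hχ _ g h4
    refine ⟨y / y₀, ?_⟩
    rw [hx, hy, div_pow]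
    have hy₀n : y₀ ^ n ≠ 0 := pow_ne_zero _ hy₀0
    conv_rhs => rw [hy₀]
    field_simp
  · intro a ha b hb k hk
    have h3 := h1 (⟨a, Finset.mem_insert_of_mem ha⟩, ⟨l, hl⟩, ⟨c, hc⟩)
      (⟨b, hb⟩, ⟨l, hl⟩, ⟨c, hc⟩) k hk
    obtain ⟨h4, -⟩ := hne c hc l hl a (Finset.mem_insert_of_mem ha)
    rw [← h3]
    congr 1
    simp only at h4 ⊢
    have h5 : (l ^ n * (-t / (c * d)) - a)⁻¹ =
        (-c / l ^ n) * (t + a / l ^ n * c * d)⁻¹ * d := by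
      rw [hx a]
      generalize t + a / l ^ n * c * d = q at h4 ⊢
      field_simp
    rw [h5, mul_pow, mul_pow, inv_pow]
    ring
  · intro b hb k hk
    have hk' : n * (k + 1) - 1 < n * M := by
      have h3 : n * (k + 1) ≤ n * M := Nat.mul_le_mul_left n hk
      have h4 : 0 < n * (k + 1) := Nat.mul_pos hn (Nat.succ_pos k)
      omega
    have h3 := h2 () ⟨b, hb⟩ (n * (k + 1) - 1) hk'
    have h4 : n * (k + 1) - 1 + 1 = n * (k + 1) :=
      Nat.sub_add_cancel (Nat.mul_pos hn (Nat.succ_pos k))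
    rw [h4, Nat.mul_div_cancel_left _ hn] at h3
    rw [← h3]
    congr 1
    rw [mul_pow, ← pow_mul]
    ring

end Pool.MP_f30f9b_al.AS
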