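import Pool.Agent.H.MP_f30f9b_al.NT

/-!
# The choice of the translation
-/

set_option autoImplicit false

namespace Pool.MP_f30f9b_al.Ell

open NumberField IsDedekindDomain WithZero

theorem exists_pow_gt (a : ℤᵐ⁰) (ha0 : a ≠ 0) (ha : a < 1) (B : ℤᵐ⁰) :
    ∃ n : ℕ, B < (a ^ n)⁻¹ := by
  have h1 : 1 < a⁻¹ := (one_lt_inv₀ (zero_lt_iff.2 ha0)).2 ha
  obtain ⟨n, hn⟩ := MulArchimedean.arch B h1
  refine ⟨n + 1, lt_of_le_of_lt hn ?_⟩
  rw [← inv_pow]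
  exact pow_lt_pow_right₀ h1 (Nat.lt_succ_self n)

theorem not_isSquare_exp : ¬ IsSquare (exp (-1 : ℤ) : ℤᵐ⁰) := by
  rintro ⟨a, ha⟩
  have ha0 : a ≠ 0 := by
    rintro rfl
    rw [mul_zero] at ha
    exact exp_ne_zero ha
  have h1 := congrArg log ha
  rw [log_exp, log_mul ha0 ha0] at h1
  omega

variable {l : Type*} [Field l] [NumberField l]

theorem exists_translation {G : Type*} [Group G] [Fintype G] (s : G → (l →+* l))
    (hs1 : ∀ x, s 1 x = x) (hsmul : ∀ σ τ x, s (σ * τ) x = s σ (s τ x)) (θ : l)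
    (hθ : ∀ σ, σ ≠ 1 → s σ θ ≠ θ) (N : Finset l) (hN : ∀ n ∈ N, n ≠ 0)
    (e₁ e₂ e₃ : l) (F : Finset (l × l)) (hF : ∀ p ∈ F, p.2 ≠ 0)
    (u : Valuation l ℤᵐ⁰) (hu2 : u 2 < 1) (R : ℤᵐ⁰) :
    ∃ (x₀ : l) (w : Valuation l ℤᵐ⁰), (∀ n ∈ N, w n = 1) ∧ ∀ p ∈ F,
      R < u ((x₀ + p.1) / p.2) ∧
      (∀ σ, s σ (((x₀ + p.1) / p.2 - e₁) * ((x₀ + p.1) / p.2 - e₂) * ((x₀ + p.1) / p.2 - e₃)) ≠ 0) ∧
      ¬ IsSquare (w (((x₀ + p.1) / p.2 - e₁) * ((x₀ + p.1) / p.2 - e₂) *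
        ((x₀ + p.1) / p.2 - e₃))) ∧
      ∀ σ, σ ≠ 1 → IsSquare (w (s σ (((x₀ + p.1) / p.2 - e₁) * ((x₀ + p.1) / p.2 - e₂) *
        ((x₀ + p.1) / p.2 - e₃)))) := by
  classical
  have h20 : (2 : l) ≠ 0 := two_ne_zero
  obtain ⟨v, t, q, hvN, hvt, hvσ, hq0, hvq⟩ := exists_prime s hs1 hsmul θ hθ
    (N ∪ ({2} ∪ (F ×ˢ (Finset.univ : Finset G)).image fun r => s r.2 r.1.2)) (by
      intro n hn
      rcases Finset.mem_union.1 hn with h | h
      · exact hN n h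
      rcases Finset.mem_union.1 h with h | h
      · rw [Finset.mem_singleton.1 h]
        exact h20
      · obtain ⟨r, hr, rfl⟩ := Finset.mem_image.1 h
        exact (map_ne_zero _).2 (hF _ (Finset.mem_product.1 hr).1))
  set w : Valuation l ℤᵐ⁰ := v.valuation l with hw
  have hw2 : w 2 = 1 := hvN 2 (by simp)
  have hwd : ∀ p ∈ F, ∀ σ, w (s σ p.2) = 1 := by
    intro p hp σ
    refine hvN _ (Finset.mem_union_right _ (Finset.mem_union_right _ ?_))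
    exact Finset.mem_image.2 ⟨(p, σ), Finset.mem_product.2 ⟨hp, Finset.mem_univ _⟩, rfl⟩
  have hql : (q : l) ≠ 0 := by exact_mod_cast hq0
  have hwq0 : w (q : l) ≠ 0 := (Valuation.ne_zero_iff _).2 hql
  have ht0 : t ≠ 0 := by
    rintro rfl
    rw [map_zero] at hvt
    exact exp_ne_zero hvt.symm
  have hst : ∀ σ, w (s σ t) ≤ 1 := by
    intro σ
    by_cases h : σ = 1
    · rw [h, hs1, hvt, ← exp_zero, exp_le_exp]
      norm_num
    · rw [hvσ σ h]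
  have hst0 : ∀ σ, w (s σ t) ≠ 0 := fun σ =>
    (Valuation.ne_zero_iff _).2 ((map_ne_zero _).2 ht0)
  -- the bound for k
  obtain ⟨B₁, hB₁⟩ := Finset.exists_le ((F ×ˢ (Finset.univ : Finset G)).image
    (fun r => max (w (s r.2 (r.1.1 - r.1.2 * e₁))) (max (w (s r.2 (r.1.1 - r.1.2 * e₂)))
      (w (s r.2 (r.1.1 - r.1.2 * e₃))))))
  obtain ⟨k, hk⟩ := exists_pow_gt (w (q : l) ^ 2) (pow_ne_zero 2 hwq0)
    (pow_lt_one₀ zero_le hvq two_ne_zero) B₁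
  -- the bound for M
  obtain ⟨B₂, hB₂⟩ := Finset.exists_le (F.image fun p => max (u p.1) (R * u p.2))
  have hu20 : u 2 ≠ 0 := (Valuation.ne_zero_iff _).2 h20
  have hutq0 : u (t * q ^ (2 * k)) ≠ 0 :=
    (Valuation.ne_zero_iff _).2 (mul_ne_zero ht0 (pow_ne_zero _ hql))
  obtain ⟨M, hM⟩ := exists_pow_gt (u 2) hu20 hu2 (B₂ * u (t * q ^ (2 * k)))
  set x₀ : l := (t * q ^ (2 * k) * 2 ^ M)⁻¹ with hx₀
  have hux : B₂ < u x₀ := by
    rw [hx₀, map_inv₀, map_mul, mul_inv, map_pow]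
    calc B₂ = (u (t * q ^ (2 * k)))⁻¹ * (B₂ * u (t * q ^ (2 * k))) := by
          rw [mul_comm B₂, inv_mul_cancel_left₀ hutq0]
      _ < (u (t * q ^ (2 * k)))⁻¹ * (u 2 ^ M)⁻¹ :=
          mul_lt_mul_of_pos_left hM (zero_lt_iff.2 (inv_ne_zero hutq0))
  have hwx : ∀ σ, w (s σ x₀) = (w (s σ t))⁻¹ * ((w (q : l) ^ 2) ^ k)⁻¹ := by
    intro σ
    rw [hx₀, map_inv₀, map_inv₀, map_mul, map_mul, map_mul, map_mul, map_pow, map_pow, map_pow,
      map_pow, map_natCast, map_ofNat, hw2, one_pow, mul_one, mul_inv, pow_mul]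
  have hwx1 : ∀ σ, B₁ < w (s σ x₀) := by
    intro σ
    rw [hwx σ]
    refine lt_of_lt_of_le hk ?_
    refine le_mul_of_one_le_left' ?_
    exact (one_le_inv₀ (zero_lt_iff.2 (hst0 σ))).2 (hst σ)
  refine ⟨x₀, w, fun n hn => hvN n (Finset.mem_union_left _ hn), fun p hp => ?_⟩
  have hp2 : p.2 ≠ 0 := hF p hp
  -- values of the factors
  have hfac : ∀ σ, w (s σ ((x₀ + p.1) / p.2 - e₁)) = w (s σ x₀) ∧
      w (s σ ((x₀ + p.1) / p.2 - e₂)) = w (s σ x₀) ∧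
      w (s σ ((x₀ + p.1) / p.2 - e₃)) = w (s σ x₀) := by
    intro σ
    have hmax := hB₁ _ (Finset.mem_image.2 ⟨(p, σ), Finset.mem_product.2 ⟨hp, Finset.mem_univ _⟩,
      rfl⟩)
    have hall : ∀ e : l, w (s σ (p.1 - p.2 * e)) < w (s σ x₀) →
        w (s σ ((x₀ + p.1) / p.2 - e)) = w (s σ x₀) := by
      intro e he
      have h1 : (x₀ + p.1) / p.2 - e = (x₀ + (p.1 - p.2 * e)) / p.2 := by
        field_simp
        ring
      rw [h1, map_div₀, map_div₀, hwd p hp σ, div_one, map_add,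
        Valuation.map_add_eq_of_lt_left _ he]
    refine ⟨hall _ ?_, hall _ ?_, hall _ ?_⟩
    · exact lt_of_le_of_lt ((le_max_left _ _).trans hmax) (hwx1 σ)
    · exact lt_of_le_of_lt (((le_max_left _ _).trans (le_max_right _ _)).trans hmax) (hwx1 σ)
    · exact lt_of_le_of_lt (((le_max_right _ _).trans (le_max_right _ _)).trans hmax) (hwx1 σ)
  have hprod : ∀ σ, w (s σ (((x₀ + p.1) / p.2 - e₁) * ((x₀ + p.1) / p.2 - e₂) *
        ((x₀ + p.1) / p.2 - e₃))) = (w (s σ x₀)) ^ 3 := by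
    intro σ
    rw [map_mul, map_mul, map_mul, map_mul, (hfac σ).1, (hfac σ).2.1, (hfac σ).2.2,
      pow_succ, pow_two]
  have hx₀0 : x₀ ≠ 0 := by
    rw [hx₀]
    exact inv_ne_zero (mul_ne_zero (mul_ne_zero ht0 (pow_ne_zero _ hql)) (pow_ne_zero _ h20))
  have hwx0 : ∀ σ, w (s σ x₀) ≠ 0 := fun σ =>
    (Valuation.ne_zero_iff _).2 ((map_ne_zero _).2 hx₀0)
  refine ⟨?_, ?_, ?_, ?_⟩
  · -- the prime above two
    have hmax := hB₂ _ (Finset.mem_image_of_mem _ hp)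
    have h1 : u p.1 < u x₀ := lt_of_le_of_lt ((le_max_left _ _).trans hmax) hux
    have h3 : R * u p.2 < u x₀ := lt_of_le_of_lt ((le_max_right _ _).trans hmax) hux
    rw [map_div₀, Valuation.map_add_eq_of_lt_left _ h1]
    rwa [lt_div_iff₀ (zero_lt_iff.2 ((Valuation.ne_zero_iff _).2 hp2))]
  · intro σ h0
    have h1 := hprod σ
    rw [h0, map_zero] at h1
    exact (pow_ne_zero 3 (hwx0 σ)) h1.symm
  · intro hsq
    have h1 := hprod 1
    rw [hs1] at h1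
    rw [h1] at hsq
    have h3 : w (s 1 x₀) = exp (-1 : ℤ) * (exp 1 * ((w (q : l)) ^ k)⁻¹) ^ 2 := by
      rw [hwx 1, hs1, hvt, mul_pow, inv_pow, ← pow_mul, ← pow_mul, mul_comm 2 k, ← exp_neg,
        ← mul_assoc]
      congr 1
    have hne : w (s 1 x₀) ≠ 0 := hwx0 1
    apply not_isSquare_exp
    have h4 : exp (-1 : ℤ) = w (s 1 x₀) ^ 3 /
        (w (s 1 x₀) * (exp 1 * ((w (q : l)) ^ k)⁻¹)) ^ 2 := by
      have h5 : (exp 1 * ((w (q : l)) ^ k)⁻¹ : ℤᵐ⁰) ≠ 0 :=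
        mul_ne_zero exp_ne_zero (inv_ne_zero (pow_ne_zero _ hwq0))
      rw [eq_div_iff (pow_ne_zero 2 (mul_ne_zero hne h5)), mul_pow, pow_succ (w (s 1 x₀)) 2]
      rw [mul_left_comm, ← h3]
    rw [h4]
    exact hsq.div (IsSquare.sq _)
  · intro σ hσ
    rw [hprod σ, hwx σ, hvσ σ hσ, inv_one, one_mul]
    refine IsSquare.pow 3 ?_
    rw [← pow_mul, mul_comm 2 k, pow_mul, ← inv_pow]
    exact IsSquare.sq _

end Pool.MP_f30f9b_al.Ell
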