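import Mathlib

/-!
# The trace of a generic point is not constant

`L/K` finite Galois inside a field `L'` on which the Galois group acts (through `S`), `x₀ : L'` with
algebraically independent conjugates. If a point of an elliptic curve `W/K` over `L'` has
`x`-coordinate `(x₀ + A)/d` with `A, d ∈ L`, then the sum of its conjugates is an invariant point
whose coordinates do not both come from `L`.
-/

set_option autoImplicit false

namespace Pool.MP_f30f9b_al.Ell

open WeierstrassCurve WeierstrassCurve.Affine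

section

variable {K L' : Type*} [Field K] [Field L'] [Algebra K L']

/-- the field of elements of `L'` which are algebraic over the subalgebra generated by `T` -/
noncomputable def algCl (T : Set L') : IntermediateField K L' where
  carrier := {y | IsAlgebraic (Algebra.adjoin K T) y}
  mul_mem' := fun ha hb => IsAlgebraic.mul ha hb
  add_mem' := fun ha hb => IsAlgebraic.add ha hb
  algebraMap_mem' := fun r => by
    have : algebraMap K L' r = algebraMap (Algebra.adjoin K T) L'
        (algebraMap K (Algebra.adjoin K T) r) := rfl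
    change IsAlgebraic (Algebra.adjoin K T) (algebraMap K L' r)
    rw [this]
    exact isAlgebraic_algebraMap _
  inv_mem' := fun a ha => IsAlgebraic.inv ha

theorem mem_algCl (T : Set L') (y : L') :
    y ∈ algCl (K := K) T ↔ IsAlgebraic (Algebra.adjoin K T) y := Iff.rfl

theorem subset_algCl (T : Set L') {y : L'} (hy : y ∈ T) : y ∈ algCl (K := K) T := by
  rw [mem_algCl]
  exact isAlgebraic_algebraMap (⟨y, Algebra.subset_adjoin hy⟩ : Algebra.adjoin K T)

theorem algCl_of_isAlgebraic (T : Set L') {y : L'} (hy : IsAlgebraic K y) :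
    y ∈ algCl (K := K) T := by
  rw [mem_algCl]
  exact hy.extendScalars (FaithfulSMul.algebraMap_injective K (Algebra.adjoin K T))

theorem algCl_of_sq (T : Set L') {y : L'} (hy : y ^ 2 ∈ algCl (K := K) T) :
    y ∈ algCl (K := K) T := by
  rw [mem_algCl] at hy ⊢
  exact hy.of_pow two_pos

/-- a point with coordinates in an intermediate field comes from that field -/
theorem mem_range_map [DecidableEq L'] (W : WeierstrassCurve K) (M : IntermediateField K L')
    [DecidableEq M] {x y : L'} (h : (W⁄L').Nonsingular x y) (hx : x ∈ M) (hy : y ∈ M) :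
    Point.some x y h ∈ (Point.map (W' := W) (M.val)).range := by
  have h2 : (W⁄M).Nonsingular (⟨x, hx⟩ : M) (⟨y, hy⟩ : M) :=
    (baseChange_nonsingular W (f := M.val) M.val.injective ..).mp h
  exact ⟨Point.some _ _ h2, rfl⟩

end

theorem core {K L L' : Type*} [Field K] [Field L] [Field L'] [Algebra K L] [Algebra K L']
    [FiniteDimensional K L] (h2 : (2 : K) ≠ 0) (W : WeierstrassCurve K) [W.IsElliptic]
    (φ : L →ₐ[K] L') (S : Gal(L/K) → L' →ₐ[K] L')
    (hS1 : ∀ x, S 1 x = x) (hSmul : ∀ σ τ x, S (σ * τ) x = S σ (S τ x))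
    (hSφ : ∀ σ a, S σ (φ a) = φ (σ a)) (x₀ : L')
    (hind : AlgebraicIndependent K fun σ : Gal(L/K) => S σ x₀) (A d : L) (hd : d ≠ 0) (w : L')
    (hw : (W⁄L').Equation ((x₀ + φ A) / φ d) w)
    (hfix : ∀ x y : L', (W⁄L').Equation x y → (∀ σ, S σ x = x) → (∀ σ, S σ y = y) →
      x ∈ Set.range φ ∧ y ∈ Set.range φ) : False := by
  classical
  have h2' : (2 : L') ≠ 0 := by
    have := (map_ne_zero (algebraMap K L')).2 h2
    rwa [map_ofNat] at this
  have hell : (W⁄L').IsElliptic :=
    inferInstanceAs (WeierstrassCurve.IsElliptic (W.map (algebraMap K L')))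
  let T : Set L' := (fun σ : Gal(L/K) => S σ x₀) '' {σ | σ ≠ 1}
  let M : IntermediateField K L' := algCl T
  have hφM : ∀ a, φ a ∈ M := fun a => algCl_of_isAlgebraic T
    ((Algebra.IsAlgebraic.isAlgebraic (R := K) a).algHom φ)
  have hx₀M : x₀ ∉ M := by
    intro h
    have h1 := hind.transcendental_adjoin (s := {σ | σ ≠ 1}) (i := 1) (by simp)
    apply h1
    have h3 : S 1 x₀ = x₀ := hS1 x₀
    simp only [h3]
    exact h
  set z : L' := (x₀ + φ A) / φ d with hz
  have hφd : φ d ≠ 0 := by
    rw [Ne, map_eq_zero]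
    exact hd
  -- the point and its conjugates
  have hns : (W⁄L').Nonsingular z w := (equation_iff_nonsingular).1 hw
  let P : (W⁄L').Point := Point.some z w hns
  let R : (W⁄L').Point := ∑ σ : Gal(L/K), Point.map (W' := W) (S σ) P
  have hcomp : ∀ τ σ, (S τ).comp (S σ) = S (τ * σ) := by
    intro τ σ
    ext x
    exact (hSmul τ σ x).symm
  have hRinv : ∀ τ, Point.map (W' := W) (S τ) R = R := by
    intro τ
    simp only [R, map_sum, Point.map_map]
    refine (Fintype.sum_equiv (Equiv.mulLeft τ) _ _ fun σ => ?_)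
    rw [hcomp τ σ]
    rfl
  -- coordinates of the other conjugates are in M
  have hyM : ∀ x y : L', x ∈ M → (W⁄L').Equation x y → y ∈ M := by
    intro x y hx he
    rw [equation_iff] at he
    have ha : ∀ r : K, algebraMap K L' r ∈ M := fun r => M.algebraMap_mem r
    have h4 : (2 * y + algebraMap K L' W.a₁ * x + algebraMap K L' W.a₃) ^ 2 ∈ M := by
      have : (2 * y + algebraMap K L' W.a₁ * x + algebraMap K L' W.a₃) ^ 2 =
          4 * (x ^ 3 + algebraMap K L' W.a₂ * x ^ 2 + algebraMap K L' W.a₄ * x
            + algebraMap K L' W.a₆) + (algebraMap K L' W.a₁ * x + algebraMap K L' W.a₃) ^ 2 := by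
        have he' : y ^ 2 + algebraMap K L' W.a₁ * x * y + algebraMap K L' W.a₃ * y =
          x ^ 3 + algebraMap K L' W.a₂ * x ^ 2 + algebraMap K L' W.a₄ * x
            + algebraMap K L' W.a₆ := he
        linear_combination 4 * he'
      rw [this]
      have h4M : (4 : L') ∈ M := by
        have := ha 4
        rwa [map_ofNat] at this
      refine M.add_mem (M.mul_mem h4M ?_) ?_
      · exact M.add_mem (M.add_mem (M.add_mem (pow_mem hx 3) (M.mul_mem (ha _) (pow_mem hx 2)))
          (M.mul_mem (ha _) hx)) (ha _)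
      · exact pow_mem (M.add_mem (M.mul_mem (ha _) hx) (ha _)) 2
    have h5 := algCl_of_sq T h4
    have h6 : y = ((2 * y + algebraMap K L' W.a₁ * x + algebraMap K L' W.a₃) -
        algebraMap K L' W.a₁ * x - algebraMap K L' W.a₃) / 2 := by
      field_simp
      ring
    rw [h6]
    have h2M : (2 : L') ∈ M := by
      have := ha 2
      rwa [map_ofNat] at this
    exact M.div_mem (M.sub_mem (M.sub_mem h5 (M.mul_mem (ha _) hx)) (ha _)) h2M
  have hconj : ∀ σ : Gal(L/K), σ ≠ 1 →
      Point.map (W' := W) (S σ) P ∈ (Point.map (W' := W) (M.val)).range := by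
    intro σ hσ
    have h3 : S σ x₀ ∈ M := subset_algCl T ⟨σ, hσ, rfl⟩
    have h4 : S σ z ∈ M := by
      rw [hz, map_div₀, map_add, hSφ, hSφ]
      exact M.div_mem (M.add_mem h3 (hφM _)) (hφM _)
    have h5 : (W⁄L').Nonsingular (S σ z) (S σ w) :=
      (baseChange_nonsingular W (f := S σ) (S σ).injective ..).mpr hns
    have h6 : Point.map (W' := W) (S σ) P = Point.some (S σ z) (S σ w) h5 := rfl
    rw [h6]
    exact mem_range_map W M h5 h4 (hyM _ _ h4 h5.1)
  have hRM : R ∈ (Point.map (W' := W) (M.val)).range := by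
    rcases hR : R with _ | ⟨X, Y, hXY⟩
    · exact ⟨0, rfl⟩
    · have hinv : ∀ σ, S σ X = X ∧ S σ Y = Y := by
        intro σ
        have := hRinv σ
        rw [hR, Point.map_some] at this
        simpa using this
      obtain ⟨⟨a, ha⟩, b, hb⟩ := hfix X Y hXY.1 (fun σ => (hinv σ).1) fun σ => (hinv σ).2
      exact mem_range_map W M hXY (ha ▸ hφM a) (hb ▸ hφM b)
  -- hence P itself comes from M
  have hPM : P ∈ (Point.map (W' := W) (M.val)).range := by
    have h3 : Point.map (W' := W) (S 1) P = P := by
      have h4 : S 1 z = z := hS1 z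
      have h5 : S 1 w = w := hS1 w
      have h6 : Point.map (W' := W) (S 1) P = Point.some (S 1 z) (S 1 w)
        ((baseChange_nonsingular W (f := S 1) (S 1).injective ..).mpr hns) := rfl
      rw [h6]
      simp only [P, Point.some.injEq]
      exact ⟨h4, h5⟩
    have h4 : P = R - ∑ σ ∈ Finset.univ.erase (1 : Gal(L/K)), Point.map (W' := W) (S σ) P := by
      simp only [R]
      rw [← Finset.add_sum_erase _ _ (Finset.mem_univ (1 : Gal(L/K))), h3]
      abel
    rw [h4]
    refine AddSubgroup.sub_mem _ hRM (AddSubgroup.sum_mem _ fun σ hσ => ?_)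
    exact hconj σ (Finset.ne_of_mem_erase hσ)
  obtain ⟨Q, hQ⟩ := hPM
  have hzM : z ∈ M := by
    rcases Q with _ | ⟨X, Y, hXY⟩
    · have h3 : Point.map (W' := W) (M.val) (Point.zero) = 0 := rfl
      rw [h3] at hQ
      exact absurd hQ.symm (Point.some_ne_zero _)
    · rw [Point.map_some] at hQ
      simp only [P, Point.some.injEq] at hQ
      rw [← hQ.1]
      exact X.2
  apply hx₀M
  have : x₀ = z * φ d - φ A := by
    rw [hz]
    field_simp
    ring
  rw [this]
  exact M.sub_mem (M.mul_mem hzM (hφM _)) (hφM _)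

end Pool.MP_f30f9b_al.Ell
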