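import Mathlib

/-!
# Duplication and points of infinite order
-/

set_option autoImplicit false

namespace Pool.MP_f30f9b_al.Ell

open WeierstrassCurve WeierstrassCurve.Affine

/-- the square of `2 y + a₁ x + a₃` -/
theorem sq_eq {F : Type*} [CommRing F] (W : WeierstrassCurve F) {x y : F}
    (h : W.toAffine.Equation x y) : (2 * y + W.a₁ * x + W.a₃) ^ 2 =
      4 * x ^ 3 + W.b₂ * x ^ 2 + 2 * W.b₄ * x + W.b₆ := by
  rw [equation_iff] at h
  simp only [b₂, b₄, b₆]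
  linear_combination 4 * h

/-- the duplication formula -/
theorem dbl {F : Type*} [Field F] [DecidableEq F] (W : WeierstrassCurve F) {x y : F}
    (h : W.toAffine.Nonsingular x y) (hD : 4 * x ^ 3 + W.b₂ * x ^ 2 + 2 * W.b₄ * x + W.b₆ ≠ 0) :
    ∃ (x' y' : F) (h' : W.toAffine.Nonsingular x' y'),
      Point.some x y h + Point.some x y h = Point.some x' y' h' ∧
      x' = (x ^ 4 - W.b₄ * x ^ 2 - 2 * W.b₆ * x - W.b₈) /
        (4 * x ^ 3 + W.b₂ * x ^ 2 + 2 * W.b₄ * x + W.b₆) := by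
  have heq := h.1
  have hsq := sq_eq W heq
  have hD2 : 2 * y + W.a₁ * x + W.a₃ ≠ 0 := by
    intro h0
    apply hD
    rw [← hsq, h0]
    ring
  have hy : y ≠ W.toAffine.negY x y := by
    intro h0
    apply hD2
    rw [negY] at h0
    linear_combination h0
  refine ⟨_, _, _, Point.add_self_of_Y_ne hy, ?_⟩
  rw [eq_div_iff hD, ← hsq, slope_of_Y_ne rfl hy, addX]
  have hN : y - W.toAffine.negY x y = 2 * y + W.a₁ * x + W.a₃ := by
    rw [negY]
    ring
  rw [hN]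
  rw [equation_iff] at heq
  have heq' : y ^ 2 + W.a₁ * x * y + W.a₃ * y = x ^ 3 + W.a₂ * x ^ 2 + W.a₄ * x + W.a₆ := heq
  change (((3 * x ^ 2 + 2 * W.a₂ * x + W.a₄ - W.a₁ * y) / (2 * y + W.a₁ * x + W.a₃)) ^ 2 +
    W.a₁ * ((3 * x ^ 2 + 2 * W.a₂ * x + W.a₄ - W.a₁ * y) / (2 * y + W.a₁ * x + W.a₃)) - W.a₂ - x - x)
    * (2 * y + W.a₁ * x + W.a₃) ^ 2 = _
  simp only [b₄, b₆, b₈]
  have hl := div_mul_cancel₀ (3 * x ^ 2 + 2 * W.a₂ * x + W.a₄ - W.a₁ * y) hD2
  generalize (3 * x ^ 2 + 2 * W.a₂ * x + W.a₄ - W.a₁ * y) / (2 * y + W.a₁ * x + W.a₃) = t at hl ⊢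
  linear_combination (-(W.a₁ ^ 2 + 4 * W.a₂ + 8 * x)) * heq' +
    (t * (2 * y + W.a₁ * x + W.a₃) + (3 * x ^ 2 + 2 * W.a₂ * x + W.a₄ - W.a₁ * y) +
      W.a₁ * (2 * y + W.a₁ * x + W.a₃)) * hl

section Val

variable {l Γ : Type*} [Field l] [LinearOrderedCommGroupWithZero Γ] (w : Valuation l Γ)

/-- the values of the duplication polynomials at an element of large value -/
theorem val_dup (h4 : (4 : l) ≠ 0) (b₂ b₄ b₆ b₈ z : l) (h1 : 1 < w z)
    (hb4 : w b₄ < w z) (hb6 : w (2 * b₆) < w z) (hb8 : w b₈ < w z)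
    (hb2' : w (b₂ / 4) < w z) (hb4' : w (b₄ / 2) < w z) (hb6' : w (b₆ / 4) < w z) :
    w ((z ^ 4 - b₄ * z ^ 2 - 2 * b₆ * z - b₈) /
      (4 * z ^ 3 + b₂ * z ^ 2 + 2 * b₄ * z + b₆)) = w z * (w 4)⁻¹ := by
  have h2 : (2 : l) ≠ 0 := by
    intro h0
    apply h4
    have : (4 : l) = 2 * 2 := by norm_num
    rw [this, h0, zero_mul]
  have hz0 : w z ≠ 0 := (lt_trans zero_lt_one h1).ne'
  have hpos : 0 < w z := lt_trans zero_lt_one h1
  have hpow : ∀ n : ℕ, 1 ≤ w z ^ n := fun n => one_le_pow₀ h1.le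
  have hle : ∀ m n : ℕ, m ≤ n → w z ^ m ≤ w z ^ n := fun m n h => pow_le_pow_right₀ h1.le h
  have key : ∀ (c : l) (m n : ℕ), m < n → w c < w z → w (c * z ^ m) < w z ^ n := by
    intro c m n hmn hc
    rw [map_mul, map_pow]
    calc w c * w z ^ m < w z * w z ^ m := mul_lt_mul_of_pos_right hc (pow_pos hpos m)
      _ = w z ^ (m + 1) := by rw [pow_succ']
      _ ≤ w z ^ n := hle _ _ hmn
  have hnum : w (z ^ 4 - b₄ * z ^ 2 - 2 * b₆ * z - b₈) = w z ^ 4 := by
    have h3 : z ^ 4 - b₄ * z ^ 2 - 2 * b₆ * z - b₈ =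
        z ^ 4 + (-(b₄ * z ^ 2) + (-((2 * b₆) * z ^ 1) + -(b₈ * z ^ 0))) := by ring
    rw [h3, Valuation.map_add_eq_of_lt_left, map_pow]
    rw [map_pow]
    refine Valuation.map_add_lt _ ?_ (Valuation.map_add_lt _ ?_ ?_)
    · rw [Valuation.map_neg]
      exact key _ 2 4 (by norm_num) hb4
    · rw [Valuation.map_neg]
      exact key _ 1 4 (by norm_num) hb6
    · rw [Valuation.map_neg]
      exact key _ 0 4 (by norm_num) hb8
  have hden : w (4 * z ^ 3 + b₂ * z ^ 2 + 2 * b₄ * z + b₆) = w 4 * w z ^ 3 := by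
    have h3 : 4 * z ^ 3 + b₂ * z ^ 2 + 2 * b₄ * z + b₆ =
        4 * (z ^ 3 + ((b₂ / 4) * z ^ 2 + ((b₄ / 2) * z ^ 1 + (b₆ / 4) * z ^ 0))) := by
      field_simp
      ring
    rw [h3, map_mul, Valuation.map_add_eq_of_lt_left, map_pow]
    rw [map_pow]
    refine Valuation.map_add_lt _ ?_ (Valuation.map_add_lt _ ?_ ?_)
    · exact key _ 2 3 (by norm_num) hb2'
    · exact key _ 1 3 (by norm_num) hb4'
    · exact key _ 0 3 (by norm_num) hb6'
  have h40 : w 4 ≠ 0 := (Valuation.ne_zero_iff _).2 h4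
  rw [map_div₀, hnum, hden]
  field_simp

end Val

/-- Points whose `x`-coordinate is very large at a prime above two have infinite order. -/
theorem not_isOfFinAddOrder {k F l Γ : Type*} [Field k] [Field F] [DecidableEq F] [Field l]
    [Algebra k F] [Algebra k l] [LinearOrderedCommGroupWithZero Γ] (W : WeierstrassCurve k)
    (ι : l →ₐ[k] F) (w : Valuation l Γ) (h2 : (2 : l) ≠ 0) (hw2 : w 2 < 1) (z : l) (h1 : 1 < w z)
    (hb4 : w (algebraMap k l W.b₄) < w z) (hb6 : w (2 * algebraMap k l W.b₆) < w z)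
    (hb8 : w (algebraMap k l W.b₈) < w z) (hb2' : w (algebraMap k l W.b₂ / 4) < w z)
    (hb4' : w (algebraMap k l W.b₄ / 2) < w z) (hb6' : w (algebraMap k l W.b₆ / 4) < w z)
    {y : F} (h : (W⁄F).Nonsingular (ι z) y) :
    ¬ IsOfFinAddOrder (Point.some (ι z) y h : (W⁄F).Point) := by
  classical
  have h4 : (4 : l) ≠ 0 := by
    have : (4 : l) = 2 * 2 := by norm_num
    rw [this]
    exact mul_ne_zero h2 h2
  have hw4 : w 4 < 1 := by
    have : (4 : l) = 2 * 2 := by norm_num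
    rw [this, map_mul]
    exact mul_lt_one_of_nonneg_of_lt_one_left zero_le hw2 hw2.le
  have hw40 : w 4 ≠ 0 := (Valuation.ne_zero_iff _).2 h4
  have hw4i : 1 < (w 4)⁻¹ := (one_lt_inv₀ (zero_lt_iff.2 hw40)).2 hw4
  have hzpos : 0 < w z := lt_trans zero_lt_one h1
  -- one step
  have hstep : ∀ (t : l) (y : F) (h : (W⁄F).Nonsingular (ι t) y), w z ≤ w t →
      ∃ (t' : l) (y' : F) (h' : (W⁄F).Nonsingular (ι t') y'),
        (Point.some (ι t) y h : (W⁄F).Point) + Point.some (ι t) y h = Point.some (ι t') y' h' ∧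
        w t' = w t * (w 4)⁻¹ := by
    intro t y h hzt
    have hv := val_dup w h4 (algebraMap k l W.b₂) (algebraMap k l W.b₄) (algebraMap k l W.b₆)
      (algebraMap k l W.b₈) t (lt_of_lt_of_le h1 hzt) (lt_of_lt_of_le hb4 hzt)
      (lt_of_lt_of_le hb6 hzt) (lt_of_lt_of_le hb8 hzt) (lt_of_lt_of_le hb2' hzt)
      (lt_of_lt_of_le hb4' hzt) (lt_of_lt_of_le hb6' hzt)
    have hb₂ : (W⁄F).b₂ = ι (algebraMap k l W.b₂) := by
      rw [ι.commutes]
      exact W.map_b₂ (algebraMap k F)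
    have hb₄ : (W⁄F).b₄ = ι (algebraMap k l W.b₄) := by
      rw [ι.commutes]
      exact W.map_b₄ (algebraMap k F)
    have hb₆ : (W⁄F).b₆ = ι (algebraMap k l W.b₆) := by
      rw [ι.commutes]
      exact W.map_b₆ (algebraMap k F)
    have hb₈ : (W⁄F).b₈ = ι (algebraMap k l W.b₈) := by
      rw [ι.commutes]
      exact W.map_b₈ (algebraMap k F)
    have hD : 4 * (ι t) ^ 3 + (W⁄F).b₂ * (ι t) ^ 2 + 2 * (W⁄F).b₄ * (ι t) + (W⁄F).b₆ =
        ι (4 * t ^ 3 + algebraMap k l W.b₂ * t ^ 2 + 2 * algebraMap k l W.b₄ * t +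
          algebraMap k l W.b₆) := by
      rw [hb₂, hb₄, hb₆]
      simp only [map_add, map_mul, map_pow, map_ofNat]
    have hD0 : 4 * t ^ 3 + algebraMap k l W.b₂ * t ^ 2 + 2 * algebraMap k l W.b₄ * t +
          algebraMap k l W.b₆ ≠ 0 := by
      intro h0
      rw [h0, div_zero, map_zero] at hv
      exact (mul_ne_zero (lt_of_lt_of_le hzpos hzt).ne' (inv_ne_zero hw40)) hv.symm
    obtain ⟨x', y', h', h3, h5⟩ := dbl (W⁄F) h (by
      rw [hD]
      exact (map_ne_zero ι).2 hD0)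
    rw [hD] at h5
    have h6 : x' = ι ((t ^ 4 - algebraMap k l W.b₄ * t ^ 2 - 2 * algebraMap k l W.b₆ * t -
        algebraMap k l W.b₈) / (4 * t ^ 3 + algebraMap k l W.b₂ * t ^ 2 +
        2 * algebraMap k l W.b₄ * t + algebraMap k l W.b₆)) := by
      rw [h5, map_div₀]
      congr 1
      rw [hb₄, hb₆, hb₈]
      simp only [map_sub, map_mul, map_pow, map_ofNat]
    subst h6
    exact ⟨_, y', h', h3, hv⟩
  -- all steps
  have hall : ∀ n : ℕ, ∃ (t : l) (y' : F) (h' : (W⁄F).Nonsingular (ι t) y'),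
      (2 ^ n) • (Point.some (ι z) y h : (W⁄F).Point) = Point.some (ι t) y' h' ∧
      w t = w z * (w 4)⁻¹ ^ n := by
    intro n
    induction n with
    | zero => exact ⟨z, y, h, by simp, by simp⟩
    | succ n ih =>
      obtain ⟨t, y', h', h3, h5⟩ := ih
      obtain ⟨t', y'', h'', h6, h7⟩ := hstep t y' h' (by
        rw [h5]
        exact le_mul_of_one_le_right' (one_le_pow₀ hw4i.le))
      refine ⟨t', y'', h'', ?_, ?_⟩
      · rw [pow_succ, mul_comm, mul_smul, h3, two_nsmul, h6]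
      · rw [h7, h5, pow_succ, mul_assoc]
  choose t y' h' h3 h5 using hall
  intro hfin
  have hinj : Function.Injective fun n : ℕ => (2 ^ n) • (Point.some (ι z) y h : (W⁄F).Point) := by
    intro m n hmn
    simp only [h3] at hmn
    simp only [Point.some.injEq] at hmn
    have h6 := ι.injective hmn.1
    have h7 := h5 m
    rw [h6, h5 n] at h7
    have h8 := mul_left_cancel₀ hzpos.ne' h7
    exact (pow_right_injective₀ (lt_trans zero_lt_one hw4i) hw4i.ne' h8).symm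
  have hfin2 : (AddSubmonoid.multiples (Point.some (ι z) y h : (W⁄F).Point) :
      Set (W⁄F).Point).Finite := hfin.finite_multiples
  refine (Set.infinite_of_injective_forall_mem hinj fun n => ?_) hfin2
  exact (AddSubmonoid.mem_multiples_iff _ _).2 ⟨2 ^ n, rfl⟩

end Pool.MP_f30f9b_al.Ell
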