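import Pool.Agent.H.MP_f30f9b_al.Gallai

/-!
# The square values of a cubic: finitely many affine maps suffice
-/

set_option autoImplicit false

namespace Pool.MP_f30f9b_al.Ell

open Combinatorics

/-- Gallai's theorem with constants from a finite family and a free translation. -/
theorem gallai_family {L L' : Type*} [Field L] [Infinite L] [CommRing L'] (φ : L →+* L')
    (α : Type*) [Finite α] (f : α → L) (κ : Type*) [Finite κ] :
    ∃ F : Finset (L × L), (∀ p ∈ F, p.2 ≠ 0) ∧ ∀ (χ : L' → κ) (x₀ : L'),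
      ∃ p ∈ F, ∃ c : κ, ∀ a : α, χ (x₀ + φ (p.1 + p.2 * f a)) = c := by
  classical
  obtain ⟨ι, hι, hmono⟩ := Line.exists_mono_in_high_dimension α κ
  obtain ⟨w, hw⟩ := exists_weights L ι
  have hfin : Finite (Line α ι) := Finite.of_injective (fun l : Line α ι => l.idxFun) (by
    intro l l' h
    cases l
    cases l'
    simp only at h
    subst h
    rfl)
  have := Fintype.ofFinite (Line α ι)
  let dat : Line α ι → L × L := fun l =>
    (∑ i ∈ Finset.univ.filter (fun i => ¬ l.idxFun i = none), w i * ((l.idxFun i).map f).getD 0,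
      ∑ i ∈ Finset.univ.filter (fun i => l.idxFun i = none), w i)
  refine ⟨Finset.univ.image dat, ?_, fun χ x₀ => ?_⟩
  · intro p hp
    obtain ⟨l, -, rfl⟩ := Finset.mem_image.1 hp
    refine hw _ ?_
    obtain ⟨i, hi⟩ := l.proper
    exact ⟨i, Finset.mem_filter.2 ⟨Finset.mem_univ i, hi⟩⟩
  · obtain ⟨l, c, hc⟩ := hmono fun v => χ (x₀ + φ (∑ i, w i * f (v i)))
    refine ⟨dat l, Finset.mem_image_of_mem _ (Finset.mem_univ _), c, fun a => ?_⟩
    rw [← hc a]
    congr 3
    simp only [dat]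
    rw [← Finset.sum_filter_add_sum_filter_not Finset.univ (fun i => l.idxFun i = none),
      add_comm, Finset.sum_mul]
    congr 1
    · refine Finset.sum_congr rfl fun i hi => ?_
      rw [Line.apply_none l a i (Finset.mem_filter.1 hi).2]
    · refine Finset.sum_congr rfl fun i hi => ?_
      obtain ⟨b, hb⟩ := Option.ne_none_iff_exists'.1 (Finset.mem_filter.1 hi).2
      rw [Line.apply_some hb, hb]
      rfl

/-- If the squares have finitely many cosets in `L'` with representatives from `L`, then finitely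
many `(A, d)`, `A, d ∈ L`, are enough in order that for every translation `x₀` the split cubic takes a
square value at `(x₀ + A) / d`. -/
theorem square_family {L L' : Type*} [Field L] [Infinite L] [Field L'] (φ : L →+* L')
    (C : Finset L) (hC0 : ∀ c ∈ C, c ≠ 0)
    (hC : ∀ x : L', x ≠ 0 → ∃ c ∈ C, ∃ y : L', x = φ c * y ^ 2)
    (e₁ e₂ e₃ : L) (he : e₁ ≠ e₂) :
    ∃ F : Finset (L × L), (∀ p ∈ F, p.2 ≠ 0) ∧ ∀ x₀ : L', ∃ p ∈ F, ∃ w : L', w ^ 2 =
      ((x₀ + φ p.1) / φ p.2 - φ e₁) * ((x₀ + φ p.1) / φ p.2 - φ e₂) *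
        ((x₀ + φ p.1) / φ p.2 - φ e₃) := by
  classical
  -- colouring by representatives
  choose! rep hrepC yv hyv using hC
  let χ : L' → Option C := fun x => if h : x ≠ 0 then some ⟨rep x, hrepC x h⟩ else none
  have hχ0 : ∀ x, χ x = none → x = 0 := by
    intro x hx
    by_contra h
    simp [χ, h] at hx
  have hχ : ∀ x (g : C), χ x = some g → x ≠ 0 ∧ ∃ y : L', x = φ g * y ^ 2 := by
    intro x g hx
    by_cases h : x = 0
    · simp [χ, h] at hx
    · refine ⟨h, yv x, ?_⟩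
      have h2 : (⟨rep x, hrepC x h⟩ : C) = g := by
        have := hx
        simp only [χ, ne_eq, h, not_false_eq_true, dite_true, Option.some.injEq] at this
        exact this
      rw [← h2]
      exact hyv x h
  let ev : Fin 3 → L := ![e₁, e₂, e₃]
  obtain ⟨F, hF0, hF⟩ := gallai_family φ (C × Fin 3) (fun p => - (p.1 : L) * ev p.2) (Option C)
  refine ⟨(F ×ˢ C).image fun q => (q.1.1, q.1.2 * q.2), ?_, fun x₀ => ?_⟩
  · intro p hp
    obtain ⟨q, hq, rfl⟩ := Finset.mem_image.1 hp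
    rw [Finset.mem_product] at hq
    exact mul_ne_zero (hF0 _ hq.1) (hC0 _ hq.2)
  obtain ⟨⟨A, δ⟩, hAδ, κ₀, hκ⟩ := hF χ x₀
  have hδ : δ ≠ 0 := hF0 _ hAδ
  simp only at hκ
  have hinj : Function.Injective φ := φ.injective
  rcases κ₀ with _ | g
  · -- all values vanish: impossible
    exfalso
    obtain ⟨c, hc, -⟩ := hrepC 1 one_ne_zero |> fun h => (⟨rep 1, h, trivial⟩ : ∃ c, c ∈ C ∧ True)
    have h1 := hχ0 _ (hκ (⟨c, hc⟩, 0))
    have h2 := hχ0 _ (hκ (⟨c, hc⟩, 1))
    have h3 : φ (A + δ * (-c * e₁)) = φ (A + δ * (-c * e₂)) := by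
      have := h1.trans h2.symm
      simpa [ev] using this
    have h4 := hinj h3
    apply he
    have h5 : δ * c * (e₁ - e₂) = 0 := by linear_combination -h4
    rcases mul_eq_zero.1 h5 with h6 | h6
    · exact absurd h6 (mul_ne_zero hδ (hC0 c hc))
    · exact sub_eq_zero.1 h6
  · -- choose the representative of g / δ
    have hg0 : φ g ≠ 0 := by
      rw [Ne, map_eq_zero]
      exact hC0 g g.2
    have hδ0 : φ δ ≠ 0 := by
      rw [Ne, map_eq_zero]
      exact hδ
    obtain ⟨c, hc, y, hy⟩ : ∃ c ∈ C, ∃ y : L', φ g / φ δ = φ c * y ^ 2 :=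
      ⟨rep (φ g / φ δ), hrepC _ (div_ne_zero hg0 hδ0), _, hyv _ (div_ne_zero hg0 hδ0)⟩
    have hc0 : φ c ≠ 0 := by
      rw [Ne, map_eq_zero]
      exact hC0 c hc
    have hy0 : y ≠ 0 := by
      rintro rfl
      rw [zero_pow two_ne_zero, mul_zero, div_eq_zero_iff] at hy
      rcases hy with h | h
      · exact hg0 h
      · exact hδ0 h
    obtain ⟨-, y₁, hy₁⟩ := hχ _ g (hκ (⟨c, hc⟩, 0))
    obtain ⟨-, y₂, hy₂⟩ := hχ _ g (hκ (⟨c, hc⟩, 1))
    obtain ⟨-, y₃, hy₃⟩ := hχ _ g (hκ (⟨c, hc⟩, 2))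
    have hd : φ (δ * c) = φ g / y ^ 2 := by
      rw [map_mul]
      field_simp
      field_simp at hy
      linear_combination -hy
    have hdne : φ (δ * c) ≠ 0 := by
      rw [map_mul]
      exact mul_ne_zero hδ0 hc0
    refine ⟨(A, δ * c), Finset.mem_image.2 ⟨((A, δ), c), Finset.mem_product.2 ⟨hAδ, hc⟩, rfl⟩,
      y₁ * y₂ * y₃ * y ^ 3, ?_⟩
    change _ = ((x₀ + φ A) / φ (δ * c) - φ e₁) * ((x₀ + φ A) / φ (δ * c) - φ e₂) *
        ((x₀ + φ A) / φ (δ * c) - φ e₃)
    have e1 : x₀ + φ A - φ (δ * c) * φ e₁ = φ g * y₁ ^ 2 := by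
      rw [← hy₁]
      simp [ev]
      ring
    have e2 : x₀ + φ A - φ (δ * c) * φ e₂ = φ g * y₂ ^ 2 := by
      rw [← hy₂]
      simp [ev]
      ring
    have e3 : x₀ + φ A - φ (δ * c) * φ e₃ = φ g * y₃ ^ 2 := by
      rw [← hy₃]
      simp [ev]
      ring
    have f1 : (x₀ + φ A) / φ (δ * c) - φ e₁ = y ^ 2 * y₁ ^ 2 := by
      have : (x₀ + φ A) / φ (δ * c) - φ e₁ = (x₀ + φ A - φ (δ * c) * φ e₁) / φ (δ * c) := by
        field_simp
      rw [this, e1, hd]
      field_simp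
    have f2 : (x₀ + φ A) / φ (δ * c) - φ e₂ = y ^ 2 * y₂ ^ 2 := by
      have : (x₀ + φ A) / φ (δ * c) - φ e₂ = (x₀ + φ A - φ (δ * c) * φ e₂) / φ (δ * c) := by
        field_simp
      rw [this, e2, hd]
      field_simp
    have f3 : (x₀ + φ A) / φ (δ * c) - φ e₃ = y ^ 2 * y₃ ^ 2 := by
      have : (x₀ + φ A) / φ (δ * c) - φ e₃ = (x₀ + φ A - φ (δ * c) * φ e₃) / φ (δ * c) := by
        field_simp
      rw [this, e3, hd]
      field_simp
    rw [f1, f2, f3]
    ring

end Pool.MP_f30f9b_al.Ell
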