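import Mathlib

/-!
# The splitting field of the two-torsion polynomial
-/

set_option autoImplicit false

namespace Pool.MP_f30f9b_al.Ell

open Polynomial

/-- the roots of the two-torsion polynomial in a splitting field which is Galois -/
theorem exists_roots {K : Type*} [Field K] (h2 : (2 : K) ≠ 0) (W : WeierstrassCurve K)
    [W.IsElliptic] {L : Type*} [Field L] [Algebra K L]
    (hs : (W.twoTorsionPolynomial.toPoly.map (algebraMap K L)).Splits) :
    ∃ e₁ e₂ e₃ : L, e₁ ≠ e₂ ∧ e₁ ≠ e₃ ∧ e₂ ≠ e₃ ∧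
      algebraMap K L W.b₂ = -4 * (e₁ + e₂ + e₃) ∧
      2 * algebraMap K L W.b₄ = 4 * (e₁ * e₂ + e₁ * e₃ + e₂ * e₃) ∧
      algebraMap K L W.b₆ = -4 * (e₁ * e₂ * e₃) := by
  have h4 : (4 : K) ≠ 0 := by
    have : (4 : K) = 2 * 2 := by norm_num
    rw [this]
    exact mul_ne_zero h2 h2
  have ha : W.twoTorsionPolynomial.a ≠ 0 := h4
  obtain ⟨e₁, e₂, e₃, h3⟩ := (Cubic.splits_iff_roots_eq_three ha).1 hs
  have hd := (Cubic.discr_ne_zero_iff_roots_ne ha h3).1
    (W.twoTorsionPolynomial_discr_ne_zero_of_isElliptic (IsUnit.mk0 _ h2))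
  refine ⟨e₁, e₂, e₃, hd.1, hd.2.1, hd.2.2, ?_, ?_, ?_⟩
  · have := Cubic.b_eq_three_roots ha h3
    simp only [WeierstrassCurve.twoTorsionPolynomial, map_ofNat] at this
    rw [this]
    ring
  · have := Cubic.c_eq_three_roots ha h3
    simp only [WeierstrassCurve.twoTorsionPolynomial, map_mul, map_ofNat] at this
    rw [this]
  · have := Cubic.d_eq_three_roots ha h3
    simp only [WeierstrassCurve.twoTorsionPolynomial, map_ofNat] at this
    rw [this]
    ring

/-- the splitting field of the two-torsion polynomial is Galois -/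
theorem isGalois_splittingField {K : Type*} [Field K] (h2 : (2 : K) ≠ 0) (W : WeierstrassCurve K)
    [W.IsElliptic] : IsGalois K W.twoTorsionPolynomial.toPoly.SplittingField := by
  have h4 : (4 : K) ≠ 0 := by
    have : (4 : K) = 2 * 2 := by norm_num
    rw [this]
    exact mul_ne_zero h2 h2
  have ha : W.twoTorsionPolynomial.a ≠ 0 := h4
  have h0 : W.twoTorsionPolynomial.toPoly ≠ 0 := Cubic.ne_zero_of_a_ne_zero ha
  have hs := SplittingField.splits W.twoTorsionPolynomial.toPoly
  have hn := (Cubic.discr_ne_zero_iff_roots_nodup (φ := algebraMap K _) ha hs).1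
    (W.twoTorsionPolynomial_discr_ne_zero_of_isElliptic (IsUnit.mk0 _ h2))
  have hsep : W.twoTorsionPolynomial.toPoly.Separable := by
    rw [← nodup_aroots_iff_of_splits h0 hs]
    rw [Cubic.map_roots] at hn
    exact hn
  exact IsGalois.of_separable_splitting_field hsep

end Pool.MP_f30f9b_al.Ell
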