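import Mathlib

/-!
# Fields with finitely many square classes
-/

set_option autoImplicit false

namespace Pool.MP_f30f9b_al.Ell

/-- the squares of the nonzero elements of `L` have finitely many cosets -/
def SqFin (L : Type*) [Field L] : Prop :=
  ∃ C : Finset L, (∀ c ∈ C, c ≠ 0) ∧ ∀ x : L, x ≠ 0 → ∃ c ∈ C, ∃ y : L, x = c * y ^ 2

/-- if the unit squares have finite index -/
theorem sqFin_of_index {L : Type*} [Field L]
    (h : (powMonoidHom 2 : Lˣ →* Lˣ).range.index ≠ 0) : SqFin L := by
  classical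
  have hfin : Finite (Lˣ ⧸ (powMonoidHom 2 : Lˣ →* Lˣ).range) :=
    Subgroup.index_ne_zero_iff_finite.1 h
  have := Fintype.ofFinite (Lˣ ⧸ (powMonoidHom 2 : Lˣ →* Lˣ).range)
  refine ⟨Finset.univ.image fun q : Lˣ ⧸ (powMonoidHom 2 : Lˣ →* Lˣ).range =>
    ((Quotient.out q : Lˣ) : L), ?_, ?_⟩
  · intro c hc
    rw [Finset.mem_image] at hc
    obtain ⟨q, -, rfl⟩ := hc
    exact Units.ne_zero _
  · intro x hx
    let u : Lˣ := Units.mk0 x hx
    refine ⟨((Quotient.out (QuotientGroup.mk u : Lˣ ⧸ (powMonoidHom 2 : Lˣ →* Lˣ).range) : Lˣ) : L),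
      Finset.mem_image_of_mem _ (Finset.mem_univ _), ?_⟩
    have h1 : (QuotientGroup.mk (Quotient.out (QuotientGroup.mk u :
        Lˣ ⧸ (powMonoidHom 2 : Lˣ →* Lˣ).range)) : Lˣ ⧸ (powMonoidHom 2 : Lˣ →* Lˣ).range) =
        QuotientGroup.mk u := QuotientGroup.out_eq' _
    rw [QuotientGroup.eq] at h1
    obtain ⟨v, hv⟩ := h1
    refine ⟨(v : L), ?_⟩
    have h2 : u = Quotient.out (QuotientGroup.mk u :
        Lˣ ⧸ (powMonoidHom 2 : Lˣ →* Lˣ).range) * v ^ 2 := by
      have h3 : v ^ 2 = (Quotient.out (QuotientGroup.mk u :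
        Lˣ ⧸ (powMonoidHom 2 : Lˣ →* Lˣ).range))⁻¹ * u := hv
      rw [h3, mul_inv_cancel_left]
    have h3 := congrArg (Units.val) h2
    simpa [u] using h3

/-- A criterion: the square classes are separated by a finite colouring. -/
theorem sqFin_of_colouring {L : Type*} [Field L] {κ : Type*} [Finite κ] (χ : L → κ)
    (h : ∀ a b : L, a ≠ 0 → b ≠ 0 → χ a = χ b → ∃ y : L, a * b = y ^ 2) : SqFin L := by
  classical
  have := Fintype.ofFinite κ
  let rep : κ → L := fun k => if h : ∃ a : L, a ≠ 0 ∧ χ a = k then h.choose else 1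
  refine ⟨Finset.univ.image rep, ?_, ?_⟩
  · intro c hc
    rw [Finset.mem_image] at hc
    obtain ⟨k, -, rfl⟩ := hc
    by_cases hk : ∃ a : L, a ≠ 0 ∧ χ a = k
    · simp only [rep, hk, dite_true]
      exact hk.choose_spec.1
    · simp only [rep, hk, dite_false]
      exact one_ne_zero
  · intro x hx
    have hk : ∃ a : L, a ≠ 0 ∧ χ a = χ x := ⟨x, hx, rfl⟩
    have h1 : rep (χ x) = hk.choose := by
      simp only [rep, hk, dite_true]
    have h2 := hk.choose_spec
    rw [← h1] at h2
    obtain ⟨y, hy⟩ := h x (rep (χ x)) hx h2.1 h2.2.symm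
    refine ⟨rep (χ x), Finset.mem_image_of_mem _ (Finset.mem_univ _), y / rep (χ x), ?_⟩
    field_simp [h2.1]
    rw [← hy]

/-- A dense subgroup of the Galois group contains, for every automorphism and every finite
subextension, an element with the same restriction. -/
theorem exists_eq_on {K E : Type*} [Field K] [Field E] [Algebra K E]
    (H : Subgroup Gal(E/K)) (hcl : closure (H : Set Gal(E/K)) = Set.univ)
    (M : IntermediateField K E) [FiniteDimensional K M] (g : Gal(E/K)) :
    ∃ h ∈ H, ∀ x ∈ M, g x = h x := by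
  have hopen : IsOpen {h : Gal(E/K) | g⁻¹ * h ∈ M.fixingSubgroup} :=
    (M.fixingSubgroup_isOpen).preimage (continuous_const.mul continuous_id)
  obtain ⟨h, h1, h2⟩ := (dense_iff_closure_eq.2 hcl).inter_open_nonempty _ hopen
    ⟨g, by simp⟩
  refine ⟨h, h2, fun x hx => ?_⟩
  have h3 := (IntermediateField.mem_fixingSubgroup_iff _ _).1 h1 x hx
  have h4 : g • ((g⁻¹ * h) • x) = g • x := congrArg _ h3
  rw [← mul_smul, mul_inv_cancel_left] at h4
  exact h4.symm

/-- A square root of an element of an intermediate field which is fixed by the automorphisms over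
this field lies in this field (characteristic not two). -/
theorem mem_of_fixed {K E : Type*} [Field K] [Field E] [Algebra K E] [Normal K E]
    (h2 : (2 : E) ≠ 0) (M : IntermediateField K E) (u : E) (hu : u ^ 2 ∈ M)
    (hfix : ∀ g : Gal(E/K), (∀ x ∈ M, g x = x) → g u = u) : u ∈ M := by
  by_contra hM
  have hu0 : u ≠ 0 := by
    rintro rfl
    exact hM M.zero_mem
  -- the minimal polynomials of u and -u agree
  have hmin : ∀ v : E, v ^ 2 = u ^ 2 → v ∉ M →
      minpoly M v = Polynomial.X ^ 2 - Polynomial.C (⟨u ^ 2, hu⟩ : M) := by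
    intro v hv hvM
    symm
    have hmonic : (Polynomial.X ^ 2 - Polynomial.C (⟨u ^ 2, hu⟩ : M)).Monic :=
      Polynomial.monic_X_pow_sub_C _ two_ne_zero
    refine minpoly.eq_of_irreducible_of_monic ?_ ?_ hmonic
    · rw [Polynomial.irreducible_iff_roots_eq_zero_of_degree_le_three
        (by rw [Polynomial.natDegree_X_pow_sub_C]) (by rw [Polynomial.natDegree_X_pow_sub_C]; norm_num)]
      rw [Multiset.eq_zero_iff_forall_notMem]
      intro r hr
      rw [Polynomial.mem_roots hmonic.ne_zero, Polynomial.IsRoot.def] at hr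
      simp only [Polynomial.eval_sub, Polynomial.eval_pow, Polynomial.eval_X,
        Polynomial.eval_C, sub_eq_zero] at hr
      have h3 : (r : E) ^ 2 = v ^ 2 := by
        rw [hv]
        exact congrArg Subtype.val hr
      rcases sq_eq_sq_iff_eq_or_eq_neg.1 h3 with h4 | h4
      · exact hvM (h4 ▸ r.2)
      · apply hvM
        have : v = -(r : E) := by rw [h4, neg_neg]
        rw [this]
        exact M.neg_mem r.2
    · simp only [map_sub, map_pow, Polynomial.aeval_X, Polynomial.aeval_C]
      rw [hv, sub_eq_zero]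
      rfl
  have h3 := hmin u rfl hM
  have h4 := hmin (-u) (by ring) (fun h => hM (by simpa using M.neg_mem h))
  have hN : Normal M E := Normal.tower_top_of_normal K M E
  obtain ⟨g, hg⟩ := (Normal.minpoly_eq_iff_mem_orbit (F := M) E).1 (h4.trans h3.symm)
  have h5 := hfix (g.restrictScalars K) fun x hx => g.commutes ⟨x, hx⟩
  have h6 : g u = -u := hg
  have h7 : g u = u := h5
  rw [h6] at h7
  have h8 : 2 * u = 0 := by linear_combination -h7
  rcases mul_eq_zero.1 h8 with h | h
  · exact h2 h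
  · exact hu0 h

/-- Topologically finitely generated automorphism group of an algebraically closed algebraic
extension: every finite extension of the base field has finitely many square classes. -/
theorem sqFin_of_fg_aux {K E : Type*} [Field K] [Field E] [Algebra K E] [Normal K E]
    (hsq : ∀ e : E, ∃ r : E, r ^ 2 = e) (h2 : (2 : K) ≠ 0)
    (S : Set Gal(E/K)) (hS : S.Finite)
    (hcl : closure ((Subgroup.closure S : Subgroup Gal(E/K)) : Set Gal(E/K)) = Set.univ)
    (L : Type*) [Field L] [Algebra K L] [FiniteDimensional K L] (τ₀ : L →ₐ[K] E) : SqFin L := by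
  classical
  have hSf : Finite S := hS
  have h2E : (2 : E) ≠ 0 := by
    have := (map_ne_zero (algebraMap K E)).2 h2
    rwa [map_ofNat] at this
  choose rt hrt using hsq
  -- the colouring
  let χ : L → (S × (L →ₐ[K] E) → Prop) := fun a p =>
    (p.1 : Gal(E/K)) (rt (p.2 a)) = rt (((p.1 : Gal(E/K)) : E →ₐ[K] E).comp p.2 a)
  have hfinT : Finite (L →ₐ[K] E) := inferInstance
  refine sqFin_of_colouring χ fun a b ha hb hab => ?_
  -- the products of the roots
  let u : (L →ₐ[K] E) → E := fun τ => rt (τ a) * rt (τ b)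
  have hu2 : ∀ τ, u τ ^ 2 = τ (a * b) := by
    intro τ
    simp only [u]
    rw [mul_pow, hrt, hrt, map_mul]
  have hsign : ∀ (g : Gal(E/K)) (τ : L →ₐ[K] E) (c : L),
      g (rt (τ c)) = rt ((g : E →ₐ[K] E).comp τ c) ∨
      g (rt (τ c)) = - rt ((g : E →ₐ[K] E).comp τ c) := by
    intro g τ c
    apply sq_eq_sq_iff_eq_or_eq_neg.1
    rw [← map_pow, hrt, hrt]
    rfl
  have hS1 : ∀ g ∈ S, ∀ τ, g (u τ) = u ((g : E →ₐ[K] E).comp τ) := by
    intro g hg τ
    have h1 : (χ a (⟨g, hg⟩, τ)) = χ b (⟨g, hg⟩, τ) := congrFun hab _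
    simp only [χ] at h1
    simp only [u, map_mul]
    by_cases h : g (rt (τ a)) = rt ((g : E →ₐ[K] E).comp τ a)
    · have h3 : g (rt (τ b)) = rt ((g : E →ₐ[K] E).comp τ b) := (h1 ▸ h :)
      rw [h, h3]
    · have h3 : ¬ g (rt (τ b)) = rt ((g : E →ₐ[K] E).comp τ b) := (h1 ▸ h :)
      rw [(hsign g τ a).resolve_left h, (hsign g τ b).resolve_left h3]
      ring
  -- the subgroup
  let H : Subgroup Gal(E/K) :=
    { carrier := {g | ∀ τ, g (u τ) = u ((g : E →ₐ[K] E).comp τ)}
      mul_mem' := by
        intro g h hg hh τ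
        have h3 := hh τ
        have h4 := hg ((h : E →ₐ[K] E).comp τ)
        change g (h (u τ)) = _
        rw [h3, h4]
        rfl
      one_mem' := by
        intro τ
        rfl
      inv_mem' := by
        intro g hg τ
        have h3 := hg (((g⁻¹ : Gal(E/K)) : E →ₐ[K] E).comp τ)
        have h4 : (g : E →ₐ[K] E).comp (((g⁻¹ : Gal(E/K)) : E →ₐ[K] E).comp τ) = τ := by
          ext x
          change g (g⁻¹ (τ x)) = τ x
          exact g.apply_symm_apply _
        rw [h4] at h3
        rw [← h3]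
        change g⁻¹ (g _) = _
        exact g.symm_apply_apply _ }
  have hSH : Subgroup.closure S ≤ H := (Subgroup.closure_le H).2 fun g hg τ => hS1 g hg τ
  have hall : ∀ (g : Gal(E/K)), g (u τ₀) = u ((g : E →ₐ[K] E).comp τ₀) := by
    intro g
    have hf1 : FiniteDimensional K (IntermediateField.adjoin K {u τ₀}) :=
      IntermediateField.adjoin.finiteDimensional (Algebra.IsIntegral.isIntegral (u τ₀))
    have hf2 : FiniteDimensional K τ₀.fieldRange :=
      Module.Finite.of_surjective τ₀.rangeRestrict.toLinearMap τ₀.rangeRestrict_surjective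
    obtain ⟨h, hh, heq⟩ := exists_eq_on (Subgroup.closure S) hcl
      (IntermediateField.adjoin K {u τ₀} ⊔ τ₀.fieldRange) g
    have h3 : g (u τ₀) = h (u τ₀) := heq _
      ((le_sup_left : IntermediateField.adjoin K {u τ₀} ≤ _)
        (IntermediateField.mem_adjoin_simple_self K _))
    have h4 : (g : E →ₐ[K] E).comp τ₀ = (h : E →ₐ[K] E).comp τ₀ := by
      ext x
      exact heq _ ((le_sup_right : τ₀.fieldRange ≤ _) ⟨x, rfl⟩)
    rw [h3, h4]
    exact hSH hh τ₀
  have hmem : u τ₀ ∈ τ₀.fieldRange := by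
    refine mem_of_fixed h2E _ _ (by rw [hu2]; exact ⟨_, rfl⟩) fun g hg => ?_
    rw [hall g]
    congr 1
    ext x
    exact hg _ ⟨x, rfl⟩
  obtain ⟨y, hy⟩ := hmem
  refine ⟨y, τ₀.injective ?_⟩
  change τ₀ (a * b) = τ₀ (y ^ 2)
  have hy2 : τ₀ y = u τ₀ := hy
  rw [← hu2, map_pow, hy2]

/-- If the absolute Galois group of `K` is topologically finitely generated, then every finite
extension of `K` has finitely many square classes. -/
theorem sqFin_of_fg {K : Type*} [Field K] (h2 : (2 : K) ≠ 0)
    (hfg : ∃ S : Set (Field.absoluteGaloisGroup K), S.Finite ∧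
        closure ((Subgroup.closure S : Subgroup (Field.absoluteGaloisGroup K)) :
          Set (Field.absoluteGaloisGroup K)) = Set.univ)
    (L : Type*) [Field L] [Algebra K L] [FiniteDimensional K L] : SqFin L := by
  obtain ⟨S, hS, hcl⟩ := hfg
  refine sqFin_of_fg_aux (E := AlgebraicClosure K) (fun e => ?_) h2 S hS hcl L
    (IsAlgClosed.lift (M := AlgebraicClosure K) (R := K) (S := L))
  obtain ⟨z, hz⟩ := IsAlgClosed.exists_pow_nat_eq e two_pos
  exact ⟨z, hz⟩

end Pool.MP_f30f9b_al.Ell
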