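import Pool.Agent.H.MP_f30f9b_al.Main
import Pool.Agent.H.MP_f30f9b_al.Split
import Pool.Agent.H.MP_f30f9b_al.SqFin

/-!
# Elliptic curves over fields with finitely generated Galois group
-/

set_option autoImplicit false

namespace Pool.MP_f30f9b_al.Ell

open WeierstrassCurve

/-- If the splitting field of the two-torsion polynomial has finitely many square classes. -/
theorem infinite_of_sqFin {K : Type*} [Field K] [Infinite K] (h2 : (2 : K) ≠ 0)
    (W : WeierstrassCurve K) [W.IsElliptic]
    (hS : SqFin W.twoTorsionPolynomial.toPoly.SplittingField) :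
    {p : K × K | W.toAffine.Equation p.1 p.2}.Infinite := by
  have hG := isGalois_splittingField h2 W
  obtain ⟨e₁, e₂, e₃, he, -, -, hb2, hb4, hb6⟩ := exists_roots h2 W
    (Polynomial.SplittingField.splits W.twoTorsionPolynomial.toPoly)
  obtain ⟨C, hC0, hC⟩ := hS
  exact infinite_points h2 W e₁ e₂ e₃ he hb2 hb4 hb6 C hC0 hC

/-- Elliptic curves over an infinite field, of characteristic not two: it is enough that the squares
have finite index in the splitting field of the two-torsion polynomial. -/
theorem infinite_of_index {K : Type*} [Field K] [Infinite K] (h2 : (2 : K) ≠ 0)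
    (W : WeierstrassCurve K) [W.IsElliptic]
    (hS : (powMonoidHom 2 : (W.twoTorsionPolynomial.toPoly.SplittingField)ˣ →*
      (W.twoTorsionPolynomial.toPoly.SplittingField)ˣ).range.index ≠ 0) :
    {p : K × K | W.toAffine.Equation p.1 p.2}.Infinite :=
  infinite_of_sqFin h2 W (sqFin_of_index hS)

/-- Elliptic curves over an infinite field, of characteristic not two, with topologically finitely
generated Galois group have infinitely many points. -/
theorem infinite_of_fg {K : Type*} [Field K] [Infinite K] (h2 : (2 : K) ≠ 0)
    (hfg : ∃ S : Set (Field.absoluteGaloisGroup K), S.Finite ∧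
        closure ((Subgroup.closure S : Subgroup (Field.absoluteGaloisGroup K)) :
          Set (Field.absoluteGaloisGroup K)) = Set.univ)
    (W : WeierstrassCurve K) [W.IsElliptic] :
    {p : K × K | W.toAffine.Equation p.1 p.2}.Infinite :=
  infinite_of_sqFin h2 W (sqFin_of_fg h2 hfg _)

end Pool.MP_f30f9b_al.Ell
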