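import Mathlib

/-!
# A Gallai type lemma with a free translation, and squares

`L → L'` is a homomorphism from an infinite field to a commutative ring. For every finite colouring
of `L'`, every finite family `f : α → L` and every `x₀ : L'` there are constants `A δ : L`, `δ ≠ 0`,
such that all `x₀ + (A + δ f a)` have the same colour (Hales-Jewett).
Then: if the squares of the field `L'` have finitely many coset representatives which come from `L`,
for every `x₀ : L'` there are `A d : L`, `d ≠ 0` such that the value of the cubic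
`(z - e₁)(z - e₂)(z - e₃)` at `z = (x₀ + A)/d` is a square.
-/

set_option autoImplicit false

namespace Pool.MP_f30f9b_al.Ell

open Combinatorics

/-- weights in an infinite field all of whose nonempty subset sums are nonzero -/
theorem exists_weights (L : Type*) [Field L] [Infinite L] (ι : Type*) [Fintype ι] :
    ∃ w : ι → L, ∀ S : Finset ι, S.Nonempty → ∑ i ∈ S, w i ≠ 0 := by
  classical
  have key : ∀ T : Finset ι, ∃ w : ι → L, ∀ S : Finset ι, S ⊆ T → S.Nonempty →
      ∑ i ∈ S, w i ≠ 0 := by
    intro T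
    induction T using Finset.induction_on with
    | empty =>
      refine ⟨fun _ => 0, fun S hS hne => ?_⟩
      rw [Finset.subset_empty] at hS
      exact absurd hS hne.ne_empty
    | insert a T ha ih =>
      obtain ⟨w, hw⟩ := ih
      -- choose a value at a avoiding the negatives of the subset sums
      obtain ⟨c, hc⟩ := Infinite.exists_notMem_finset
        (T.powerset.image fun S => - ∑ i ∈ S, w i)
      refine ⟨Function.update w a c, fun S hS hne => ?_⟩
      have hsum : ∀ S' : Finset ι, S' ⊆ T → ∑ i ∈ S', Function.update w a c i =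
          ∑ i ∈ S', w i := by
        intro S' hS'
        refine Finset.sum_congr rfl fun i hi => ?_
        have : i ≠ a := fun h => ha (h ▸ hS' hi)
        simp [Function.update_of_ne this]
      by_cases haS : a ∈ S
      · have hsub : S.erase a ⊆ T := by
          intro i hi
          have h1 := Finset.mem_of_mem_erase hi
          have h2 := Finset.ne_of_mem_erase hi
          rcases Finset.mem_insert.1 (hS h1) with h | h
          · exact absurd h h2
          · exact h
        rw [← Finset.add_sum_erase S _ haS, hsum _ hsub, Function.update_self]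
        intro h0
        apply hc
        rw [Finset.mem_image]
        refine ⟨S.erase a, Finset.mem_powerset.2 hsub, ?_⟩
        have : c = - ∑ i ∈ S.erase a, w i := eq_neg_of_add_eq_zero_left h0
        exact this.symm
      · have hsub : S ⊆ T := by
          intro i hi
          rcases Finset.mem_insert.1 (hS hi) with h | h
          · exact absurd (h ▸ hi) haS
          · exact h
        rw [hsum _ hsub]
        exact hw S hsub hne
  obtain ⟨w, hw⟩ := key Finset.univ
  exact ⟨w, fun S hS => hw S (Finset.subset_univ S) hS⟩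

/-- Gallai's theorem with constants in `L` and a free translation in `L'`. -/
theorem gallai {L L' : Type*} [Field L] [Infinite L] [CommRing L'] (φ : L →+* L')
    (α : Type*) [Finite α] (f : α → L) (κ : Type*) [Finite κ] (χ : L' → κ) (x₀ : L') :
    ∃ A δ : L, δ ≠ 0 ∧ ∃ c : κ, ∀ a : α, χ (x₀ + φ (A + δ * f a)) = c := by
  classical
  obtain ⟨ι, hι, hmono⟩ := Line.exists_mono_in_high_dimension α κ
  obtain ⟨w, hw⟩ := exists_weights L ι
  obtain ⟨l, c, hc⟩ := hmono fun v => χ (x₀ + φ (∑ i, w i * f (v i)))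
  let S : Finset ι := Finset.univ.filter fun i => l.idxFun i = none
  have hS : S.Nonempty := by
    obtain ⟨i, hi⟩ := l.proper
    exact ⟨i, Finset.mem_filter.2 ⟨Finset.mem_univ i, hi⟩⟩
  refine ⟨∑ i ∈ Finset.univ.filter (fun i => ¬ l.idxFun i = none),
    w i * ((l.idxFun i).map f).getD 0, ∑ i ∈ S, w i, hw S hS, c, fun a => ?_⟩
  rw [← hc a]
  congr 3
  rw [← Finset.sum_filter_add_sum_filter_not Finset.univ (fun i => l.idxFun i = none),
    add_comm, Finset.sum_mul]
  congr 1
  · refine Finset.sum_congr rfl fun i hi => ?_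
    rw [Line.apply_none l a i (Finset.mem_filter.1 hi).2]
  · refine Finset.sum_congr rfl fun i hi => ?_
    obtain ⟨b, hb⟩ := Option.ne_none_iff_exists'.1 (Finset.mem_filter.1 hi).2
    rw [Line.apply_some hb, hb]
    rfl

/-- If the squares have finitely many cosets in `L'` with representatives from `L`, then for every
translation `x₀` the split cubic takes a square value at some `(x₀ + A) / d`, `A, d ∈ L`. -/
theorem exists_square_value {L L' : Type*} [Field L] [Infinite L] [Field L'] (φ : L →+* L')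
    (C : Finset L) (hC0 : ∀ c ∈ C, c ≠ 0)
    (hC : ∀ x : L', x ≠ 0 → ∃ c ∈ C, ∃ y : L', x = φ c * y ^ 2)
    (e₁ e₂ e₃ : L) (he : e₁ ≠ e₂) (x₀ : L') :
    ∃ A d : L, d ≠ 0 ∧ ∃ w : L', w ^ 2 =
      ((x₀ + φ A) / φ d - φ e₁) * ((x₀ + φ A) / φ d - φ e₂) * ((x₀ + φ A) / φ d - φ e₃) := by
  classical
  -- colouring by representatives
  choose! rep hrepC yv hyv using hC
  let χ : L' → Option C := fun x => if h : x ≠ 0 then some ⟨rep x, hrepC x h⟩ else none
  have hχ0 : ∀ x, χ x = none → x = 0 := by
    intro x hx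
    by_contra h
    simp [χ, h] at hx
  have hχ : ∀ x (g : C), χ x = some g → x ≠ 0 ∧ ∃ y : L', x = φ g * y ^ 2 := by
    intro x g hx
    by_cases h : x = 0
    · simp [χ, h] at hx
    · refine ⟨h, yv x, ?_⟩
      have h2 : (⟨rep x, hrepC x h⟩ : C) = g := by
        have := hx
        simp only [χ, ne_eq, h, not_false_eq_true, dite_true, Option.some.injEq] at this
        exact this
      rw [← h2]
      exact hyv x h
  let ev : Fin 3 → L := ![e₁, e₂, e₃]
  obtain ⟨A, δ, hδ, κ₀, hκ⟩ := gallai φ (C × Fin 3) (fun p => - (p.1 : L) * ev p.2) (Option C) χ x₀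
  have hinj : Function.Injective φ := φ.injective
  rcases κ₀ with _ | g
  · -- all values vanish: impossible
    exfalso
    obtain ⟨c, hc, -⟩ := hrepC 1 one_ne_zero |> fun h => (⟨rep 1, h, trivial⟩ : ∃ c, c ∈ C ∧ True)
    have h1 := hχ0 _ (hκ (⟨c, hc⟩, 0))
    have h2 := hχ0 _ (hκ (⟨c, hc⟩, 1))
    have h3 : φ (A + δ * (-c * e₁)) = φ (A + δ * (-c * e₂)) := by
      have := h1.trans h2.symm
      simpa [ev] using this
    have h4 := hinj h3
    apply he
    have h5 : δ * c * (e₁ - e₂) = 0 := by linear_combination -h4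
    rcases mul_eq_zero.1 h5 with h6 | h6
    · exact absurd h6 (mul_ne_zero hδ (hC0 c hc))
    · exact sub_eq_zero.1 h6
  · -- choose the representative of g / δ
    have hg0 : φ g ≠ 0 := by
      rw [Ne, map_eq_zero]
      exact hC0 g g.2
    have hδ0 : φ δ ≠ 0 := by
      rw [Ne, map_eq_zero]
      exact hδ
    obtain ⟨c, hc, y, hy⟩ : ∃ c ∈ C, ∃ y : L', φ g / φ δ = φ c * y ^ 2 :=
      ⟨rep (φ g / φ δ), hrepC _ (div_ne_zero hg0 hδ0), _, hyv _ (div_ne_zero hg0 hδ0)⟩
    have hc0 : φ c ≠ 0 := by
      rw [Ne, map_eq_zero]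
      exact hC0 c hc
    have hy0 : y ≠ 0 := by
      rintro rfl
      rw [zero_pow two_ne_zero, mul_zero, div_eq_zero_iff] at hy
      rcases hy with h | h
      · exact hg0 h
      · exact hδ0 h
    obtain ⟨-, y₁, hy₁⟩ := hχ _ g (hκ (⟨c, hc⟩, 0))
    obtain ⟨-, y₂, hy₂⟩ := hχ _ g (hκ (⟨c, hc⟩, 1))
    obtain ⟨-, y₃, hy₃⟩ := hχ _ g (hκ (⟨c, hc⟩, 2))
    have hd : φ (δ * c) = φ g / y ^ 2 := by
      rw [map_mul]
      field_simp
      field_simp at hy
      linear_combination -hy
    have hdne : φ (δ * c) ≠ 0 := by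
      rw [map_mul]
      exact mul_ne_zero hδ0 hc0
    refine ⟨A, δ * c, mul_ne_zero hδ (hC0 c hc), y₁ * y₂ * y₃ * y ^ 3, ?_⟩
    have e1 : x₀ + φ A - φ (δ * c) * φ e₁ = φ g * y₁ ^ 2 := by
      rw [← hy₁]
      simp [ev]
      ring
    have e2 : x₀ + φ A - φ (δ * c) * φ e₂ = φ g * y₂ ^ 2 := by
      rw [← hy₂]
      simp [ev]
      ring
    have e3 : x₀ + φ A - φ (δ * c) * φ e₃ = φ g * y₃ ^ 2 := by
      rw [← hy₃]
      simp [ev]
      ring
    have f1 : (x₀ + φ A) / φ (δ * c) - φ e₁ = y ^ 2 * y₁ ^ 2 := by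
      have : (x₀ + φ A) / φ (δ * c) - φ e₁ = (x₀ + φ A - φ (δ * c) * φ e₁) / φ (δ * c) := by
        field_simp
      rw [this, e1, hd]
      field_simp
    have f2 : (x₀ + φ A) / φ (δ * c) - φ e₂ = y ^ 2 * y₂ ^ 2 := by
      have : (x₀ + φ A) / φ (δ * c) - φ e₂ = (x₀ + φ A - φ (δ * c) * φ e₂) / φ (δ * c) := by
        field_simp
      rw [this, e2, hd]
      field_simp
    have f3 : (x₀ + φ A) / φ (δ * c) - φ e₃ = y ^ 2 * y₃ ^ 2 := by
      have : (x₀ + φ A) / φ (δ * c) - φ e₃ = (x₀ + φ A - φ (δ * c) * φ e₃) / φ (δ * c) := by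
        field_simp
      rw [this, e3, hd]
      field_simp
    rw [f1, f2, f3]
    ring

end Pool.MP_f30f9b_al.Ell
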