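import Mathlib

/-!
# Independence from automorphisms which flip one term
-/

set_option autoImplicit false

namespace Pool.MP_f30f9b_al.Ell

/-- If for every `m` an additive endomorphism fixes all terms `R n σ`, `n ≤ m`, except `R m 1` which
it maps to its negative, and no `R m 1` has finite order, then the sums `∑ σ, R n σ` are linearly
independent over the integers. -/
theorem indep_of_flip {A G : Type*} [AddCommGroup A] [Fintype G] [One G] [DecidableEq G]
    (R : ℕ → G → A)
    (h : ∀ m, ∃ γ : A →+ A, (∀ n σ, n ≤ m → (n = m → σ ≠ 1) → γ (R n σ) = R n σ) ∧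
      γ (R m 1) = - R m 1)
    (hno : ∀ m, ¬ IsOfFinAddOrder (R m 1)) :
    LinearIndependent ℤ (fun n => ∑ σ, R n σ) := by
  classical
  rw [linearIndependent_iff']
  intro S g hg
  by_contra! hne
  obtain ⟨i, hiS, hi0⟩ := hne
  -- the largest index
  obtain ⟨m, hm, hmax⟩ := Finset.exists_max_image (S.filter fun i => g i ≠ 0) id
    ⟨i, Finset.mem_filter.2 ⟨hiS, hi0⟩⟩
  obtain ⟨hmS, hm0⟩ := Finset.mem_filter.1 hm
  have hbig : ∀ n ∈ S, m < n → g n = 0 := by
    intro n hn hmn
    by_contra h0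
    have := hmax n (Finset.mem_filter.2 ⟨hn, h0⟩)
    simp only [id] at this
    omega
  obtain ⟨γ, hγ1, hγ2⟩ := h m
  have h1 : ∑ n ∈ S, g n • ∑ σ, (R n σ - γ (R n σ)) = 0 := by
    have h2 : ∑ n ∈ S, g n • ∑ σ, (R n σ - γ (R n σ)) =
        (∑ n ∈ S, g n • ∑ σ, R n σ) - γ (∑ n ∈ S, g n • ∑ σ, R n σ) := by
      rw [map_sum, ← Finset.sum_sub_distrib]
      refine Finset.sum_congr rfl fun n _ => ?_
      rw [map_zsmul, map_sum, ← smul_sub, ← Finset.sum_sub_distrib]
    rw [h2, hg, map_zero, sub_zero]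
  rw [Finset.sum_eq_single_of_mem m hmS] at h1
  · rw [Finset.sum_eq_single (1 : G)] at h1
    · rw [hγ2, sub_neg_eq_add, ← two_zsmul, smul_smul] at h1
      exact hno m (isOfFinAddOrder_iff_zsmul_eq_zero.2 ⟨g m * 2, mul_ne_zero hm0 two_ne_zero, h1⟩)
    · intro σ _ hσ
      rw [hγ1 m σ le_rfl (fun _ => hσ), sub_self]
    · intro h
      exact absurd (Finset.mem_univ _) h
  · intro n hn hnm
    rcases lt_or_gt_of_ne hnm with h2 | h2
    · rw [Finset.sum_eq_zero, smul_zero]
      intro σ _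
      rw [hγ1 n σ h2.le (fun h => absurd h hnm), sub_self]
    · rw [hbig n hn h2, zero_smul]

end Pool.MP_f30f9b_al.Ell
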