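import Pool.Agent.H.MP_f30f9b_al.SqFin

/-!
# Square roots in extensions by square roots
-/

set_option autoImplicit false

namespace Pool.MP_f30f9b_al.Ell

open IntermediateField

variable {k E : Type*} [Field k] [Field E] [Algebra k E] [Normal k E]

theorem exists_flip (h2 : (2 : E) ≠ 0) (M : IntermediateField k E) (u : E) (hu : u ^ 2 ∈ M)
    (hM : u ∉ M) : ∃ g : Gal(E/k), (∀ x ∈ M, g x = x) ∧ g u = -u := by
  by_contra! h
  refine hM (mem_of_fixed h2 M u hu fun g hg => ?_)
  have h3 : g u ^ 2 = u ^ 2 := by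
    rw [← map_pow]
    exact hg _ hu
  exact (sq_eq_sq_iff_eq_or_eq_neg.1 h3).resolve_right (h g hg)

omit [Normal k E] in
/-- an automorphism which fixes `M` and the set `T` fixes the field generated by them -/
theorem fixes_sup (M : IntermediateField k E) (T : Set E) (g : Gal(E/k)) (hM : ∀ x ∈ M, g x = x)
    (hT : ∀ x ∈ T, g x = x) : ∀ x ∈ M ⊔ adjoin k T, g x = x := by
  let F : IntermediateField k E := IntermediateField.fixedField (Subgroup.zpowers g)
  have hF : ∀ x, x ∈ F ↔ g x = x := by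
    intro x
    rw [IntermediateField.mem_fixedField_iff]
    constructor
    · intro h
      exact h g (Subgroup.mem_zpowers g)
    · intro h f hf
      have h1 : Subgroup.zpowers g ≤ MulAction.stabilizer Gal(E/k) x := by
        rw [Subgroup.zpowers_le]
        exact h
      exact h1 hf
  have h1 : M ⊔ adjoin k T ≤ F := by
    refine sup_le (fun x hx => (hF x).2 (hM x hx)) ?_
    rw [adjoin_le_iff]
    exact fun x hx => (hF x).2 (hT x hx)
  exact fun x hx => (hF x).1 (h1 hx)

theorem quad (h2 : (2 : E) ≠ 0) (M : IntermediateField k E) (b c : E) (hb : b ^ 2 ∈ M)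
    (hc : c ^ 2 ∈ M) (hmem : c ∈ M ⊔ adjoin k {b}) : c ∈ M ∨ c * b ∈ M := by
  by_contra! h
  obtain ⟨h1, h3⟩ := h
  have hb0 : b ≠ 0 := by
    rintro rfl
    rw [mul_zero] at h3
    exact h3 M.zero_mem
  have hc0 : c ≠ 0 := by
    rintro rfl
    exact h1 M.zero_mem
  have hfix : ∀ h : Gal(E/k), (∀ x ∈ M, h x = x) → h b = b → h c = c := by
    intro h hM hb
    refine fixes_sup M {b} h hM ?_ c hmem
    intro x hx
    rw [Set.mem_singleton_iff.1 hx]
    exact hb
  have hpm : ∀ h : Gal(E/k), (∀ x ∈ M, h x = x) → h b = b ∨ h b = -b := by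
    intro h hM
    apply sq_eq_sq_iff_eq_or_eq_neg.1
    rw [← map_pow]
    exact hM _ hb
  obtain ⟨g, hg, hgcb⟩ := exists_flip h2 M (c * b) (by rw [mul_pow]; exact M.mul_mem hc hb) h3
  obtain ⟨g', hg', hgc⟩ := exists_flip h2 M c hc h1
  rw [map_mul] at hgcb
  rcases hpm g hg with h4 | h4
  · rw [hfix g hg h4, h4] at hgcb
    have h5 : 2 * (c * b) = 0 := by linear_combination hgcb
    exact (mul_ne_zero h2 (mul_ne_zero hc0 hb0)) h5
  · have h5 : g c = c := by
      rw [h4] at hgcb
      have h6 : (g c - c) * b = 0 := by linear_combination -hgcb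
      rcases mul_eq_zero.1 h6 with h | h
      · exact sub_eq_zero.1 h
      · exact absurd h hb0
    rcases hpm g' hg' with h6 | h6
    · rw [hfix g' hg' h6] at hgc
      have h7 : 2 * c = 0 := by linear_combination hgc
      exact (mul_ne_zero h2 hc0) h7
    · have h7 : (g * g') c = c := by
        refine hfix _ (fun x hx => ?_) ?_
        · change g (g' x) = x
          rw [hg' x hx, hg x hx]
        · change g (g' b) = b
          rw [h6, map_neg, h4, neg_neg]
      have h8 : g (g' c) = c := h7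
      rw [hgc, map_neg, h5] at h8
      have h9 : 2 * c = 0 := by linear_combination -h8
      exact (mul_ne_zero h2 hc0) h9

theorem kummer (h2 : (2 : E) ≠ 0) (bs : Finset E) :
    ∀ (M : IntermediateField k E), (∀ b ∈ bs, b ^ 2 ∈ M) → ∀ a : E, a ^ 2 ∈ M →
      a ∈ M ⊔ adjoin k (bs : Set E) → ∃ s ⊆ bs, a * ∏ b ∈ s, b ∈ M := by
  classical
  induction bs using Finset.induction_on with
  | empty =>
    intro M _ a _ hmem
    refine ⟨∅, subset_rfl, ?_⟩
    simpa using hmem
  | insert b bs hb ih =>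
    intro M hM a ha hmem
    have h1 : a ∈ (M ⊔ adjoin k {b}) ⊔ adjoin k (bs : Set E) := by
      rw [sup_assoc, ← adjoin_union]
      rw [Finset.coe_insert, Set.insert_eq] at hmem
      exact hmem
    obtain ⟨s, hs, h3⟩ := ih (M ⊔ adjoin k {b})
      (fun x hx => (le_sup_left : M ≤ _) (hM x (Finset.mem_insert_of_mem hx))) a
      ((le_sup_left : M ≤ _) ha) h1
    have h4 : (a * ∏ x ∈ s, x) ^ 2 ∈ M := by
      rw [mul_pow, ← Finset.prod_pow]
      refine M.mul_mem ha (prod_mem fun x hx => ?_)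
      exact hM x (Finset.mem_insert_of_mem (hs hx))
    rcases quad h2 M b _ (hM b (Finset.mem_insert_self b bs)) h4 h3 with h5 | h5
    · exact ⟨s, hs.trans (Finset.subset_insert _ _), h5⟩
    · refine ⟨insert b s, Finset.insert_subset_insert _ hs, ?_⟩
      rw [Finset.prod_insert (fun h => hb (hs h))]
      have h6 : a * (b * ∏ x ∈ s, x) = (a * ∏ x ∈ s, x) * b := by ring
      rw [h6]
      exact h5

/-- A parity criterion: a square root whose radicand has a non-square value under `w` is not in the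
field generated by square roots whose radicands have square values. -/
theorem not_mem_of_parity {l Γ : Type*} [Field l] [Algebra k l] [CommGroupWithZero Γ]
    (h2 : (2 : E) ≠ 0) (ι : l →ₐ[k] E) (w : l →*₀ Γ) (bs : Finset E)
    (hb : ∀ b ∈ bs, ∃ β : l, β ≠ 0 ∧ b ^ 2 = ι β ∧ IsSquare (w β)) (a : E) (α : l)
    (ha : a ^ 2 = ι α) (hα : ¬ IsSquare (w α)) :
    a ∉ ι.fieldRange ⊔ adjoin k (bs : Set E) := by
  classical
  intro hmem
  obtain ⟨s, hs, y, hy⟩ := kummer h2 bs ι.fieldRange (fun b hb' => by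
    obtain ⟨β, -, h, -⟩ := hb b hb'
    exact ⟨β, h.symm⟩) a ⟨α, ha.symm⟩ hmem
  choose! β hβ0 hβ hβw using hb
  have h3 : α * ∏ b ∈ s, β b = y ^ 2 := by
    apply ι.injective
    change ι (α * ∏ b ∈ s, β b) = ι (y ^ 2)
    rw [map_mul, map_prod, map_pow]
    have h4 : ι y = a * ∏ b ∈ s, b := hy
    rw [h4, mul_pow, ← ha, ← Finset.prod_pow]
    congr 1
    exact Finset.prod_congr rfl fun b hb' => (hβ b (hs hb')).symm
  have h4 : ∏ b ∈ s, β b ≠ 0 := Finset.prod_ne_zero_iff.2 fun b hb' => hβ0 b (hs hb')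
  have h5 : α = y ^ 2 / ∏ b ∈ s, β b := by
    rw [eq_div_iff h4, h3]
  apply hα
  rw [h5, map_div₀, map_pow]
  refine IsSquare.div (IsSquare.sq _) ?_
  rw [map_prod]
  exact Finset.isSquare_prod _ fun b hb' => hβw b (hs hb')

end Pool.MP_f30f9b_al.Ell
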