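import Mathlib

/-!
# Generic elements of ultrapowers

`L/K` a finite Galois extension of an infinite field. There is an ultrafilter `U` and an element of
the ultrapower of `L` whose conjugates are algebraically independent over `K`.
-/

set_option autoImplicit false

namespace Pool.MP_f30f9b_al.Ell

open MvPolynomial

/-- a nonzero polynomial does not vanish at the conjugates of all elements -/
theorem exists_conj_ne_zero (K L : Type*) [Field K] [Infinite K] [Field L] [Algebra K L]
    [FiniteDimensional K L] (p : MvPolynomial Gal(L/K) K) (hp : p ≠ 0) :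
    ∃ x : L, aeval (fun σ : Gal(L/K) => σ x) p ≠ 0 := by
  classical
  have e := Module.Free.chooseBasis K L
  have hinfL : Infinite L := Infinite.of_injective _ (algebraMap K L).injective
  -- a point with nonzero value
  obtain ⟨g, hg⟩ : ∃ g : Gal(L/K) → L, aeval g p ≠ 0 := by
    by_contra! h
    apply hp
    have h2 : map (algebraMap K L) p = 0 := by
      refine MvPolynomial.funext fun g => ?_
      rw [eval_map, ← aeval_def, h g, map_zero]
    exact (map_injective (algebraMap K L) (algebraMap K L).injective) (h2.trans (map_zero _).symm)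
  have hq : Submodule.span L (Set.range fun k (j : Gal(L/K)) ↦ j (e k)) = ⊤ := by
    apply span_flip_eq_top_iff_linearIndependent.mpr <|
      ((linearIndependent_algHom_toLinearMap K L L).comp _
        (algEquivEquivAlgHom K L).injective).map' _ (e.constr L).symm.ker
  obtain ⟨c, hc⟩ := (Submodule.mem_span_range_iff_exists_fun _).mp
    (hq ▸ Submodule.mem_top (x := g))
  let q : MvPolynomial (Module.Free.ChooseBasisIndex K L) L :=
    aeval (fun σ : Gal(L/K) => ∑ k, C (σ (e k)) * X k) p
  have hqc : ∀ b : Module.Free.ChooseBasisIndex K L → L,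
      eval b q = aeval (fun σ : Gal(L/K) => ∑ k, σ (e k) * b k) p := by
    intro b
    have h1 : eval b q = ((aeval b : MvPolynomial _ L →ₐ[L] L).restrictScalars K) q := by
      simp
    rw [h1]
    have h2 := MvPolynomial.comp_aeval_apply (f := fun σ : Gal(L/K) =>
      (∑ k, C (σ (e k)) * X k : MvPolynomial (Module.Free.ChooseBasisIndex K L) L))
      ((aeval b : MvPolynomial _ L →ₐ[L] L).restrictScalars K) p
    rw [show q = aeval (fun σ : Gal(L/K) =>
      (∑ k, C (σ (e k)) * X k : MvPolynomial (Module.Free.ChooseBasisIndex K L) L)) p from rfl, h2]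
    congr 2
    funext σ
    simp
  have hq0 : q ≠ 0 := by
    intro h0
    have h3 := hqc c
    rw [h0, map_zero] at h3
    apply hg
    rw [h3]
    congr 1
    have h4 : g = fun σ : Gal(L/K) => ∑ k, σ (e k) * c k := by
      rw [← hc]
      funext σ
      simp [mul_comm]
    rw [h4]
  obtain ⟨b, hb⟩ : ∃ b : _ → K, eval (algebraMap K L ∘ b) q ≠ 0 := by
    by_contra! h
    refine hq0 (MvPolynomial.funext_set _
      (fun _ ↦ Set.infinite_range_of_injective (algebraMap K L).injective) fun x hx ↦ ?_)
    obtain ⟨x, rfl⟩ := Set.range_piMap _ ▸ hx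
    simpa using! h x
  refine ⟨∑ k, b k • e k, ?_⟩
  rw [hqc] at hb
  convert hb using 3
  funext σ
  simp [map_sum, Algebra.smul_def, mul_comm]

/-- An ultrafilter and a sequence whose conjugates eventually avoid every hypersurface. -/
theorem exists_generic (K : Type*) (L : Type*) [Field K] [Infinite K] [Field L] [Algebra K L]
    [FiniteDimensional K L] :
    ∃ (U : Ultrafilter {p : MvPolynomial Gal(L/K) K // p ≠ 0})
      (x : {p : MvPolynomial Gal(L/K) K // p ≠ 0} → L),
      ∀ p : MvPolynomial Gal(L/K) K, p ≠ 0 →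
        ∀ᶠ i in (U : Filter _), aeval (fun σ : Gal(L/K) => σ (x i)) p ≠ 0 := by
  classical
  let I := {p : MvPolynomial Gal(L/K) K // p ≠ 0}
  let F : I → Filter I := fun q => Filter.principal {p : I | (q : MvPolynomial Gal(L/K) K) ∣ p}
  have hne : Nonempty I := ⟨⟨1, one_ne_zero⟩⟩
  have hdir : Directed (· ≥ ·) F := by
    intro q r
    refine ⟨⟨q.1 * r.1, mul_ne_zero q.2 r.2⟩, ?_, ?_⟩
    · refine Filter.principal_mono.2 fun p hp => ?_
      exact (Dvd.intro _ rfl).trans hp
    · refine Filter.principal_mono.2 fun p hp => ?_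
      exact (Dvd.intro_left _ rfl).trans hp
  have hbot : ∀ q, (F q).NeBot := fun q =>
    Filter.principal_neBot_iff.2 ⟨q, dvd_refl _⟩
  have hF : (iInf F).NeBot := Filter.iInf_neBot_of_directed hdir hbot
  choose x hx using fun p : I => exists_conj_ne_zero K L p.1 p.2
  refine ⟨Ultrafilter.of (iInf F), x, fun q hq => ?_⟩
  have h1 : {p : I | q ∣ (p : MvPolynomial Gal(L/K) K)} ∈ iInf F :=
    Filter.mem_iInf_of_mem (⟨q, hq⟩ : I) (Filter.mem_principal_self _)
  have h2 := Ultrafilter.of_le (iInf F) h1
  refine Filter.Eventually.mono h2 fun p hp h0 => ?_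
  obtain ⟨r, hr⟩ := (hp : q ∣ (p : MvPolynomial Gal(L/K) K))
  apply hx p
  rw [hr, map_mul, h0, zero_mul]

end Pool.MP_f30f9b_al.Ell
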