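import Pool.Agent.H.MP_f30f9b_al.Gallai
import Pool.Agent.H.MP_f30f9b_al.Core
import Pool.Agent.H.MP_f30f9b_al.Ultra

/-!
# Infinitely many points on elliptic curves

`K` infinite of characteristic not two, `W` an elliptic curve over `K`, `L/K` a finite Galois
extension which contains the `x`-coordinates `e₁, e₂, e₃` of the points of order two, and such that
the squares of `L` have finitely many cosets. Then `W` has infinitely many `K`-points.
-/

set_option autoImplicit false

namespace Pool.MP_f30f9b_al.Ell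

open WeierstrassCurve WeierstrassCurve.Affine Filter

theorem infinite_points {K L : Type*} [Field K] [Infinite K] [Field L] [Algebra K L]
    [FiniteDimensional K L] [IsGalois K L] (h2 : (2 : K) ≠ 0) (W : WeierstrassCurve K)
    [W.IsElliptic] (e₁ e₂ e₃ : L) (he : e₁ ≠ e₂)
    (hb2 : algebraMap K L W.b₂ = -4 * (e₁ + e₂ + e₃))
    (hb4 : 2 * algebraMap K L W.b₄ = 4 * (e₁ * e₂ + e₁ * e₃ + e₂ * e₃))
    (hb6 : algebraMap K L W.b₆ = -4 * (e₁ * e₂ * e₃))
    (C : Finset L) (hC0 : ∀ c ∈ C, c ≠ 0)
    (hC : ∀ x : L, x ≠ 0 → ∃ c ∈ C, ∃ y : L, x = c * y ^ 2) :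
    {p : K × K | W.toAffine.Equation p.1 p.2}.Infinite := by
  classical
  intro hfin
  have hinfL : Infinite L := Infinite.of_injective _ (algebraMap K L).injective
  obtain ⟨I, U, x, hx⟩ : ∃ (I : Type _) (U : Ultrafilter I) (x : I → L),
      ∀ p : MvPolynomial Gal(L/K) K, p ≠ 0 →
        ∀ᶠ i in (U : Filter I), MvPolynomial.aeval (fun σ : Gal(L/K) => σ (x i)) p ≠ 0 :=
    ⟨_, exists_generic K L⟩
  let L' := Germ (U : Filter I) L
  let fL' : Field L' := Filter.Germ.instField
  let ψ : (I → L) →+* L' := Germ.coeRingHom (U : Filter I)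
  have hψ : ∀ f g : I → L, ψ f = ψ g ↔ ∀ᶠ i in (U : Filter I), f i = g i := by
    intro f g
    exact Germ.coe_eq
  have hψs : ∀ X : L', ∃ f : I → L, ψ f = X := fun X => Germ.inductionOn X fun f => ⟨f, rfl⟩
  let cst : L →+* L' := ψ.comp (Pi.constRingHom I L)
  let aL' : Algebra K L' := (cst.comp (algebraMap K L)).toAlgebra
  have haL' : ∀ r : K, algebraMap K L' r = cst (algebraMap K L r) := fun r => rfl
  let φ : L →ₐ[K] L' := { cst with commutes' := fun r => rfl }
  have hφ : ∀ a, φ a = cst a := fun a => rfl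
  let ψA : (I → L) →ₐ[K] L' := { ψ with commutes' := fun r => rfl }
  let S : Gal(L/K) → L' →ₐ[K] L' := fun σ =>
    { toFun := Germ.map σ
      map_one' := by
        change Germ.map σ (ψ 1) = ψ 1
        change ψ (σ ∘ 1) = ψ 1
        congr 1
        funext i
        simp
      map_zero' := by
        change Germ.map σ (ψ 0) = ψ 0
        change ψ (σ ∘ 0) = ψ 0
        congr 1
        funext i
        simp
      map_mul' := fun X Y => by
        obtain ⟨f, rfl⟩ := hψs X
        obtain ⟨g, rfl⟩ := hψs Y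
        rw [← map_mul]
        change ψ (σ ∘ (f * g)) = ψ (σ ∘ f) * ψ (σ ∘ g)
        rw [← map_mul]
        congr 1
        funext i
        simp
      map_add' := fun X Y => by
        obtain ⟨f, rfl⟩ := hψs X
        obtain ⟨g, rfl⟩ := hψs Y
        rw [← map_add]
        change ψ (σ ∘ (f + g)) = ψ (σ ∘ f) + ψ (σ ∘ g)
        rw [← map_add]
        congr 1
        funext i
        simp
      commutes' := fun r => by
        change ψ (σ ∘ _) = ψ _
        congr 1
        funext i
        exact σ.commutes r }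
  have hS : ∀ σ f, S σ (ψ f) = ψ (fun i => σ (f i)) := fun σ f => rfl
  have hS1 : ∀ X, S 1 X = X := by
    intro X
    obtain ⟨f, rfl⟩ := hψs X
    rw [hS]
    rfl
  have hSmul : ∀ σ τ X, S (σ * τ) X = S σ (S τ X) := by
    intro σ τ X
    obtain ⟨f, rfl⟩ := hψs X
    rw [hS, hS, hS]
    rfl
  have hSφ : ∀ σ a, S σ (φ a) = φ (σ a) := fun σ a => rfl
  -- the generic element
  have hind : AlgebraicIndependent K fun σ : Gal(L/K) => S σ (ψ x) := by
    rw [algebraicIndependent_iff]
    intro p hp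
    by_contra hp0
    have h1 : MvPolynomial.aeval (fun σ : Gal(L/K) => S σ (ψ x)) p =
        ψA (MvPolynomial.aeval (fun (σ : Gal(L/K)) (i : I) => σ (x i)) p) := by
      rw [MvPolynomial.comp_aeval_apply]
      rfl
    rw [h1] at hp
    have h2 : ψ (MvPolynomial.aeval (fun (σ : Gal(L/K)) (i : I) => σ (x i)) p) = ψ 0 := by
      rw [map_zero]
      exact hp
    have h3 := ((hψ _ _).1 h2).and (hx p hp0)
    obtain ⟨i, hi1, hi2⟩ := h3.exists
    apply hi2
    have h4 := MvPolynomial.comp_aeval_apply (f := fun (σ : Gal(L/K)) (i : I) => σ (x i))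
      (Pi.evalAlgHom K (fun _ : I => L) i) p
    have h5 : (Pi.evalAlgHom K (fun _ : I => L) i)
      (MvPolynomial.aeval (fun (σ : Gal(L/K)) (i : I) => σ (x i)) p) = 0 := hi1
    rw [h5] at h4
    exact h4.symm
  -- squares in the ultrapower
  have hC' : ∀ X : L', X ≠ 0 → ∃ c ∈ C, ∃ Y : L', X = cst c * Y ^ 2 := by
    intro X hX
    obtain ⟨f, rfl⟩ := hψs X
    have h1 : ∀ᶠ i in (U : Filter I), f i ≠ 0 := by
      rw [Ultrafilter.eventually_not]
      intro h
      apply hX
      rw [← map_zero ψ, hψ]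
      exact h
    have h3 : ∀ᶠ i in (U : Filter I), ∃ c ∈ (C : Set L), ∃ y, f i = c * y ^ 2 := by
      refine h1.mono fun i hi => ?_
      obtain ⟨c, hc, y, hy⟩ := hC (f i) hi
      exact ⟨c, hc, y, hy⟩
    rw [Ultrafilter.eventually_exists_mem_iff C.finite_toSet] at h3
    obtain ⟨c, hc, h4⟩ := h3
    refine ⟨c, hc, ψ (fun i => if h : ∃ y, f i = c * y ^ 2 then h.choose else 0), ?_⟩
    change _ = ψ (fun _ => c) * _
    rw [← map_pow, ← map_mul, hψ]
    refine h4.mono fun i hi => ?_
    simp only [Pi.mul_apply, Pi.pow_apply, hi, dite_true]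
    exact hi.choose_spec
  -- the point
  obtain ⟨A, d, hd, w, hw⟩ := exists_square_value cst C hC0 hC' e₁ e₂ e₃ he (ψ x)
  set z : L' := (ψ x + cst A) / cst d with hz
  have h2' : (2 : L') ≠ 0 := by
    have := (map_ne_zero (algebraMap K L')).2 h2
    rwa [map_ofNat] at this
  let w' : L' := w - (algebraMap K L' W.a₁ * z + algebraMap K L' W.a₃) / 2
  have hweq : (W⁄L').Equation z w' := by
    rw [equation_iff]
    change w' ^ 2 + algebraMap K L' W.a₁ * z * w' + algebraMap K L' W.a₃ * w' =
      z ^ 3 + algebraMap K L' W.a₂ * z ^ 2 + algebraMap K L' W.a₄ * z + algebraMap K L' W.a₆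
    have hb2' : algebraMap K L' (W.a₁ ^ 2 + 4 * W.a₂) = -4 * (cst e₁ + cst e₂ + cst e₃) := by
      have := congrArg cst hb2
      rw [map_mul, map_neg, map_ofNat, map_add, map_add] at this
      exact this
    have hb4' : 2 * algebraMap K L' (2 * W.a₄ + W.a₁ * W.a₃) =
        4 * (cst e₁ * cst e₂ + cst e₁ * cst e₃ + cst e₂ * cst e₃) := by
      have := congrArg cst hb4
      rw [map_mul, map_mul, map_ofNat, map_ofNat, map_add, map_add, map_mul, map_mul,
        map_mul] at this
      exact this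
    have hb6' : algebraMap K L' (W.a₃ ^ 2 + 4 * W.a₆) = -4 * (cst e₁ * cst e₂ * cst e₃) := by
      have := congrArg cst hb6
      rw [map_mul, map_neg, map_ofNat, map_mul, map_mul] at this
      exact this
    rw [map_add, map_mul, map_pow, map_ofNat] at hb2'
    rw [map_add, map_mul, map_mul, map_ofNat] at hb4'
    rw [map_add, map_mul, map_pow, map_ofNat] at hb6'
    have h4 : (4 : L') ≠ 0 := by
      have : (4 : L') = 2 * 2 := by norm_num
      rw [this]
      exact mul_ne_zero h2' h2'
    apply mul_left_cancel₀ h4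
    have hw'2 : 2 * w' = 2 * w - (algebraMap K L' W.a₁ * z + algebraMap K L' W.a₃) := by
      simp only [w']
      field_simp
    linear_combination (2 * w' + 2 * w + algebraMap K L' W.a₁ * z + algebraMap K L' W.a₃) * hw'2
      + 4 * hw - z ^ 2 * hb2' - z * hb4' - hb6'
  -- invariant points come from the finite set of K-points
  refine core h2 W φ S hS1 hSmul hSφ (ψ x) hind A d hd w' hweq fun X Y hXY hX hY => ?_
  obtain ⟨f, rfl⟩ := hψs X
  obtain ⟨g, rfl⟩ := hψs Y
  have hf : ∀ᶠ i in (U : Filter I), f i ∈ Set.range (algebraMap K L) := by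
    have h1 : ∀ᶠ i in (U : Filter I), ∀ σ : Gal(L/K), σ (f i) = f i := by
      rw [eventually_all]
      intro σ
      exact (hψ _ _).1 (hX σ)
    exact h1.mono fun i hi => (IsGalois.mem_range_algebraMap_iff_fixed _).2 hi
  have hg : ∀ᶠ i in (U : Filter I), g i ∈ Set.range (algebraMap K L) := by
    have h1 : ∀ᶠ i in (U : Filter I), ∀ σ : Gal(L/K), σ (g i) = g i := by
      rw [eventually_all]
      intro σ
      exact (hψ _ _).1 (hY σ)
    exact h1.mono fun i hi => (IsGalois.mem_range_algebraMap_iff_fixed _).2 hi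
  have heq : ∀ᶠ i in (U : Filter I), (W⁄L).Equation (f i) (g i) := by
    rw [equation_iff] at hXY
    have h1 : ψ (g ^ 2 + (fun _ => algebraMap K L W.a₁) * f * g + (fun _ => algebraMap K L W.a₃) * g)
        = ψ (f ^ 3 + (fun _ => algebraMap K L W.a₂) * f ^ 2 + (fun _ => algebraMap K L W.a₄) * f
          + (fun _ => algebraMap K L W.a₆)) := by
      simp only [map_add, map_mul, map_pow]
      exact hXY
    refine ((hψ _ _).1 h1).mono fun i hi => ?_
    rw [equation_iff]
    exact hi
  have hall : ∀ᶠ i in (U : Filter I), ∃ s ∈ {p : K × K | W.toAffine.Equation p.1 p.2},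
      f i = algebraMap K L s.1 ∧ g i = algebraMap K L s.2 := by
    refine (hf.and (hg.and heq)).mono fun i hi => ?_
    obtain ⟨⟨a, ha⟩, ⟨b, hb⟩, hi3⟩ := hi
    refine ⟨(a, b), ?_, ha.symm, hb.symm⟩
    rw [← ha, ← hb, equation_iff] at hi3
    change W.toAffine.Equation a b
    rw [equation_iff]
    apply (algebraMap K L).injective
    simp only [map_add, map_mul, map_pow]
    exact hi3
  rw [Ultrafilter.eventually_exists_mem_iff hfin] at hall
  obtain ⟨s, -, hs⟩ := hall
  refine ⟨⟨algebraMap K L s.1, ?_⟩, ⟨algebraMap K L s.2, ?_⟩⟩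
  · rw [hφ]
    exact (hψ _ _).2 (hs.mono fun i hi => hi.1.symm)
  · rw [hφ]
    exact (hψ _ _).2 (hs.mono fun i hi => hi.2.symm)

end Pool.MP_f30f9b_al.Ell
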