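import Mathlib

/-!
# Primes of a number field on which a group of automorphisms acts freely
-/

set_option autoImplicit false

namespace Pool.MP_f30f9b_al.Ell

open NumberField IsDedekindDomain WithZero

variable {l : Type*} [Field l] [NumberField l]

/-- a non-unit `1 + B (c - θ)` -/
theorem exists_nonunit (θ : 𝓞 l) (B : ℕ) (hB : B ≠ 0) :
    ∃ c : ℕ, (1 + (B : 𝓞 l) * ((c : 𝓞 l) - θ)) ≠ 0 ∧
      ¬ IsUnit (1 + (B : 𝓞 l) * ((c : 𝓞 l) - θ)) := by
  classical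
  obtain ⟨c, hc⟩ : ∃ c : ℕ, ∀ φ : l →ₐ[ℚ] ℂ, 3 + B * ‖φ (θ : l)‖ < c := by
    obtain ⟨c, hc⟩ := exists_nat_gt (∑ φ : l →ₐ[ℚ] ℂ, (3 + B * ‖φ (θ : l)‖))
    refine ⟨c, fun φ => lt_of_le_of_lt ?_ hc⟩
    exact Finset.single_le_sum (f := fun φ : l →ₐ[ℚ] ℂ => 3 + B * ‖φ (θ : l)‖)
      (fun i _ => by positivity) (Finset.mem_univ φ)
  have hbig : ∀ φ : l →ₐ[ℚ] ℂ, 2 ≤ ‖φ ((1 + (B : 𝓞 l) * ((c : 𝓞 l) - θ) : 𝓞 l) : l)‖ := by
    intro φ
    have h1 : φ ((1 + (B : 𝓞 l) * ((c : 𝓞 l) - θ) : 𝓞 l) : l) =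
        (B : ℂ) * c - (B * φ (θ : l) - 1) := by
      simp only [map_add, map_one, map_mul, map_natCast, map_sub]
      ring
    rw [h1]
    have h2 : ‖(B : ℂ) * c‖ - ‖B * φ (θ : l) - 1‖ ≤ ‖(B : ℂ) * c - (B * φ (θ : l) - 1)‖ :=
      norm_sub_norm_le _ _
    have h3 : ‖B * φ (θ : l) - 1‖ ≤ B * ‖φ (θ : l)‖ + 1 := by
      refine (norm_sub_le _ _).trans ?_
      rw [norm_mul, norm_one, Complex.norm_natCast]
    have h4 : ‖(B : ℂ) * c‖ = B * c := by
      rw [norm_mul, Complex.norm_natCast, Complex.norm_natCast]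
    have h5 := hc φ
    have h6 : (1 : ℝ) ≤ B := by
      exact_mod_cast Nat.one_le_iff_ne_zero.2 hB
    have h7 : (c : ℝ) ≤ B * c := by
      have : (0 : ℝ) ≤ c := Nat.cast_nonneg c
      nlinarith
    linarith
  refine ⟨c, ?_, ?_⟩
  · intro h0
    have hne : Nonempty (l →ₐ[ℚ] ℂ) := ⟨IsAlgClosed.lift⟩
    have := hbig hne.some
    rw [h0] at this
    simp at this
    linarith
  · intro hu
    have h1 := NumberField.isUnit_iff_norm.1 hu
    have h2 := Algebra.norm_eq_prod_embeddings ℚ ℂ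
      ((1 + (B : 𝓞 l) * ((c : 𝓞 l) - θ) : 𝓞 l) : l)
    have h3 : ‖algebraMap ℚ ℂ (Algebra.norm ℚ
        ((1 + (B : 𝓞 l) * ((c : 𝓞 l) - θ) : 𝓞 l) : l))‖ = 1 := by
      have h4 : ((RingOfIntegers.norm ℚ (1 + (B : 𝓞 l) * ((c : 𝓞 l) - θ)) : 𝓞 ℚ) : ℚ) =
        Algebra.norm ℚ ((1 + (B : 𝓞 l) * ((c : 𝓞 l) - θ) : 𝓞 l) : l) :=
        RingOfIntegers.coe_norm ℚ _
      rw [h4] at h1
      have h5 : algebraMap ℚ ℂ (Algebra.norm ℚ
        ((1 + (B : 𝓞 l) * ((c : 𝓞 l) - θ) : 𝓞 l) : l)) = ((Algebra.norm ℚ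
        ((1 + (B : 𝓞 l) * ((c : 𝓞 l) - θ) : 𝓞 l) : l) : ℝ) : ℂ) := by
        simp
      rw [h5, Complex.norm_real, Real.norm_eq_abs]
      exact_mod_cast h1
    rw [h2, norm_prod] at h3
    have h4 : (2 : ℝ) ≤ ∏ φ : l →ₐ[ℚ] ℂ, ‖φ ((1 + (B : 𝓞 l) * ((c : 𝓞 l) - θ) : 𝓞 l) : l)‖ := by
      have h5 : ∏ _φ : l →ₐ[ℚ] ℂ, (2 : ℝ) ≤
          ∏ φ : l →ₐ[ℚ] ℂ, ‖φ ((1 + (B : 𝓞 l) * ((c : 𝓞 l) - θ) : 𝓞 l) : l)‖ :=
        Finset.prod_le_prod (fun _ _ => by norm_num) fun φ _ => hbig φ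
      refine le_trans ?_ h5
      rw [Finset.prod_const]
      have hne : Nonempty (l →ₐ[ℚ] ℂ) := ⟨IsAlgClosed.lift⟩
      have h6 : (Finset.univ : Finset (l →ₐ[ℚ] ℂ)).card ≠ 0 :=
        Finset.card_ne_zero.2 (Finset.univ_nonempty)
      calc (2 : ℝ) = 2 ^ 1 := by norm_num
        _ ≤ 2 ^ (Finset.univ : Finset (l →ₐ[ℚ] ℂ)).card :=
          pow_le_pow_right₀ (by norm_num) (Nat.one_le_iff_ne_zero.2 h6)
    rw [h3] at h4
    norm_num at h4

/-- finitely many nonzero elements are units outside the primes dividing a natural number -/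
theorem exists_bad (N : Finset l) (hN : ∀ n ∈ N, n ≠ 0) :
    ∃ B : ℕ, B ≠ 0 ∧ ∀ v : HeightOneSpectrum (𝓞 l), (B : 𝓞 l) ∉ v.asIdeal →
      ∀ n ∈ N, v.valuation l n = 1 := by
  classical
  induction N using Finset.induction_on with
  | empty => exact ⟨1, one_ne_zero, fun v _ n hn => absurd hn (Finset.notMem_empty n)⟩
  | insert a N ha ih =>
    obtain ⟨B, hB, hv⟩ := ih fun n hn => hN n (Finset.mem_insert_of_mem hn)
    have ha0 := hN a (Finset.mem_insert_self a N)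
    obtain ⟨x, y, hy, hxy⟩ := IsFractionRing.div_surjective (A := 𝓞 l) a
    have hy0 : y ≠ 0 := nonZeroDivisors.ne_zero hy
    have hx0 : x ≠ 0 := by
      rintro rfl
      rw [map_zero, zero_div] at hxy
      exact ha0 hxy.symm
    have hxy0 : x * y ≠ 0 := mul_ne_zero hx0 hy0
    have hI : Ideal.absNorm (Ideal.span {x * y}) ≠ 0 := by
      rw [Ne, Ideal.absNorm_eq_zero_iff, Ideal.span_singleton_eq_bot]
      exact hxy0
    refine ⟨B * Ideal.absNorm (Ideal.span {x * y}), mul_ne_zero hB hI, fun v hvB n hn => ?_⟩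
    have h1 : (B : 𝓞 l) ∉ v.asIdeal := by
      intro h
      apply hvB
      push_cast
      exact v.asIdeal.mul_mem_right _ h
    have h2 : ((Ideal.absNorm (Ideal.span {x * y}) : ℕ) : 𝓞 l) ∉ v.asIdeal := by
      intro h
      apply hvB
      push_cast
      exact v.asIdeal.mul_mem_left _ h
    rcases Finset.mem_insert.1 hn with rfl | hn
    · have h3 : x * y ∉ v.asIdeal := by
        intro h
        apply h2
        have h4 := Ideal.absNorm_mem (Ideal.span {x * y})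
        exact (Ideal.span_singleton_le_iff_mem _).2 h h4
      have hx : x ∉ v.asIdeal := fun h => h3 (v.asIdeal.mul_mem_right _ h)
      have hy' : y ∉ v.asIdeal := fun h => h3 (v.asIdeal.mul_mem_left _ h)
      rw [← hxy, map_div₀, (v.valuation_eq_one_iff_notMem).2 hx,
        (v.valuation_eq_one_iff_notMem).2 hy', div_one]
    · exact hv v h1 n hn

/-- the valuation of an integral element -/
theorem valuation_le_one_of_isIntegral (v : HeightOneSpectrum (𝓞 l)) (x : l)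
    (hx : IsIntegral ℤ x) : v.valuation l x ≤ 1 :=
  v.valuation_le_one (⟨x, hx⟩ : 𝓞 l)

/-- A prime and an element, of odd valuation at this prime, whose proper conjugates are units at
this prime. -/
theorem exists_prime {G : Type*} [Group G] [Fintype G] (s : G → (l →+* l))
    (hs1 : ∀ x, s 1 x = x) (hsmul : ∀ σ τ x, s (σ * τ) x = s σ (s τ x)) (θ : l)
    (hθ : ∀ σ, σ ≠ 1 → s σ θ ≠ θ) (N : Finset l) (hN : ∀ n ∈ N, n ≠ 0) :
    ∃ (v : HeightOneSpectrum (𝓞 l)) (t : l) (q : ℕ), (∀ n ∈ N, v.valuation l n = 1) ∧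
      v.valuation l t = exp (-1 : ℤ) ∧ (∀ σ, σ ≠ 1 → v.valuation l (s σ t) = 1) ∧
      q ≠ 0 ∧ v.valuation l (q : l) < 1 := by
  classical
  -- make θ integral
  obtain ⟨m, hm, hmθ⟩ : ∃ m : ℤ, m ≠ 0 ∧ IsIntegral ℤ ((m : l) * θ) := by
    have halg : IsAlgebraic ℤ θ :=
      (IsFractionRing.isAlgebraic_iff ℤ ℚ l).2 (Algebra.IsAlgebraic.isAlgebraic θ)
    obtain ⟨y, hy0, hy⟩ := halg.exists_integral_multiple
    refine ⟨y, hy0, ?_⟩
    rwa [zsmul_eq_mul] at hy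
  have hm0 : (m : l) ≠ 0 := by exact_mod_cast hm
  let ϑ : 𝓞 l := ⟨(m : l) * θ, hmθ⟩
  have hϑ : ∀ σ, σ ≠ 1 → (ϑ : l) - s σ (ϑ : l) ≠ 0 := by
    intro σ hσ h0
    have h1 : (ϑ : l) = (m : l) * θ := rfl
    rw [h1, map_mul, map_intCast, ← mul_sub] at h0
    rcases mul_eq_zero.1 h0 with h | h
    · exact hm0 h
    · exact hθ σ hσ (sub_eq_zero.1 h).symm
  -- the bad primes
  obtain ⟨B, hB, hbad⟩ := exists_bad
    (N ∪ (Finset.univ.filter fun σ : G => σ ≠ 1).image fun σ => (ϑ : l) - s σ (ϑ : l)) (by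
      intro n hn
      rcases Finset.mem_union.1 hn with h | h
      · exact hN n h
      · obtain ⟨σ, hσ, rfl⟩ := Finset.mem_image.1 h
        exact hϑ σ (Finset.mem_filter.1 hσ).2)
  obtain ⟨c, hα0, hα⟩ := exists_nonunit ϑ B hB
  set α : 𝓞 l := 1 + (B : 𝓞 l) * ((c : 𝓞 l) - ϑ) with hαdef
  -- a prime which contains α
  obtain ⟨P, hPmax, hαP⟩ := exists_max_ideal_of_mem_nonunits hα
  let v : HeightOneSpectrum (𝓞 l) := ⟨P, hPmax.isPrime, by
    rintro rfl
    exact hα0 ((Submodule.mem_bot _).1 hαP)⟩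
  have hvα : v.valuation l (α : l) < 1 := (v.valuation_lt_one_iff_mem (K := l) α).2 hαP
  have hBP : (B : 𝓞 l) ∉ v.asIdeal := by
    intro h
    apply hPmax.ne_top
    rw [Ideal.eq_top_iff_one]
    have h1 : (1 : 𝓞 l) = α - B * (c - ϑ) := by
      rw [hαdef]
      ring
    rw [h1]
    exact P.sub_mem hαP (P.mul_mem_right _ h)
  have hvB : v.valuation l ((B : ℕ) : l) = 1 := by
    have h1 := (v.valuation_eq_one_iff_notMem (K := l)).2 hBP
    rwa [map_natCast] at h1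
  have hint : ∀ (σ : G) (x : 𝓞 l), v.valuation l (s σ (x : l)) ≤ 1 := by
    intro σ x
    exact valuation_le_one_of_isIntegral v _
      (RingOfIntegers.isIntegral_coe x |>.map (s σ).toIntAlgHom)
  have hαl : (α : l) = 1 + (B : l) * ((c : l) - (ϑ : l)) := by
    rw [hαdef]
    simp only [map_add, map_one, map_mul, map_natCast, map_sub]
  have hvσ : ∀ σ, σ ≠ 1 → v.valuation l (s σ (α : l)) = 1 := by
    intro σ hσ
    have h1 : s σ (α : l) = (B : l) * ((ϑ : l) - s σ (ϑ : l)) + (α : l) := by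
      rw [hαl]
      simp only [map_add, map_one, map_mul, map_natCast, map_sub]
      ring
    have h2 : v.valuation l ((B : l) * ((ϑ : l) - s σ (ϑ : l))) = 1 := by
      rw [map_mul, hvB, one_mul]
      refine hbad v hBP _ (Finset.mem_union_right _ ?_)
      exact Finset.mem_image_of_mem _ (Finset.mem_filter.2 ⟨Finset.mem_univ σ, hσ⟩)
    rw [h1, Valuation.map_add_eq_of_lt_left _ (by rw [h2]; exact hvα), h2]
  -- the element γ
  let γ : l := ∏ τ ∈ Finset.univ.filter (fun τ : G => τ ≠ 1), s τ⁻¹ (α : l)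
  have hγ : v.valuation l γ = 1 := by
    simp only [γ]
    rw [map_prod]
    refine Finset.prod_eq_one fun τ hτ => hvσ _ ?_
    have := (Finset.mem_filter.1 hτ).2
    simpa using this
  have hγσ : ∀ σ, σ ≠ 1 → v.valuation l (s σ γ) < 1 := by
    intro σ hσ
    simp only [γ]
    rw [map_prod, map_prod]
    rw [← Finset.mul_prod_erase _ _ (Finset.mem_filter.2 ⟨Finset.mem_univ σ, hσ⟩)]
    have h1 : s σ (s σ⁻¹ (α : l)) = (α : l) := by
      rw [← hsmul, mul_inv_cancel, hs1]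
    rw [h1]
    refine lt_of_le_of_lt ?_ hvα
    refine mul_le_of_le_one_right' ?_
    refine Finset.prod_le_one' fun τ _ => ?_
    rw [← hsmul]
    exact hint _ _
  obtain ⟨π, hπ⟩ := v.valuation_exists_uniformizer' l
  have hsq : v.valuation l ((α : l) ^ 2) < v.valuation l ((π : l) * γ) := by
    rw [map_mul, hγ, mul_one, hπ, map_pow]
    have h1 : v.valuation l (α : l) ≤ exp (-1 : ℤ) := by
      rwa [← WithZero.lt_mul_exp_iff_le (by simp), ← exp_add, neg_add_cancel, exp_zero]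
    calc v.valuation l (α : l) ^ 2 ≤ exp (-1 : ℤ) ^ 2 := pow_le_pow_left' h1 2
      _ < exp (-1 : ℤ) := by
        rw [← exp_nsmul, exp_lt_exp]
        norm_num
  refine ⟨v, (π : l) * γ + (α : l) ^ 2, Ideal.absNorm v.asIdeal, ?_, ?_, ?_, ?_, ?_⟩
  · intro n hn
    exact hbad v hBP n (Finset.mem_union_left _ hn)
  · rw [Valuation.map_add_eq_of_lt_left _ hsq, map_mul, hγ, mul_one, hπ]
  · intro σ hσ
    rw [map_add, map_pow, map_mul, add_comm]
    have h1 : v.valuation l (s σ (α : l) ^ 2) = 1 := by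
      rw [map_pow, hvσ σ hσ, one_pow]
    have h2 : v.valuation l (s σ (π : l) * s σ γ) < 1 := by
      rw [map_mul]
      exact lt_of_le_of_lt (mul_le_of_le_one_left' (hint σ π)) (hγσ σ hσ)
    rw [Valuation.map_add_eq_of_lt_left _ (by rw [h1]; exact h2), h1]
  · rw [Ne, Ideal.absNorm_eq_zero_iff]
    exact v.ne_bot
  · have h1 := Ideal.absNorm_mem v.asIdeal
    have h2 := (v.valuation_lt_one_iff_mem (K := l) _).2 h1
    have h3 : v.valuation l (algebraMap (𝓞 l) l ((Ideal.absNorm v.asIdeal : ℕ) : 𝓞 l)) < 1 := h2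
    rwa [map_natCast] at h3

end Pool.MP_f30f9b_al.Ell
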