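import Pool.Agent.H.MP_f30f9b_al.Fg
import Pool.Agent.H.MP_f30f9b_al.Dup

/-!
# Elliptic curves with a rational point of order two
-/

set_option autoImplicit false

namespace Pool.MP_f30f9b_al.Ell

open WeierstrassCurve WeierstrassCurve.Affine

/-- Finitely many square classes: from `K` to a Galois extension of degree at most two. -/
theorem sqFin_quadratic {K L : Type*} [Field K] [Field L] [Algebra K L] [FiniteDimensional K L]
    [IsGalois K L] (σ : Gal(L/K)) (hσ : ∀ τ : Gal(L/K), τ = 1 ∨ τ = σ)
    (hK : SqFin K) : SqFin L := by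
  classical
  obtain ⟨C, hC0, hC⟩ := hK
  have hσσ : ∀ x, σ (σ x) = x := by
    intro x
    rcases hσ (σ * σ) with h | h
    · exact congrArg (fun f : Gal(L/K) => f x) h
    · have h1 : σ = 1 := by
        have h3 : σ * σ = σ * 1 := by rw [h, mul_one]
        exact mul_left_cancel h3
      rw [h1]
      rfl
  have hfix : ∀ x : L, σ x = x → ∃ r : K, algebraMap K L r = x := by
    intro x hx
    refine (IsGalois.mem_range_algebraMap_iff_fixed x).2 fun τ => ?_
    rcases hσ τ with rfl | rfl
    · rfl
    · exact hx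
  -- representatives of the norm classes
  let p : K → L → Prop := fun c x => x ≠ 0 ∧ ∃ t : K, x * σ x = algebraMap K L (c * t ^ 2)
  let rep : K → L := fun c => if h : ∃ x, p c x then h.choose else 1
  have hrep : ∀ c x, p c x → p c (rep c) := by
    intro c x hx
    have h : ∃ x, p c x := ⟨x, hx⟩
    simp only [rep, h, dite_true]
    exact h.choose_spec
  have hrep0 : ∀ c, rep c ≠ 0 := by
    intro c
    by_cases h : ∃ x, p c x
    · simp only [rep, h, dite_true]
      exact h.choose_spec.1
    · simp only [rep, h, dite_false]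
      exact one_ne_zero
  refine ⟨(C ×ˢ C).image fun q => rep q.1 * algebraMap K L q.2, ?_, fun x hx => ?_⟩
  · intro c hc
    obtain ⟨q, hq, rfl⟩ := Finset.mem_image.1 hc
    exact mul_ne_zero (hrep0 _) ((map_ne_zero _).2 (hC0 _ (Finset.mem_product.1 hq).2))
  · have hσx : σ x ≠ 0 := (map_ne_zero σ).2 hx
    obtain ⟨n, hn⟩ := hfix (x * σ x) (by rw [map_mul, hσσ, mul_comm])
    have hn0 : n ≠ 0 := by
      rintro rfl
      rw [map_zero] at hn
      exact (mul_ne_zero hx hσx) hn.symm
    obtain ⟨c, hc, s, hs⟩ := hC n hn0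
    obtain ⟨-, t, ht⟩ := hrep c x ⟨hx, s, by rw [← hn, hs]⟩
    have hr0 := hrep0 c
    have hσr : σ (rep c) ≠ 0 := (map_ne_zero σ).2 hr0
    have hc0 := hC0 c hc
    have hs0 : s ≠ 0 := by
      rintro rfl
      apply hn0
      rw [hs]
      ring
    have ht0 : t ≠ 0 := by
      rintro rfl
      apply mul_ne_zero hr0 hσr
      rw [ht]
      simp
    -- the quotient has square norm
    set m : L := x / rep c with hm
    have hm0 : m ≠ 0 := div_ne_zero hx hr0
    have hNm : m * σ m = algebraMap K L (s / t) ^ 2 := by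
      rw [hm, map_div₀, div_mul_div_comm, ht, ← hn, hs, ← map_div₀, ← map_pow]
      congr 1
      field_simp
    set r : L := algebraMap K L (s / t) with hr
    have hr0' : r ≠ 0 := (map_ne_zero _).2 (div_ne_zero hs0 ht0)
    have hσr' : σ r = r := σ.commutes _
    -- m is a square times an element of K
    obtain ⟨κ, v, hκ⟩ : ∃ (κ : K) (v : L), m = algebraMap K L κ * v ^ 2 := by
      by_cases hu : m / r = -1
      · refine ⟨-(s / t), 1, ?_⟩
        rw [map_neg, ← hr]
        rw [div_eq_iff hr0'] at hu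
        rw [hu]
        ring
      · set u := m / r with hu'
        have hNu : u * σ u = 1 := by
          rw [hu', map_div₀, hσr', div_mul_div_comm, hNm]
          field_simp
        have hu0 : u ≠ 0 := div_ne_zero hm0 hr0'
        have hv0 : 1 + u ≠ 0 := by
          intro h
          apply hu
          linear_combination h
        have hσv : σ (1 + u) ≠ 0 := (map_ne_zero σ).2 hv0
        have h3 : u * σ (1 + u) = 1 + u := by
          rw [map_add, map_one]
          linear_combination hNu
        obtain ⟨q, hq⟩ := hfix (r / ((1 + u) * σ (1 + u))) (by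
          rw [map_div₀, hσr', map_mul, hσσ, mul_comm (1 + u)])
        refine ⟨q, 1 + u, ?_⟩
        rw [hq]
        have h5 : m = u * r := by
          rw [hu']
          field_simp
        clear_value u
        rw [h5, div_mul_eq_mul_div, eq_div_iff (mul_ne_zero hv0 hσv)]
        linear_combination (r * (1 + u)) * h3
    have hκ0 : κ ≠ 0 := by
      rintro rfl
      rw [map_zero, zero_mul] at hκ
      exact hm0 hκ
    obtain ⟨c', hc', y, hy⟩ := hC κ hκ0
    refine ⟨rep c * algebraMap K L c', Finset.mem_image.2 ⟨(c, c'), Finset.mem_product.2 ⟨hc, hc'⟩,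
      rfl⟩, algebraMap K L y * v, ?_⟩
    have h6 : x = rep c * m := by
      rw [hm]
      field_simp
    rw [h6, hκ, hy, map_mul, map_pow]
    ring

/-- The Galois group of the splitting field of a cubic with a rational root has order at most
two. -/
theorem exists_sigma {K : Type*} [Field K] (h2 : (2 : K) ≠ 0) (W : WeierstrassCurve K)
    (a b c : W.twoTorsionPolynomial.toPoly.SplittingField) (r q : K)
    (hr : algebraMap K _ r = a) (hq : algebraMap K _ q = b + c) (hab : b ≠ a) (hac : c ≠ a)
    (hroot : ∀ y : W.twoTorsionPolynomial.toPoly.SplittingField,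
      4 * y ^ 3 + algebraMap K _ W.b₂ * y ^ 2 + 2 * algebraMap K _ W.b₄ * y +
        algebraMap K _ W.b₆ = 0 ↔ y = a ∨ y = b ∨ y = c) :
    ∃ σ : Gal(W.twoTorsionPolynomial.toPoly.SplittingField/K),
      ∀ τ : Gal(W.twoTorsionPolynomial.toPoly.SplittingField/K), τ = 1 ∨ τ = σ := by
  classical
  let L := W.twoTorsionPolynomial.toPoly.SplittingField
  have hfixa : ∀ τ : Gal(L/K), τ a = a := by
    intro τ
    rw [← hr]
    exact τ.commutes r
  have hsum : ∀ τ : Gal(L/K), τ b + τ c = b + c := by
    intro τ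
    rw [← map_add, ← hq]
    exact τ.commutes q
  have hperm : ∀ (τ : Gal(L/K)) (y : L), 4 * y ^ 3 + algebraMap K _ W.b₂ * y ^ 2 +
      2 * algebraMap K _ W.b₄ * y + algebraMap K _ W.b₆ = 0 → 4 * (τ y) ^ 3 +
      algebraMap K _ W.b₂ * (τ y) ^ 2 + 2 * algebraMap K _ W.b₄ * (τ y) +
      algebraMap K _ W.b₆ = 0 := by
    intro τ y hy
    have h1 := congrArg τ hy
    simp only [map_add, map_mul, map_pow, map_ofNat, map_zero, AlgEquiv.commutes] at h1
    exact h1
  have hb : ∀ τ : Gal(L/K), τ b = b ∨ τ b = c := by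
    intro τ
    rcases (hroot _).1 (hperm τ b ((hroot b).2 (Or.inr (Or.inl rfl)))) with h | h
    · exfalso
      apply hab
      apply τ.injective
      rw [h, hfixa]
    · exact h
  have hext : ∀ τ τ' : Gal(L/K), τ b = τ' b → τ = τ' := by
    intro τ τ' h
    have hc : τ c = τ' c := by
      have h1 := hsum τ
      have h3 := hsum τ'
      rw [h] at h1
      exact add_left_cancel (h1.trans h3.symm)
    refine Polynomial.Gal.ext (p := W.twoTorsionPolynomial.toPoly) fun y hy => ?_
    have h5 := (Polynomial.mem_rootSet.1 hy).2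
    have h6 : Polynomial.aeval y (Polynomial.C (4 : K) * Polynomial.X ^ 3 +
      Polynomial.C W.b₂ * Polynomial.X ^ 2 + Polynomial.C (2 * W.b₄) * Polynomial.X +
      Polynomial.C W.b₆) = 0 := h5
    simp only [map_add, map_mul, map_pow, Polynomial.aeval_X, Polynomial.aeval_C, map_ofNat] at h6
    rcases (hroot y).1 h6 with rfl | rfl | rfl
    · exact (hfixa τ).trans (hfixa τ').symm
    · exact h
    · exact hc
  by_cases h : ∃ σ : Gal(L/K), σ b = c
  · obtain ⟨σ, hσ⟩ := h
    refine ⟨σ, fun τ => ?_⟩
    rcases hb τ with h | h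
    · exact Or.inl (hext τ 1 h)
    · exact Or.inr (hext τ σ (h.trans hσ.symm))
  · push Not at h
    exact ⟨1, fun τ => Or.inl (hext τ 1 ((hb τ).resolve_right (h τ)))⟩

/-- The square classes of the splitting field of the two-torsion polynomial, if it has a root. -/
theorem sqFin_splittingField {K : Type*} [Field K] (h2 : (2 : K) ≠ 0) (W : WeierstrassCurve K)
    [W.IsElliptic] (x : K) (hx : 4 * x ^ 3 + W.b₂ * x ^ 2 + 2 * W.b₄ * x + W.b₆ = 0)
    (hK : SqFin K) : SqFin W.twoTorsionPolynomial.toPoly.SplittingField := by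
  classical
  let L := W.twoTorsionPolynomial.toPoly.SplittingField
  have hG : IsGalois K L := isGalois_splittingField h2 W
  have h2L : (2 : L) ≠ 0 := by
    have := (map_ne_zero (algebraMap K L)).2 h2
    rwa [map_ofNat] at this
  have h4L : (4 : L) ≠ 0 := by
    have : (4 : L) = 2 * 2 := by norm_num
    rw [this]
    exact mul_ne_zero h2L h2L
  obtain ⟨e₁, e₂, e₃, h12, h13, h23, hb2, hb4, hb6⟩ := exists_roots h2 W
    (Polynomial.SplittingField.splits W.twoTorsionPolynomial.toPoly)
  have hroot : ∀ y : L, 4 * y ^ 3 + algebraMap K _ W.b₂ * y ^ 2 +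
      2 * algebraMap K _ W.b₄ * y + algebraMap K _ W.b₆ = 0 ↔ y = e₁ ∨ y = e₂ ∨ y = e₃ := by
    intro y
    have h1 : 4 * y ^ 3 + algebraMap K _ W.b₂ * y ^ 2 + 2 * algebraMap K _ W.b₄ * y +
        algebraMap K _ W.b₆ = 4 * ((y - e₁) * ((y - e₂) * (y - e₃))) := by
      rw [hb2, hb4, hb6]
      ring
    rw [h1, mul_eq_zero, mul_eq_zero, mul_eq_zero, sub_eq_zero, sub_eq_zero, sub_eq_zero]
    constructor
    · rintro (h | h)
      · exact absurd h h4L
      · exact h
    · exact Or.inr
  have hx' : 4 * (algebraMap K L x) ^ 3 + algebraMap K _ W.b₂ * (algebraMap K L x) ^ 2 +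
      2 * algebraMap K _ W.b₄ * (algebraMap K L x) + algebraMap K _ W.b₆ = 0 := by
    have h1 := congrArg (algebraMap K L) hx
    simpa only [map_add, map_mul, map_pow, map_ofNat, map_zero] using h1
  have h4K : (4 : K) ≠ 0 := by
    have : (4 : K) = 2 * 2 := by norm_num
    rw [this]
    exact mul_ne_zero h2 h2
  have hsum : algebraMap K L (-(W.b₂ / 4)) = e₁ + e₂ + e₃ := by
    rw [map_neg, map_div₀, map_ofNat, hb2, neg_mul, neg_div, neg_neg, mul_div_cancel_left₀ _ h4L]
  obtain ⟨σ, hσ⟩ : ∃ σ : Gal(L/K), ∀ τ : Gal(L/K), τ = 1 ∨ τ = σ := by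
    rcases (hroot _).1 hx' with h | h | h
    · refine exists_sigma h2 W e₁ e₂ e₃ x (-(W.b₂ / 4) - x) h ?_ h12.symm h13.symm hroot
      rw [map_sub, hsum, h]
      ring
    · refine exists_sigma h2 W e₂ e₁ e₃ x (-(W.b₂ / 4) - x) h ?_ h12 h23.symm fun y => ?_
      · rw [map_sub, hsum, h]
        ring
      · rw [hroot y]
        tauto
    · refine exists_sigma h2 W e₃ e₁ e₂ x (-(W.b₂ / 4) - x) h ?_ h13 h23 fun y => ?_
      · rw [map_sub, hsum, h]
        ring
      · rw [hroot y]
        tauto
  exact sqFin_quadratic σ hσ hK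

/-- Elliptic curves with a rational point of order two over an infinite field, of characteristic
not two, in which the squares have finite index. -/
theorem infinite_of_two_torsion {K : Type*} [Field K] [Infinite K] [DecidableEq K]
    (h2 : (2 : K) ≠ 0) (hK : (powMonoidHom 2 : Kˣ →* Kˣ).range.index ≠ 0) (W : WeierstrassCurve K)
    [W.IsElliptic] (P : W.toAffine.Point) (hP : P ≠ 0) (hPP : P + P = 0) :
    {p : K × K | W.toAffine.Equation p.1 p.2}.Infinite := by
  rcases P with _ | ⟨x, y, h⟩
  · exact absurd rfl hP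
  · have h1 : y = W.toAffine.negY x y := by
      by_contra hne
      rw [Point.add_self_of_Y_ne hne] at hPP
      exact Point.some_ne_zero _ hPP
    have h3 : 2 * y + W.a₁ * x + W.a₃ = 0 := by
      rw [negY] at h1
      linear_combination h1
    refine infinite_of_sqFin h2 W (sqFin_splittingField h2 W x ?_ (sqFin_of_index hK))
    rw [← sq_eq W h.1, h3]
    ring

end Pool.MP_f30f9b_al.Ell
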