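import Pool.Agent.H.MP_f30f9b_al.RankCore
import Pool.Agent.H.MP_f30f9b_al.Split

/-!
# Infinite rank over algebraic extensions of the rational numbers
-/

set_option autoImplicit false

namespace Pool.MP_f30f9b_al.Ell

open WeierstrassCurve WeierstrassCurve.Affine NumberField WithZero

theorem rank_of_galois {K L : Type*} [Field K] [CharZero K] [Algebra.IsAlgebraic ℚ K] [Field L]
    [Algebra K L] [FiniteDimensional K L] [IsGalois K L] [DecidableEq K] (W : WeierstrassCurve K)
    [W.IsElliptic] (e₁ e₂ e₃ : L) (he : e₁ ≠ e₂)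
    (hb2 : algebraMap K L W.b₂ = -4 * (e₁ + e₂ + e₃))
    (hb4 : 2 * algebraMap K L W.b₄ = 4 * (e₁ * e₂ + e₁ * e₃ + e₂ * e₃))
    (hb6 : algebraMap K L W.b₆ = -4 * (e₁ * e₂ * e₃))
    (C : Finset L) (hC0 : ∀ c ∈ C, c ≠ 0)
    (hC : ∀ x : L, x ≠ 0 → ∃ c ∈ C, ∃ y : L, x = c * y ^ 2) :
    ∃ Q : ℕ → W.toAffine.Point, LinearIndependent ℤ Q := by
  classical
  have hchar : CharZero L := charZero_of_injective_algebraMap (algebraMap K L).injective
  have halgL : Algebra.IsAlgebraic ℚ L := Algebra.IsAlgebraic.trans ℚ K L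
  obtain ⟨θ, hθ⟩ := Field.exists_primitive_element K L
  have hθσ : ∀ σ : Gal(L/K), σ θ = θ → σ = 1 := by
    intro σ h
    have h1 := fixes_sup (⊥ : IntermediateField K L) {θ} σ
      (fun x hx => by
        obtain ⟨r, rfl⟩ := IntermediateField.mem_bot.1 hx
        exact σ.commutes r) (fun x hx => by
        rw [Set.mem_singleton_iff.1 hx]
        exact h)
    rw [hθ] at h1
    ext x
    exact h1 x (by simp)
  -- the finite set
  let X : Finset L := {algebraMap K L W.a₁, algebraMap K L W.a₂, algebraMap K L W.a₃,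
    algebraMap K L W.a₄, algebraMap K L W.a₆, e₁, e₂, e₃, θ} ∪ C
  let X' : Finset L := (X ×ˢ (Finset.univ : Finset Gal(L/K))).image fun r => r.2 r.1
  have hXX' : ∀ x ∈ X, x ∈ X' := fun x hx =>
    Finset.mem_image.2 ⟨(x, 1), Finset.mem_product.2 ⟨hx, Finset.mem_univ _⟩, rfl⟩
  have hXσ : ∀ (σ : Gal(L/K)) (x : L), x ∈ X' → σ x ∈ X' := by
    intro σ x hx
    obtain ⟨r, hr, rfl⟩ := Finset.mem_image.1 hx
    exact Finset.mem_image.2 ⟨(r.1, σ * r.2), Finset.mem_product.2
      ⟨(Finset.mem_product.1 hr).1, Finset.mem_univ _⟩, rfl⟩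
  let l : IntermediateField ℚ L := IntermediateField.adjoin ℚ (X' : Set L)
  have hXl : ∀ x ∈ X, x ∈ l := fun x hx =>
    IntermediateField.subset_adjoin ℚ _ (Finset.mem_coe.2 (hXX' x hx))
  have hlfin : FiniteDimensional ℚ l := by
    have : Finite (X' : Set L) := inferInstance
    exact IntermediateField.finiteDimensional_adjoin fun x _ =>
      (Algebra.IsAlgebraic.isAlgebraic (R := ℚ) x).isIntegral
  have hlnf : NumberField l := { to_charZero := inferInstance, to_finiteDimensional := hlfin }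
  have hlσ : ∀ (σ : Gal(L/K)) (x : L), x ∈ l → σ x ∈ l := by
    intro σ
    have h1 : l ≤ l.comap ((σ : L →ₐ[K] L).restrictScalars ℚ) := by
      rw [IntermediateField.adjoin_le_iff]
      intro x hx
      exact IntermediateField.subset_adjoin ℚ _ (Finset.mem_coe.2 (hXσ σ x (Finset.mem_coe.1 hx)))
    exact fun x hx => h1 hx
  let s : Gal(L/K) → (l →+* l) := fun σ =>
    RingHom.codRestrict ((σ : L →+* L).comp (algebraMap l L)) l fun x => hlσ σ x x.2
  let k : IntermediateField ℚ K := l.comap (IsScalarTower.toAlgHom ℚ K L)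
  have hk : ∀ x : k, algebraMap K L (x : K) ∈ l := fun x => x.2
  let algkl : Algebra k l := (RingHom.codRestrict ((algebraMap K L).comp (algebraMap k K)) l
    fun x => x.2).toAlgebra
  have hkl : ∀ x : k, ((algebraMap k l x : l) : L) = algebraMap K L (x : K) := fun x => rfl
  have htow : IsScalarTower k K L := inferInstance
  have halgkL : Algebra.IsAlgebraic k L := by
    have : IsScalarTower ℚ k L := inferInstance
    exact Algebra.IsAlgebraic.tower_top (K := ℚ) k
  let φ : l →ₐ[k] L := { algebraMap l L with commutes' := fun r => rfl }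
  have ha : ∀ x : K, x ∈ ({W.a₁, W.a₂, W.a₃, W.a₄, W.a₆} : Set K) → x ∈ k := by
    intro x hx
    change algebraMap K L x ∈ l
    apply hXl
    simp only [X, Finset.mem_union, Finset.mem_insert]
    simp only [Set.mem_insert_iff, Set.mem_singleton_iff] at hx
    rcases hx with rfl | rfl | rfl | rfl | rfl <;> simp
  let W₀ : WeierstrassCurve k := ⟨⟨W.a₁, ha _ (by simp)⟩, ⟨W.a₂, ha _ (by simp)⟩,
    ⟨W.a₃, ha _ (by simp)⟩, ⟨W.a₄, ha _ (by simp)⟩, ⟨W.a₆, ha _ (by simp)⟩⟩
  have hW : W₀.map (algebraMap k K) = W := rfl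
  have hell : W₀.IsElliptic := by
    refine ⟨?_⟩
    have h1 : algebraMap k K W₀.Δ = W.Δ := by
      rw [← WeierstrassCurve.map_Δ, hW]
    refine IsUnit.mk0 _ fun h0 => ?_
    rw [h0, map_zero] at h1
    exact W.isUnit_Δ.ne_zero h1.symm
  have hb2' : ((algebraMap k l W₀.b₂ : l) : L) = algebraMap K L W.b₂ := by
    rw [hkl]
    change algebraMap K L (algebraMap k K W₀.b₂) = _
    rw [← WeierstrassCurve.map_b₂, hW]
  have hb4' : ((algebraMap k l W₀.b₄ : l) : L) = algebraMap K L W.b₄ := by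
    rw [hkl]
    change algebraMap K L (algebraMap k K W₀.b₄) = _
    rw [← WeierstrassCurve.map_b₄, hW]
  have hb6' : ((algebraMap k l W₀.b₆ : l) : L) = algebraMap K L W.b₆ := by
    rw [hkl]
    change algebraMap K L (algebraMap k K W₀.b₆) = _
    rw [← WeierstrassCurve.map_b₆, hW]
  have hXmem : e₁ ∈ l ∧ e₂ ∈ l ∧ e₃ ∈ l ∧ θ ∈ l ∧ ∀ c ∈ C, c ∈ l := by
    refine ⟨hXl _ (by simp [X]), hXl _ (by simp [X]), hXl _ (by simp [X]), hXl _ (by simp [X]),
      fun c hc => hXl _ (by simp [X, hc])⟩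
  obtain ⟨h1, h2, h3, h4, h5⟩ := hXmem
  have key := rank_core (k := k) (K := K) (L := L) (l := l) W₀ φ s (fun σ x => rfl) ⟨θ, h4⟩
    (fun σ hσ h => hσ (hθσ σ (congrArg (fun x : l => (x : L)) h))) ⟨e₁, h1⟩ ⟨e₂, h2⟩ ⟨e₃, h3⟩
    (fun h => he (congrArg (fun x : l => (x : L)) h))
    (Subtype.ext (hb2'.trans hb2)) (Subtype.ext (by
      have h6 : (((2 : l) * algebraMap k l W₀.b₄ : l) : L) = 2 * algebraMap K L W.b₄ := by
        rw [← hb4']
        rfl
      exact h6.trans hb4)) (Subtype.ext (hb6'.trans hb6))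
    (C.attach.image fun c => ⟨c.1, h5 c.1 c.2⟩) (by
      intro c hc
      obtain ⟨c', -, rfl⟩ := Finset.mem_image.1 hc
      intro h0
      exact hC0 c'.1 c'.2 (congrArg (fun x : l => (x : L)) h0)) (by
      intro x hx
      obtain ⟨c, hc, y, hy⟩ := hC x hx
      exact ⟨⟨c, h5 c hc⟩, Finset.mem_image.2 ⟨⟨c, hc⟩, Finset.mem_attach _ _, rfl⟩, y, hy⟩)
  exact key

/-- Infinite rank if the splitting field of the two-torsion polynomial has finitely many square
classes. -/
theorem rank_of_sqFin {K : Type*} [Field K] [CharZero K] [Algebra.IsAlgebraic ℚ K] [DecidableEq K]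
    (W : WeierstrassCurve K) [W.IsElliptic]
    (hS : SqFin W.twoTorsionPolynomial.toPoly.SplittingField) :
    ∃ Q : ℕ → W.toAffine.Point, LinearIndependent ℤ Q := by
  have hG := isGalois_splittingField two_ne_zero W
  obtain ⟨e₁, e₂, e₃, he, -, -, hb2, hb4, hb6⟩ := exists_roots two_ne_zero W
    (Polynomial.SplittingField.splits W.twoTorsionPolynomial.toPoly)
  obtain ⟨C, hC0, hC⟩ := hS
  exact rank_of_galois W e₁ e₂ e₃ he hb2 hb4 hb6 C hC0 hC

/-- Elliptic curves over an algebraic extension of `ℚ` with topologically finitely generated Galois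
group have infinite rank. -/
theorem rank_of_fg {K : Type*} [Field K] [CharZero K] [Algebra.IsAlgebraic ℚ K] [DecidableEq K]
    (hfg : ∃ S : Set (Field.absoluteGaloisGroup K), S.Finite ∧
        closure ((Subgroup.closure S : Subgroup (Field.absoluteGaloisGroup K)) :
          Set (Field.absoluteGaloisGroup K)) = Set.univ)
    (W : WeierstrassCurve K) [W.IsElliptic] :
    ∃ Q : ℕ → W.toAffine.Point, LinearIndependent ℤ Q :=
  rank_of_sqFin W (sqFin_of_fg two_ne_zero hfg _)

end Pool.MP_f30f9b_al.Ell
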