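import Pool.Agent.H.MP_f30f9b_al.Seq
import Pool.Agent.H.MP_f30f9b_al.Kummer
import Pool.Agent.H.MP_f30f9b_al.Dup
import Pool.Agent.H.MP_f30f9b_al.Indep

/-!
# Infinitely many independent points
-/

set_option autoImplicit false

namespace Pool.MP_f30f9b_al.Ell

open WeierstrassCurve WeierstrassCurve.Affine NumberField WithZero

/-- The sum of the conjugates of a point comes from the base field. -/
theorem exists_descend {k K L : Type*} [Field k] [Field K] [Field L] [Algebra k K] [Algebra K L]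
    [Algebra k L] [IsScalarTower k K L] [FiniteDimensional K L] [IsGalois K L] [DecidableEq K]
    [DecidableEq L] (W : WeierstrassCurve k) (P : (W⁄L).Point) :
    ∃ Q : (W⁄K).Point, Point.map (W' := W) (IsScalarTower.toAlgHom k K L) Q =
      ∑ σ : Gal(L/K), Point.map (W' := W) ((σ : L →ₐ[K] L).restrictScalars k) P := by
  set T : (W⁄L).Point :=
    ∑ σ : Gal(L/K), Point.map (W' := W) ((σ : L →ₐ[K] L).restrictScalars k) P with hT
  have hinv : ∀ τ : Gal(L/K), Point.map (W' := W) ((τ : L →ₐ[K] L).restrictScalars k) T = T := by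
    intro τ
    rw [hT, map_sum]
    refine Fintype.sum_equiv (Equiv.mulLeft τ) _ _ fun σ => ?_
    rw [Point.map_map]
    rfl
  rcases hTc : T with _ | ⟨X, Y, hXY⟩
  · exact ⟨0, rfl⟩
  · have h1 : ∀ τ : Gal(L/K), τ X = X ∧ τ Y = Y := by
      intro τ
      have := hinv τ
      rw [hTc, Point.map_some] at this
      simpa using this
    obtain ⟨a, ha⟩ := (IsGalois.mem_range_algebraMap_iff_fixed X).2 fun τ => (h1 τ).1
    obtain ⟨b, hb⟩ := (IsGalois.mem_range_algebraMap_iff_fixed Y).2 fun τ => (h1 τ).2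
    subst ha
    subst hb
    have h2 : (W⁄K).Nonsingular a b :=
      (baseChange_nonsingular W (f := IsScalarTower.toAlgHom k K L)
        (IsScalarTower.toAlgHom k K L).injective ..).mp hXY
    exact ⟨Point.some a b h2, rfl⟩

theorem rank_core {k K L l : Type*} [Field k] [Field K] [Field L] [Field l] [NumberField l]
    [Algebra k K] [Algebra K L] [Algebra k L] [IsScalarTower k K L] [Algebra k l]
    [FiniteDimensional K L] [IsGalois K L] [Algebra.IsAlgebraic k L] [DecidableEq K]
    (W : WeierstrassCurve k) [W.IsElliptic] (φ : l →ₐ[k] L) (s : Gal(L/K) → (l →+* l))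
    (hs : ∀ σ x, φ (s σ x) = σ (φ x)) (θ : l) (hθ : ∀ σ, σ ≠ 1 → s σ θ ≠ θ)
    (e₁ e₂ e₃ : l) (he : e₁ ≠ e₂)
    (hb2 : algebraMap k l W.b₂ = -4 * (e₁ + e₂ + e₃))
    (hb4 : 2 * algebraMap k l W.b₄ = 4 * (e₁ * e₂ + e₁ * e₃ + e₂ * e₃))
    (hb6 : algebraMap k l W.b₆ = -4 * (e₁ * e₂ * e₃))
    (C : Finset l) (hC0 : ∀ c ∈ C, c ≠ 0)
    (hC : ∀ x : L, x ≠ 0 → ∃ c ∈ C, ∃ y : L, x = φ c * y ^ 2) :
    ∃ Q : ℕ → (W⁄K).Point, LinearIndependent ℤ Q := by
  classical
  have hinj : Function.Injective φ := φ.injective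
  have hs1 : ∀ x, s 1 x = x := by
    intro x
    apply hinj
    rw [hs]
    rfl
  have hsmul : ∀ σ τ x, s (σ * τ) x = s σ (s τ x) := by
    intro σ τ x
    apply hinj
    rw [hs, hs, hs]
    rfl
  have h2l : (2 : l) ≠ 0 := two_ne_zero
  have h2L : (2 : L) ≠ 0 := by
    have := (map_ne_zero φ).2 h2l
    rwa [map_ofNat] at this
  let E := AlgebraicClosure L
  have h2E : (2 : E) ≠ 0 := by
    have := (map_ne_zero (algebraMap L E)).2 h2L
    rwa [map_ofNat] at this
  have hnE : Normal k E := inferInstance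
  let j : L →ₐ[k] E := IsScalarTower.toAlgHom k L E
  let ι : l →ₐ[k] E := j.comp φ
  obtain ⟨u, hu2⟩ := exists_above_two l
  -- the bound
  let b₂ : l := algebraMap k l W.b₂
  let b₄ : l := algebraMap k l W.b₄
  let b₆ : l := algebraMap k l W.b₆
  let b₈ : l := algebraMap k l W.b₈
  obtain ⟨R, hR⟩ := Finset.exists_le ({1, u b₄, u (2 * b₆), u b₈, u (b₂ / 4), u (b₄ / 2),
    u (b₆ / 4)} : Finset ℤᵐ⁰)
  obtain ⟨z, D, w, hzDw⟩ := exists_seq (φ : l →+* L) s hs1 hsmul θ hθ e₁ e₂ e₃ he C hC0 hC u hu2 R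
  let f : l → l := fun z => (z - e₁) * (z - e₂) * (z - e₃)
  have hD : ∀ n, D n ^ 2 = φ (f (z n)) := fun n => (hzDw n).1
  -- the points over L
  let y : ℕ → L := fun n => D n - (algebraMap k L W.a₁ * φ (z n) + algebraMap k L W.a₃) / 2
  have heq : ∀ n, (W⁄L).Equation (φ (z n)) (y n) := by
    intro n
    rw [equation_iff]
    change (y n) ^ 2 + algebraMap k L W.a₁ * φ (z n) * y n + algebraMap k L W.a₃ * y n =
      φ (z n) ^ 3 + algebraMap k L W.a₂ * φ (z n) ^ 2 + algebraMap k L W.a₄ * φ (z n) +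
        algebraMap k L W.a₆
    have hb2' : algebraMap k L (W.a₁ ^ 2 + 4 * W.a₂) = -4 * (φ e₁ + φ e₂ + φ e₃) := by
      have := congrArg φ hb2
      rw [φ.commutes, map_mul, map_neg, map_ofNat, map_add, map_add] at this
      exact this
    have hb4' : 2 * algebraMap k L (2 * W.a₄ + W.a₁ * W.a₃) =
        4 * (φ e₁ * φ e₂ + φ e₁ * φ e₃ + φ e₂ * φ e₃) := by
      have := congrArg φ hb4
      rw [map_mul, φ.commutes, map_mul, map_ofNat, map_ofNat, map_add, map_add, map_mul, map_mul,
        map_mul] at this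
      exact this
    have hb6' : algebraMap k L (W.a₃ ^ 2 + 4 * W.a₆) = -4 * (φ e₁ * φ e₂ * φ e₃) := by
      have := congrArg φ hb6
      rw [φ.commutes, map_mul, map_neg, map_ofNat, map_mul, map_mul] at this
      exact this
    rw [map_add, map_mul, map_pow, map_ofNat] at hb2'
    rw [map_add, map_mul, map_mul, map_ofNat] at hb4'
    rw [map_add, map_mul, map_pow, map_ofNat] at hb6'
    have h4 : (4 : L) ≠ 0 := by
      have : (4 : L) = 2 * 2 := by norm_num
      rw [this]
      exact mul_ne_zero h2L h2L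
    have hDn := hD n
    simp only [f, map_mul, map_sub] at hDn
    apply mul_left_cancel₀ h4
    have hw'2 : 2 * y n = 2 * D n - (algebraMap k L W.a₁ * φ (z n) + algebraMap k L W.a₃) := by
      simp only [y]
      field_simp
    linear_combination (2 * y n + 2 * D n + algebraMap k L W.a₁ * φ (z n) + algebraMap k L W.a₃)
      * hw'2 + 4 * hDn - φ (z n) ^ 2 * hb2' - φ (z n) * hb4' - hb6'
  have hellL : (W⁄L).IsElliptic :=
    inferInstanceAs (WeierstrassCurve.IsElliptic (W.map (algebraMap k L)))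
  have hns : ∀ n, (W⁄L).Nonsingular (φ (z n)) (y n) := fun n => equation_iff_nonsingular.1 (heq n)
  let P : ℕ → (W⁄L).Point := fun n => Point.some (φ (z n)) (y n) (hns n)
  choose Q hQ using fun n => exists_descend (K := K) W (P n)
  refine ⟨Q, ?_⟩
  -- the conjugates in E
  let R' : ℕ → Gal(L/K) → (W⁄E).Point := fun n σ =>
    Point.map (W' := W) (j.comp ((σ : L →ₐ[K] L).restrictScalars k)) (P n)
  have hR' : ∀ n, Point.map (W' := W) (j.comp (IsScalarTower.toAlgHom k K L)) (Q n) =
      ∑ σ, R' n σ := by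
    intro n
    rw [← Point.map_map, hQ n, map_sum]
    refine Finset.sum_congr rfl fun σ _ => ?_
    rw [Point.map_map]
  let ψ : (W⁄K).Point →ₗ[ℤ] (W⁄E).Point :=
    (Point.map (W' := W) (j.comp (IsScalarTower.toAlgHom k K L))).toIntLinearMap
  refine LinearIndependent.of_comp ψ ?_
  have hcomp : ψ ∘ Q = fun n => ∑ σ, R' n σ := funext hR'
  rw [hcomp]
  -- coordinates of the conjugates
  have hx : ∀ n (σ : Gal(L/K)), j (σ (φ (z n))) = ι (s σ (z n)) := by
    intro n σ
    rw [← hs]
    rfl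
  have hyσ : ∀ n (σ : Gal(L/K)), j (σ (y n)) = j (σ (D n)) -
      (algebraMap k E W.a₁ * ι (s σ (z n)) + algebraMap k E W.a₃) / 2 := by
    intro n σ
    have ha : ∀ r : k, σ (algebraMap k L r) = algebraMap k L r := by
      intro r
      rw [IsScalarTower.algebraMap_apply k K L, σ.commutes]
    simp only [y, map_sub, map_div₀, map_add, map_mul, map_ofNat, ha, hx]
    rw [j.commutes, j.commutes]
  have hDσ : ∀ n (σ : Gal(L/K)), (j (σ (D n))) ^ 2 = ι (s σ (f (z n))) := by
    intro n σ
    rw [← map_pow, ← map_pow, hD n, ← hs]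
    rfl
  refine indep_of_flip R' (fun m => ?_) fun m => ?_
  · -- the automorphism
    let bs : Finset E := ((Finset.range (m + 1) ×ˢ (Finset.univ : Finset Gal(L/K))).filter
      (fun r => r ≠ (m, 1))).image fun r => j (r.2 (D r.1))
    have hnot := not_mem_of_parity h2E ι (w m).toMonoidWithZeroHom bs (by
      intro b hb
      obtain ⟨r, hr, rfl⟩ := Finset.mem_image.1 hb
      obtain ⟨hr1, hr2⟩ := Finset.mem_filter.1 hr
      have hrm : r.1 ≤ m := by
        have := Finset.mem_range.1 (Finset.mem_product.1 hr1).1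
        omega
      refine ⟨s r.2 (f (z r.1)), (hzDw r.1).2.2.1 r.2, hDσ r.1 r.2, ?_⟩
      rcases lt_or_eq_of_le hrm with h | h
      · have h3 : (w m) (s r.2 (f (z r.1))) = 1 := (hzDw m).2.2.2.2.2 r.1 h r.2
        change IsSquare ((w m) (s r.2 (f (z r.1))))
        rw [h3]
        exact IsSquare.one
      · have h3 : r.2 ≠ 1 := by
          intro h4
          exact hr2 (Prod.ext h h4)
        have h5 := (hzDw m).2.2.2.2.1 r.2 h3
        rw [h]
        exact h5) (j (D m)) (f (z m)) (by
          have := hDσ m 1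
          rw [hs1] at this
          exact this) (hzDw m).2.2.2.1
    obtain ⟨g, hg, hgD⟩ := exists_flip h2E (ι.fieldRange ⊔ IntermediateField.adjoin k (bs : Set E))
      (j (D m)) ((le_sup_left : ι.fieldRange ≤ _) ⟨f (z m), by
        have := hDσ m 1
        rw [hs1] at this
        exact this.symm⟩) hnot
    have hgι : ∀ x, g (ι x) = ι x := fun x => hg _ ((le_sup_left : ι.fieldRange ≤ _) ⟨x, rfl⟩)
    refine ⟨Point.map (W' := W) (g : E →ₐ[k] E), fun n σ hn hnσ => ?_, ?_⟩
    · have hgDn : g (j (σ (D n))) = j (σ (D n)) := by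
        refine hg _ ((le_sup_right : IntermediateField.adjoin k (bs : Set E) ≤ _) ?_)
        refine IntermediateField.subset_adjoin k _ ?_
        refine Finset.mem_coe.2 (Finset.mem_image.2 ⟨(n, σ), Finset.mem_filter.2
          ⟨Finset.mem_product.2 ⟨Finset.mem_range.2 (by omega), Finset.mem_univ _⟩, ?_⟩, rfl⟩)
        intro h
        exact hnσ (congrArg Prod.fst h) (congrArg Prod.snd h)
      have h1 : R' n σ = Point.some (j (σ (φ (z n)))) (j (σ (y n)))
        ((baseChange_nonsingular W (f := j.comp ((σ : L →ₐ[K] L).restrictScalars k))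
          (j.comp ((σ : L →ₐ[K] L).restrictScalars k)).injective ..).mpr (hns n)) := rfl
      rw [h1, Point.map_some]
      simp only [Point.some.injEq]
      constructor
      · change g (j (σ (φ (z n)))) = _
        rw [hx, hgι]
      · change g (j (σ (y n))) = _
        rw [hyσ, map_sub, map_div₀, map_add, map_mul, map_ofNat, hgι, hgDn, g.commutes,
          g.commutes]
    · have h1 : R' m 1 = Point.some (j (φ (z m))) (j (y m))
        ((baseChange_nonsingular W (f := j) j.injective ..).mpr (hns m)) := rfl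
      rw [h1, Point.map_some, Point.neg_some]
      simp only [Point.some.injEq]
      constructor
      · change g (j (φ (z m))) = _
        exact hgι (z m)
      · change g (j (y m)) = -j (y m) - algebraMap k E W.a₁ * j (φ (z m)) - algebraMap k E W.a₃
        have h3 := hyσ m 1
        rw [hs1] at h3
        have h4 : j ((1 : Gal(L/K)) (y m)) = j (y m) := rfl
        have h5 : j ((1 : Gal(L/K)) (D m)) = j (D m) := rfl
        have h6 : j (φ (z m)) = ι (z m) := rfl
        rw [h4, h5] at h3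
        rw [h3, h6, map_sub, map_div₀, map_add, map_mul, map_ofNat, hgι, hgD, g.commutes,
          g.commutes]
        have h7 := div_mul_cancel₀ (algebraMap k E W.a₁ * ι (z m) + algebraMap k E W.a₃) h2E
        linear_combination -h7
  · -- infinite order
    have h1 : R' m 1 = Point.map (W' := W) j (P m) := rfl
    rw [h1]
    have h3 := (Point.map_injective (W' := W) j)
    have h4 : IsOfFinAddOrder (Point.map (W' := W) j (P m)) ↔ IsOfFinAddOrder (P m) :=
      h3.isOfFinAddOrder_iff
    rw [h4]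
    have hRz := (hzDw m).2.1
    have hmem : ∀ t ∈ ({1, u b₄, u (2 * b₆), u b₈, u (b₂ / 4), u (b₄ / 2),
        u (b₆ / 4)} : Finset ℤᵐ⁰), t < u (z m) := fun t ht => lt_of_le_of_lt (hR t ht) hRz
    exact not_isOfFinAddOrder W φ u h2l hu2 (z m) (hmem _ (by simp)) (hmem _ (by simp [b₄]))
      (hmem _ (by simp [b₆])) (hmem _ (by simp [b₈])) (hmem _ (by simp [b₂]))
      (hmem _ (by simp [b₄])) (hmem _ (by simp [b₆])) (hns m)

end Pool.MP_f30f9b_al.Ell
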