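import Pool.Agent.H.MP_f30f9b_al.Choice
import Pool.Agent.H.MP_f30f9b_al.Family

/-!
# The sequence of points over `L`
-/

set_option autoImplicit false

namespace Pool.MP_f30f9b_al.Ell

open NumberField IsDedekindDomain WithZero

variable {l : Type*} [Field l] [NumberField l]

/-- a valuation above two -/
theorem exists_above_two (l : Type*) [Field l] [NumberField l] :
    ∃ u : Valuation l ℤᵐ⁰, u 2 < 1 := by
  have h : (2 : 𝓞 l) ∈ nonunits (𝓞 l) := by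
    intro h
    have h1 := NumberField.isUnit_iff_norm.1 h
    have h2 : ((RingOfIntegers.norm ℚ (2 : 𝓞 l) : 𝓞 ℚ) : ℚ) = Algebra.norm ℚ ((2 : 𝓞 l) : l) :=
      RingOfIntegers.coe_norm ℚ _
    have h3 : ((2 : 𝓞 l) : l) = algebraMap ℚ l 2 := by
      rw [map_ofNat]
      exact map_ofNat (algebraMap (𝓞 l) l) 2
    rw [h2, h3, Algebra.norm_algebraMap] at h1
    have h4 : 0 < Module.finrank ℚ l := Module.finrank_pos
    have h5 : (1 : ℚ) < 2 ^ Module.finrank ℚ l := one_lt_pow₀ (by norm_num) h4.ne'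
    rw [abs_of_pos (by positivity)] at h1
    exact absurd h1 h5.ne'
  obtain ⟨P, hP, h2P⟩ := exists_max_ideal_of_mem_nonunits h
  let v : HeightOneSpectrum (𝓞 l) := ⟨P, hP.isPrime, by
    rintro rfl
    exact two_ne_zero ((Submodule.mem_bot _).1 h2P)⟩
  refine ⟨v.valuation l, ?_⟩
  have h1 : v.valuation l (algebraMap (𝓞 l) l 2) < 1 := (v.valuation_lt_one_iff_mem (K := l) 2).2 h2P
  rwa [map_ofNat] at h1

theorem exists_seq {L G : Type*} [Field L] [Group G] [Fintype G] (φ : l →+* L)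
    (s : G → (l →+* l)) (hs1 : ∀ x, s 1 x = x) (hsmul : ∀ σ τ x, s (σ * τ) x = s σ (s τ x)) (θ : l)
    (hθ : ∀ σ, σ ≠ 1 → s σ θ ≠ θ) (e₁ e₂ e₃ : l) (he : e₁ ≠ e₂)
    (C : Finset l) (hC0 : ∀ c ∈ C, c ≠ 0)
    (hC : ∀ x : L, x ≠ 0 → ∃ c ∈ C, ∃ y : L, x = φ c * y ^ 2)
    (u : Valuation l ℤᵐ⁰) (hu2 : u 2 < 1) (R : ℤᵐ⁰) :
    ∃ (z : ℕ → l) (D : ℕ → L) (w : ℕ → Valuation l ℤᵐ⁰), ∀ n,
      D n ^ 2 = φ ((z n - e₁) * (z n - e₂) * (z n - e₃)) ∧ R < u (z n) ∧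
      (∀ σ, s σ ((z n - e₁) * (z n - e₂) * (z n - e₃)) ≠ 0) ∧
      ¬ IsSquare (w n ((z n - e₁) * (z n - e₂) * (z n - e₃))) ∧
      (∀ σ, σ ≠ 1 → IsSquare (w n (s σ ((z n - e₁) * (z n - e₂) * (z n - e₃))))) ∧
      ∀ m, m < n → ∀ σ, w n (s σ ((z m - e₁) * (z m - e₂) * (z m - e₃))) = 1 := by
  classical
  obtain ⟨F, hF0, hF⟩ := square_family φ C hC0 hC e₁ e₂ e₃ he
  obtain ⟨f, hf1, hf2⟩ := exists_seq_of_forall_finset_exists
    (α := l × L × Valuation l ℤᵐ⁰)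
    (fun x => x.2.1 ^ 2 = φ ((x.1 - e₁) * (x.1 - e₂) * (x.1 - e₃)) ∧ R < u x.1 ∧
      (∀ σ, s σ ((x.1 - e₁) * (x.1 - e₂) * (x.1 - e₃)) ≠ 0) ∧
      ¬ IsSquare (x.2.2 ((x.1 - e₁) * (x.1 - e₂) * (x.1 - e₃))) ∧
      ∀ σ, σ ≠ 1 → IsSquare (x.2.2 (s σ ((x.1 - e₁) * (x.1 - e₂) * (x.1 - e₃)))))
    (fun x y => ∀ σ, y.2.2 (s σ ((x.1 - e₁) * (x.1 - e₂) * (x.1 - e₃))) = 1)
    (by
      intro S hS
      obtain ⟨x₀, w, hw, hp⟩ := exists_translation s hs1 hsmul θ hθ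
        ((S ×ˢ (Finset.univ : Finset G)).image fun r =>
          s r.2 ((r.1.1 - e₁) * (r.1.1 - e₂) * (r.1.1 - e₃))) (by
          intro n hn
          obtain ⟨r, hr, rfl⟩ := Finset.mem_image.1 hn
          exact (hS r.1 (Finset.mem_product.1 hr).1).2.2.1 r.2) e₁ e₂ e₃ F hF0 u hu2 R
      obtain ⟨p, hpF, D, hD⟩ := hF (φ x₀)
      obtain ⟨h1, h2, h3, h4⟩ := hp p hpF
      refine ⟨((x₀ + p.1) / p.2, D, w), ⟨?_, h1, h2, h3, h4⟩, fun x hx σ => ?_⟩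
      · rw [hD]
        simp only [map_mul, map_sub, map_div₀, map_add]
      · exact hw _ (Finset.mem_image.2 ⟨(x, σ), Finset.mem_product.2 ⟨hx, Finset.mem_univ _⟩, rfl⟩))
  refine ⟨fun n => (f n).1, fun n => (f n).2.1, fun n => (f n).2.2, fun n => ?_⟩
  obtain ⟨h1, h2, h3, h4, h5⟩ := hf1 n
  exact ⟨h1, h2, h3, h4, h5, fun m hm σ => hf2 m n hm σ⟩

end Pool.MP_f30f9b_al.Ell
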