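import Mathlib

set_option autoImplicit false

namespace Pool.Agent.Results.MP_f30f9b_al.TrinomialTwoClasses

/-- The identity `f (T x) = T ^ n f x` for `f = c x ^ n + a x ^ (k + 1) + b x ^ k` and
`x = b (T ^ n - T ^ k) / (a (T ^ (k + 1) - T ^ n))` (for `n = 3`, `k = 0` it is Mestre's). -/
theorem scaling {K : Type*} [Field K] {a b c T : K} {n k : ℕ} (ha : a ≠ 0)
    (hT : T ^ (k + 1) - T ^ n ≠ 0) (x : K)
    (hx : x = b * (T ^ n - T ^ k) / (a * (T ^ (k + 1) - T ^ n))) :
    c * (T * x) ^ n + a * (T * x) ^ (k + 1) + b * (T * x) ^ k =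
      T ^ n * (c * x ^ n + a * x ^ (k + 1) + b * x ^ k) := by
  have h : a * x * (T ^ (k + 1) - T ^ n) = b * (T ^ n - T ^ k) := by
    rw [hx]; field_simp
  have e : c * (T * x) ^ n + a * (T * x) ^ (k + 1) + b * (T * x) ^ k -
      T ^ n * (c * x ^ n + a * x ^ (k + 1) + b * x ^ k) =
      x ^ k * (a * x * (T ^ (k + 1) - T ^ n) - b * (T ^ n - T ^ k)) := by
    rw [mul_pow, mul_pow, mul_pow, pow_succ x k]
    ring
  rw [h, sub_self, mul_zero] at e
  exact sub_eq_zero.1 e

/-- The product of two nonsquares is a square if the squares have index at most two. -/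
theorem isSquare_mul {K : Type*} [Field K]
    (h0 : (powMonoidHom 2 : Kˣ →* Kˣ).range.index ≠ 0)
    (h2 : (powMonoidHom 2 : Kˣ →* Kˣ).range.index ≤ 2) {x y : K} (hx : ¬ IsSquare x)
    (hy : ¬ IsSquare y) : IsSquare (x * y) := by
  have hx0 : x ≠ 0 := by rintro rfl; exact hx ⟨0, by simp⟩
  have hy0 : y ≠ 0 := by rintro rfl; exact hy ⟨0, by simp⟩
  have key : ∀ z : Kˣ, z ∈ (powMonoidHom 2 : Kˣ →* Kˣ).range → IsSquare (z : K) := by
    rintro z ⟨w, rfl⟩
    exact ⟨(w : K), by simp [powMonoidHom, sq]⟩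
  have key2 : ∀ z : K, ∀ hz : z ≠ 0, ¬ IsSquare z →
      Units.mk0 z hz ∉ (powMonoidHom 2 : Kˣ →* Kˣ).range := by
    intro z hz hns hm
    exact hns (key _ hm)
  have hx1 := key2 x hx0 hx
  have hy1 := key2 y hy0 hy
  have hidx : (powMonoidHom 2 : Kˣ →* Kˣ).range.index = 2 := by
    have h1 : (powMonoidHom 2 : Kˣ →* Kˣ).range.index ≠ 1 := by
      intro h1
      rw [Subgroup.index_eq_one] at h1
      rw [h1] at hx1
      exact hx1 (Subgroup.mem_top _)
    omega
  have h3 := (Subgroup.mul_mem_iff_of_index_two hidx (a := Units.mk0 x hx0)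
    (b := Units.mk0 y hy0)).2 ⟨fun h => absurd h hx1, fun h => absurd h hy1⟩
  have h4 := key _ h3
  simpa using h4

open Polynomial in
/-- Let `K` be an infinite field whose nonzero squares have index at most two in `Kˣ`, let `n` be
odd, `n ≠ k, k + 1` and `a, b ≠ 0`. Then the curve `y ^ 2 = c x ^ n + a x ^ (k + 1) + b x ^ k`
has infinitely many `K`-rational points. -/
theorem result (K : Type*) [Field K] [Infinite K]
    (h0 : (powMonoidHom 2 : Kˣ →* Kˣ).range.index ≠ 0)
    (h2 : (powMonoidHom 2 : Kˣ →* Kˣ).range.index ≤ 2) (n k : ℕ) (hn : Odd n) (hnk : n ≠ k)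
    (hnk1 : n ≠ k + 1) (a b c : K) (ha : a ≠ 0) (hb : b ≠ 0) :
    {p : K × K | p.2 ^ 2 = c * p.1 ^ n + a * p.1 ^ (k + 1) + b * p.1 ^ k}.Infinite := by
  by_cases hall : ∀ x : K, IsSquare x
  · choose r hr using hall
    apply Set.infinite_of_injective_forall_mem
      (f := fun x : K => (x, r (c * x ^ n + a * x ^ (k + 1) + b * x ^ k)))
    · intro x y h
      exact (Prod.mk.inj h).1
    · intro x
      rw [Set.mem_ofPred_eq, sq]
      exact (hr _).symm
  · push Not at hall
    obtain ⟨u, hu⟩ := hall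
    intro hfin
    set X : Finset K := (hfin.image Prod.fst).toFinset with hX
    have hmem : ∀ x y : K, y ^ 2 = c * x ^ n + a * x ^ (k + 1) + b * x ^ k → x ∈ X := by
      intro x y h
      rw [hX, Set.Finite.mem_toFinset]
      exact ⟨(x, y), h, rfl⟩
    set Q0 : K[X] := Polynomial.X ^ (k + 1) - Polynomial.X ^ n with hQ0
    set Q1 : K → K[X] := fun x => C (a * x) * Q0 -
      C b * (Polynomial.X ^ n - Polynomial.X ^ k) with hQ1
    set Q2 : K → K[X] := fun x => C (a * x) * Q0 -
      C b * (Polynomial.X ^ (n + 1) - Polynomial.X ^ (k + 1)) with hQ2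
    have h00 : Q0 ≠ 0 := by
      intro h
      have h3 := congrArg (fun q => coeff q n) h
      simp [hQ0, coeff_X_pow, hnk1] at h3
    have h1 : ∀ x, Q1 x ≠ 0 := by
      intro x h
      have h3 := congrArg (fun q => coeff q k) h
      simp only [hQ1, hQ0, coeff_sub, coeff_C_mul, coeff_X_pow, coeff_zero] at h3
      rw [if_neg (show k ≠ k + 1 by omega), if_neg (Ne.symm hnk)] at h3
      simp only [if_true] at h3
      apply hb
      linear_combination h3
    have h2' : ∀ x, Q2 x ≠ 0 := by
      intro x h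
      have h3 := congrArg (fun q => coeff q (n + 1)) h
      simp only [hQ2, hQ0, coeff_sub, coeff_C_mul, coeff_X_pow, coeff_zero] at h3
      rw [if_neg (show n + 1 ≠ k + 1 by omega), if_neg (show n + 1 ≠ n by omega)] at h3
      simp only [if_true] at h3
      apply hb
      linear_combination -h3
    set P : K[X] := Q0 * ∏ x ∈ X, (Q1 x * Q2 x) with hP
    have hP0 : P ≠ 0 := by
      rw [hP]
      apply mul_ne_zero h00
      rw [Finset.prod_ne_zero_iff]
      intro x _
      exact mul_ne_zero (h1 x) (h2' x)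
    have hu0 : u ≠ 0 := by rintro rfl; exact hu ⟨0, by simp⟩
    have hroot : ∀ s : K, s ≠ 0 → P.eval (u * s ^ 2) = 0 := by
      intro s hs
      generalize hTdef : u * s ^ 2 = T
      have hTns : ¬ IsSquare T := by
        rintro ⟨r, hr⟩
        apply hu
        refine ⟨r / s, ?_⟩
        field_simp
        rw [hTdef, hr, sq]
      rw [hP, eval_mul, eval_prod]
      by_cases hT1 : T ^ (k + 1) - T ^ n = 0
      · have : Q0.eval T = 0 := by simpa [hQ0] using hT1
        rw [this, zero_mul]
      · obtain ⟨x0, hx0⟩ : ∃ x0, x0 = b * (T ^ n - T ^ k) / (a * (T ^ (k + 1) - T ^ n)) :=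
          ⟨_, rfl⟩
        have hfx := scaling (c := c) ha hT1 x0 hx0
        have hlin : a * x0 * (T ^ (k + 1) - T ^ n) = b * (T ^ n - T ^ k) := by
          rw [hx0]; field_simp
        by_cases hsq : IsSquare (c * x0 ^ n + a * x0 ^ (k + 1) + b * x0 ^ k)
        · obtain ⟨y, hy⟩ := hsq
          have hx : x0 ∈ X := hmem x0 y (by rw [sq, hy])
          have hz : (Q1 x0 * Q2 x0).eval T = 0 := by
            have : (Q1 x0).eval T = 0 := by
              simp only [hQ1, hQ0, eval_sub, eval_mul, eval_C, eval_X, eval_pow]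
              rw [hlin, sub_self]
            rw [eval_mul, this, zero_mul]
          rw [Finset.prod_eq_zero hx hz, mul_zero]
        · obtain ⟨y, hy⟩ := isSquare_mul h0 h2 hTns hsq
          obtain ⟨l, rfl⟩ := hn
          have hx : T * x0 ∈ X := by
            apply hmem (T * x0) (T ^ l * y)
            rw [hfx]
            calc (T ^ l * y) ^ 2 = T ^ (2 * l) * (y * y) := by ring
              _ = T ^ (2 * l + 1) * (c * x0 ^ (2 * l + 1) + a * x0 ^ (k + 1) + b * x0 ^ k) := by
                rw [← hy]; ring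
          have hz : (Q1 (T * x0) * Q2 (T * x0)).eval T = 0 := by
            have : (Q2 (T * x0)).eval T = 0 := by
              simp only [hQ2, hQ0, eval_sub, eval_mul, eval_C, eval_X, eval_pow]
              calc a * (T * x0) * (T ^ (k + 1) - T ^ (2 * l + 1)) -
                    b * (T ^ (2 * l + 1 + 1) - T ^ (k + 1)) =
                  T * (a * x0 * (T ^ (k + 1) - T ^ (2 * l + 1)) -
                    b * (T ^ (2 * l + 1) - T ^ k)) := by ring
                _ = 0 := by rw [hlin, sub_self, mul_zero]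
            rw [eval_mul, this, mul_zero]
          rw [Finset.prod_eq_zero hx hz, mul_zero]
    clear_value P
    have hcomp : P.comp (C u * Polynomial.X ^ 2) * Polynomial.X = 0 := by
      apply Polynomial.funext
      intro s
      have e1 : eval s (C u * Polynomial.X ^ 2) = u * s ^ 2 := by simp
      rw [eval_mul, eval_comp, e1, eval_X, eval_zero]
      by_cases hs : s = 0
      · rw [hs, mul_zero]
      · rw [hroot s hs, zero_mul]
    rcases mul_eq_zero.1 hcomp with h | h
    · rcases Polynomial.comp_eq_zero_iff.1 h with h | ⟨-, h⟩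
      · exact hP0 h
      · have h3 := congrArg (fun q => coeff q 2) h
        simp [coeff_C] at h3
        exact hu0 h3
    · exact Polynomial.X_ne_zero h

end Pool.Agent.Results.MP_f30f9b_al.TrinomialTwoClasses
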